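import Pool.Agent.Lib.MP_d439b2_co.LV.Spec

set_option autoImplicit false

namespace Pool.Agent.MPd439b2

theorem lvA2 : S_A2c := by
  intro hA1 V G s I J B P X hM hJI hs hP hX hXX hJ
  classical
  obtain ⟨J', hJ', hc⟩ := Finset.exists_subset_card_eq hs
  let f : Fin s ≃ J' := (J'.equivFinOfCardEq hc).symm
  let e : ℕ → ℕ := fun i => if h : i < s then (f ⟨i, h⟩ : ℕ) else 0
  have he : ∀ i, (h : i < s) → e i = (f ⟨i, h⟩ : ℕ) := fun i h => dif_pos h
  have heJ : ∀ i < s, e i ∈ J := by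
    intro i hi
    rw [he i hi]
    exact hJ' (f ⟨i, hi⟩).2
  have hinj : ∀ i < s, ∀ j < s, i ≠ j → e i ≠ e j := by
    intro i hi j hj hij h
    rw [he i hi, he j hj] at h
    have h1 := f.injective (Subtype.ext h)
    exact hij (congrArg Fin.val h1)
  refine hA1 V G s P (fun i => B (e i)) X hP ?_ (fun a ha => (hX a ha).1) ?_
    (fun a ha => ⟨(hX a ha).2.1, (hX a ha).2.2⟩) ?_ hXX ?_
  · intro i hi
    exact hM.1 _ (hJI (heJ i hi))
  · intro i hi
    have h1 := hJ _ (heJ i hi)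
    exact ⟨h1.1.symm, h1.2.1⟩
  · intro i hi j hj hij
    exact hM.2 _ (hJI (heJ i hi)) _ (hJI (heJ j hj)) (hinj i hi j hj hij)
  · intro i hi a ha
    have h1 := (hJ _ (heJ i hi)).2.2 a ha
    exact ⟨h1.1, h1.2.symm⟩

end Pool.Agent.MPd439b2
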