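import Pool.Agent.Lib.MP_d439b2_co.LV.Spec

/-!
# MP_d439b2_co, partner `K_s ∨ (K_3 + P_1)`: choice of distinct elements
-/

set_option autoImplicit false

namespace Pool.Agent.MPd439b2

namespace lvA3Aux

theorem choice (s d : ℕ) (J : Finset ℕ) (bad : ℕ → Finset ℕ) (hbad : ∀ k < s, (bad k).card ≤ d)
    (hJ : s + d ≤ J.card) : ∀ t ≤ s, ∃ π : ℕ → ℕ, (∀ k < t, π k ∈ J ∧ π k ∉ bad k) ∧
      ∀ k < t, ∀ l < t, π k = π l → k = l := by
  intro t
  induction t with
  | zero => exact fun _ => ⟨id, fun k hk => absurd hk (by omega), fun k hk => absurd hk (by omega)⟩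
  | succ t ih =>
    intro ht
    obtain ⟨π, h1, h2⟩ := ih (by omega)
    have hc : ((bad t) ∪ (Finset.range t).image π).card < J.card := by
      refine lt_of_le_of_lt (Finset.card_union_le _ _) ?_
      have h3 : ((Finset.range t).image π).card ≤ t := by
        have := Finset.card_image_le (s := Finset.range t) (f := π)
        rwa [Finset.card_range] at this
      have h4 := hbad t (by omega)
      omega
    obtain ⟨x, hxJ, hx⟩ := Finset.exists_mem_notMem_of_card_lt_card hc
    rw [Finset.mem_union, not_or] at hx
    have hx2 : ∀ k < t, π k ≠ x := by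
      intro k hk hkx
      exact hx.2 (Finset.mem_image.2 ⟨k, Finset.mem_range.2 hk, hkx⟩)
    refine ⟨Function.update π t x, ?_, ?_⟩
    · intro k hk
      by_cases hkt : k = t
      · subst hkt
        rw [Function.update_self]
        exact ⟨hxJ, hx.1⟩
      · rw [Function.update_of_ne hkt]
        exact h1 k (by omega)
    · intro k hk l hl hkl
      by_cases hkt : k = t
      · by_cases hlt : l = t
        · rw [hkt, hlt]
        · rw [hkt, Function.update_self, Function.update_of_ne hlt] at hkl
          exact absurd hkl.symm (hx2 l (by omega))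
      · by_cases hlt : l = t
        · rw [hlt, Function.update_self, Function.update_of_ne hkt] at hkl
          exact absurd hkl (hx2 k (by omega))
        · rw [Function.update_of_ne hkt, Function.update_of_ne hlt] at hkl
          exact h2 k (by omega) l (by omega) hkl

end lvA3Aux

theorem lvA3 : S_A3c := by
  intro s d e J bad hbad hJ
  obtain ⟨π, h1, h2⟩ := lvA3Aux.choice s d J bad hbad (by omega) s le_rfl
  have hc : e ≤ (J \ (Finset.range s).image π).card := by
    have h3 : ((Finset.range s).image π).card ≤ s := by
      have := Finset.card_image_le (s := Finset.range s) (f := π)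
      rwa [Finset.card_range] at this
    have h4 := Finset.le_card_sdiff ((Finset.range s).image π) J
    omega
  obtain ⟨E, hE, hEc⟩ := Finset.exists_subset_card_eq hc
  refine ⟨π, h1, h2, E, hE.trans Finset.sdiff_subset, hEc, ?_⟩
  intro k hk hkE
  exact (Finset.mem_sdiff.1 (hE hkE)).2 (Finset.mem_image.2 ⟨k, Finset.mem_range.2 hk, rfl⟩)

end Pool.Agent.MPd439b2
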