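import Pool.Agent.Lib.MP_d439b2_co.LV.Spec

/-!
# MP_d439b2_co, LV/A4: rooted universal sets
-/

set_option autoImplicit false

namespace Pool.Agent.MPd439b2

theorem lvA4 : S_A4c := by
  classical
  intro hA1 hA3 V G s I J B P R hM hJI hcard hP hJP hR hRR hRB hF
  choose! F hF2 hFT using hF
  obtain ⟨π, hπ, hinj, E, hEJ, hE, hπE⟩ := hA3 s 2 3 J F hF2 (by omega)
  obtain ⟨e, heE, he⟩ : ∃ e : ℕ → ℕ, (∀ a < 3, e a ∈ E) ∧
      ∀ a < 3, ∀ b < 3, e a = e b → a = b := by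
    refine ⟨fun a => if h : a < 3 then E.orderEmbOfFin hE ⟨a, h⟩ else 0, fun a ha => ?_,
      fun a ha b hb hab => ?_⟩
    · simp only [dif_pos ha]
      exact Finset.orderEmbOfFin_mem E hE _
    · simp only [dif_pos ha, dif_pos hb] at hab
      exact congrArg Fin.val ((E.orderEmbOfFin hE).injective hab)
  have hπJ : ∀ k < s, π k ∈ J := fun k hk => (hπ k hk).1
  have heJ : ∀ a < 3, e a ∈ J := fun a ha => hEJ (heE a ha)
  have hπe : ∀ k < s, ∀ a < 3, π k ≠ e a := fun k hk a ha h => hπE k hk (h ▸ heE a ha)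
  have hRπ : ∀ k < s, ∀ j ∈ J, Disjoint (R k) (B j) := hRB
  have hTπ : ∀ k < s, Tch G (R k) (B (π k)) := fun k hk => hFT k hk _ (hπJ k hk) (hπ k hk).2
  refine hA1 V G s P (fun k => R k ∪ B (π k)) (fun a => B (e a)) hP (fun k hk => ?_)
    (fun a ha => hM.1 _ (hJI (heJ a ha))) (fun k hk => ⟨?_, ?_⟩) (fun a ha => ⟨?_, ?_⟩)
    (fun k hk l hl hkl => ⟨?_, ?_⟩) (fun a ha b hb hab => ?_) (fun k hk a ha => ⟨?_, ?_⟩)
  · exact (hR k hk).1.union (hM.1 _ (hJI (hπJ k hk))) (Or.inr (hTπ k hk))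
  · exact Set.disjoint_union_right.2 ⟨(hR k hk).2.1, (hJP _ (hπJ k hk)).1.symm⟩
  · exact (hR k hk).2.2.mono subset_rfl Set.subset_union_left
  · exact (hJP _ (heJ a ha)).1.symm
  · exact (hJP _ (heJ a ha)).2
  · refine Set.disjoint_union_left.2 ⟨Set.disjoint_union_right.2 ⟨hRR k hk l hl hkl,
      hRB k hk _ (hπJ l hl)⟩, Set.disjoint_union_right.2 ⟨(hRB l hl _ (hπJ k hk)).symm, ?_⟩⟩
    exact (hM.2 _ (hJI (hπJ k hk)) _ (hJI (hπJ l hl)) (fun h => hkl (hinj k hk l hl h))).1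
  · exact (hM.2 _ (hJI (hπJ k hk)) _ (hJI (hπJ l hl)) (fun h => hkl (hinj k hk l hl h))).2.mono
      Set.subset_union_right Set.subset_union_right
  · exact hM.2 _ (hJI (heJ a ha)) _ (hJI (heJ b hb)) (fun h => hab (he a ha b hb h))
  · exact Set.disjoint_union_left.2 ⟨hRB k hk _ (heJ a ha),
      (hM.2 _ (hJI (hπJ k hk)) _ (hJI (heJ a ha)) (hπe k hk a ha)).1⟩
  · exact (hM.2 _ (hJI (hπJ k hk)) _ (hJI (heJ a ha)) (hπe k hk a ha)).2.mono
      Set.subset_union_right subset_rfl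

end Pool.Agent.MPd439b2
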