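import Pool.Agent.Lib.MP_d439b2_co.LV.Spec

/-!
# MP_d439b2_co, large vertices: a connected set touches few sets of the model or misses at most two
-/

set_option autoImplicit false

namespace Pool.Agent.MPd439b2

namespace lvB1Aux

/-- three different elements of a finite set with at least three elements -/
theorem three {M : Finset ℕ} (h : 3 ≤ M.card) :
    ∃ e : ℕ → ℕ, (∀ a < 3, e a ∈ M) ∧ ∀ a < 3, ∀ b < 3, a ≠ b → e a ≠ e b := by
  classical
  obtain ⟨x, hx, y, hy, z, hz, hxy, hxz, hyz⟩ := Finset.two_lt_card.1 (by omega : 2 < M.card)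
  refine ⟨fun a => if a = 0 then x else if a = 1 then y else z, ?_, ?_⟩
  · intro a ha
    interval_cases a
    · exact hx
    · exact hy
    · exact hz
  · intro a ha b hb hab
    interval_cases a <;> interval_cases b
    · exact absurd rfl hab
    · exact hxy
    · exact hxz
    · exact hxy.symm
    · exact absurd rfl hab
    · exact hyz
    · exact hxz.symm
    · exact hyz.symm
    · exact absurd rfl hab

end lvB1Aux

open lvB1Aux in
theorem lvB1 : S_B1c := by
  intro h1 h2 V G s I B X hims hM hX
  by_contra hcon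
  rw [not_or, not_lt, not_le] at hcon
  obtain ⟨hJ, hm⟩ := hcon
  obtain ⟨e, he, hne⟩ := three (M := misI G I B X) (by omega)
  refine hims (h2 h1 V G s I (tchI G I B X) B X (fun a => B (e a)) hM ?_ hJ hX ?_ ?_ ?_)
  · intro i hi
    exact (mem_tchI.1 hi).1
  · intro a ha
    have h := mem_misI.1 (he a ha)
    exact ⟨hM.1 _ h.1, h.2.1.symm, h.2.2⟩
  · intro a ha b hb hab
    exact hM.2 _ (mem_misI.1 (he a ha)).1 _ (mem_misI.1 (he b hb)).1 (hne a ha b hb hab)
  · intro j hj
    have hj' := mem_tchI.1 hj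
    refine ⟨hj'.2.1, hj'.2.2, ?_⟩
    intro a ha
    have h := mem_misI.1 (he a ha)
    have hjne : j ≠ e a := by
      intro hje
      rw [← hje] at h
      exact h.2.2 hj'.2.2
    refine ⟨(hM.2 _ hj'.1 _ h.1 hjne).1, ?_⟩
    exact (hM.2 _ h.1 _ hj'.1 hjne.symm).2

end Pool.Agent.MPd439b2
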