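import Pool.Agent.Lib.MP_d439b2_co.LV.Spec

/-!
# MP_d439b2_co, partner `K_s ∨ (K_3 + P_1)`, module B2: every set of the model contains a large vertex
-/

set_option autoImplicit false

namespace Pool.Agent.MPd439b2

theorem lvB2 : S_B2c := by
  classical
  intro hB1 hG V _ G s I B hK hM hI j hj
  by_contra hne
  have hsmall : ∀ v ∈ B j, v ∉ Lg G I B := fun v hv hL => hne ⟨v, hv, hL⟩
  have hM' : Mdl G (I.erase j) B :=
    ⟨fun i hi => hM.1 i (Finset.mem_of_mem_erase hi), fun i hi k hk hik =>
      hM.2 i (Finset.mem_of_mem_erase hi) k (Finset.mem_of_mem_erase hk) hik⟩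
  have hcard : (I.erase j).card = I.card - 1 := Finset.card_erase_of_mem hj
  -- a single vertex touches fewer than s sets
  have hone : ∀ v ∈ B j, (tau G (I.erase j) B {v}).card < s := by
    intro v hv
    have h1 : (tau G (I.erase j) B {v}).card ≤ (tchI G I B {v}).card := by
      refine Finset.card_le_card fun i hi => ?_
      rw [mem_tau] at hi
      rw [mem_tchI]
      refine ⟨Finset.mem_of_mem_erase hi.1, ?_, hi.2⟩
      rw [Set.disjoint_singleton_right]
      intro hvi
      exact Set.disjoint_left.1 (hM.2 i (Finset.mem_of_mem_erase hi.1) j hj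
        (Finset.ne_of_mem_erase hi.1)).1 hvi hv
    rcases hB1 V G s I B {v} hK hM (Conn.singleton G v) with h2 | h2
    · exact lt_of_le_of_lt h1 h2
    · exact absurd h2 (hsmall v hv)
  obtain ⟨u, hu⟩ := (hM.1 j hj).1
  have hgrow := (hG V G (B j) u (hM.1 j hj) hu).2 (fun D => (tau G (I.erase j) B D).card) s s ?_
    (hone u hu) ?_
  · obtain ⟨D, hD, _, hDc, hD1, hD2⟩ := hgrow
    have hdis : ∀ i ∈ I.erase j, Disjoint (B i) D := fun i hi =>
      ((hM.2 i (Finset.mem_of_mem_erase hi) j hj (Finset.ne_of_mem_erase hi)).1).mono_right hD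
    have heq : tchI G (I.erase j) B D = tau G (I.erase j) B D := by
      ext i
      rw [mem_tchI, mem_tau]
      constructor
      · rintro ⟨h1, _, h3⟩
        exact ⟨h1, h3⟩
      · rintro ⟨h1, h3⟩
        exact ⟨h1, hdis i h1, h3⟩
    have hhit : (hitI (I.erase j) B D).card = 0 := by
      rw [Finset.card_eq_zero, Finset.eq_empty_iff_forall_notMem]
      intro i hi
      exact (mem_hitI.1 hi).2 (hdis i (mem_hitI.1 hi).1)
    have hsum := card_hit_tch_mis G (I.erase j) B D
    rw [heq, hhit, hcard] at hsum
    rcases hB1 V G s (I.erase j) B D hK hM' hDc with h2 | h2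
    · rw [heq] at h2
      change s ≤ (tau G (I.erase j) B D).card at hD1
      omega
    · change (tau G (I.erase j) B D).card < s + s at hD2
      omega
  · intro D v hv
    have h1 : tau G (I.erase j) B (insert v D) ⊆ tau G (I.erase j) B D ∪ tau G (I.erase j) B {v} := by
      intro i hi
      rw [mem_tau] at hi
      rw [Finset.mem_union, mem_tau, mem_tau]
      obtain ⟨h1, a, ha, b, hb, hab⟩ := hi
      rcases ha with rfl | ha
      · exact Or.inr ⟨h1, a, rfl, b, hb, hab⟩
      · exact Or.inl ⟨h1, a, ha, b, hb, hab⟩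
    have h2 := (Finset.card_le_card h1).trans (Finset.card_union_le _ _)
    have h3 := hone v hv
    show (tau G (I.erase j) B (insert v D)).card ≤ (tau G (I.erase j) B D).card + s
    omega
  · have h1 : tau G (I.erase j) B (B j) = I.erase j := by
      ext i
      rw [mem_tau]
      constructor
      · exact fun h => h.1
      · intro h
        exact ⟨h, (hM.2 j hj i (Finset.mem_of_mem_erase h) (Finset.ne_of_mem_erase h).symm).2⟩
    show s ≤ (tau G (I.erase j) B (B j)).card
    rw [h1, hcard]
    omega

end Pool.Agent.MPd439b2
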