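import Pool.Agent.Lib.MP_d439b2_co.LV.Spec

/-!
# MP_d439b2_co, partner `K_s ∨ (K_3 + P_1)`, module B3: connected sets of small vertices see few sets
-/

set_option autoImplicit false

namespace Pool.Agent.MPd439b2

namespace lvB3Aux

theorem enum {s : ℕ} {J : Finset ℕ} (h : s ≤ J.card) :
    ∃ π : ℕ → ℕ, (∀ k < s, π k ∈ J) ∧ ∀ k < s, ∀ l < s, π k = π l → k = l := by
  classical
  refine ⟨fun k => if hk : k < J.card then J.orderEmbOfFin rfl ⟨k, hk⟩ else 0, ?_, ?_⟩
  · intro k hk
    have hk' : k < J.card := lt_of_lt_of_le hk h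
    simp only [hk', dif_pos]
    exact Finset.orderEmbOfFin_mem J rfl _
  · intro k hk l hl hkl
    have hk' : k < J.card := lt_of_lt_of_le hk h
    have hl' : l < J.card := lt_of_lt_of_le hl h
    simp only [hk', hl', dif_pos] at hkl
    have := (J.orderEmbOfFin rfl).injective hkl
    exact congrArg Fin.val this

/-- the claim: no connected set of small vertices sees a middle number of sets -/
theorem claim (hB1 : C_B1) (hA4 : C_A4) (hB2 : C_B2) {V : Type} [Finite V] {G : SimpleGraph V} {s : ℕ}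
    {I : Finset ℕ} {B : ℕ → Set V} {X : Set V} (hK : ¬ IMS (KC s) G Set.univ) (hM : Mdl G I B)
    (hI : 4 * s + 6 ≤ I.card) (hX : Conn G X) (hXL : Disjoint X (Lg G I B))
    (h1 : 2 * s + 1 ≤ (hitI I B X).card + (tchI G I B X).card)
    (h2 : (hitI I B X).card + (tchI G I B X).card + s + 5 ≤ I.card) : False := by
  classical
  have hsum := card_hit_tch_mis G I B X
  have hmis : s + 5 ≤ (misI G I B X).card := by omega
  rcases hB1 V G s I B X hK hM hX with h3 | h3
  swap
  · omega
  have hhit : s ≤ (hitI I B X).card := by omega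
  obtain ⟨j, hj1, hj2⟩ := enum hhit
  have hjne : ∀ k < s, ∀ i ∈ misI G I B X, i ≠ j k := by
    intro k hk i hi hik
    exact (mem_hitI.1 (hj1 k hk)).2 (hik ▸ (mem_misI.1 hi).2.1)
  have hR : ∀ k, k < s → ∃ R : Set V, R ⊆ B (j k) ∧ Disjoint X R ∧ Conn G R ∧ Tch G X R ∧
      ∃ F : Finset ℕ, F.card ≤ 2 ∧ ∀ i ∈ misI G I B X, i ∉ F → Tch G R (B i) := by
    intro k hk
    have hjk := mem_hitI.1 (hj1 k hk)
    obtain ⟨v, hv, hvL⟩ := hB2 V G s I B hK hM (by omega) (j k) hjk.1
    have hvX : v ∉ X := fun h => Set.disjoint_left.1 hXL h hvL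
    obtain ⟨R, hRs, hvR, hRc, hRn⟩ := exists_comp G (A := B (j k) \ X) (v := v) ⟨hv, hvX⟩
    refine ⟨R, fun x hx => (hRs hx).1, Set.disjoint_left.2 fun x hx hx' => (hRs hx').2 hx, hRc, ?_,
      misI G I B {v}, hvL, ?_⟩
    · -- `R` touches `X`
      obtain ⟨x, hxB, hxX⟩ := Set.not_disjoint_iff.1 hjk.2
      have hne : R ≠ B (j k) := by
        intro h
        rw [← h] at hxB
        exact (hRs hxB).2 hxX
      obtain ⟨b, hb, a, ha, hba⟩ := (hM.1 (j k) hjk.1).2 R (fun x hx => (hRs hx).1) ⟨v, hvR⟩ hne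
      have haX : a ∈ X := by
        by_contra haX
        exact hRn a ⟨ha.1, haX⟩ ⟨ha.2, b, hb, hba⟩
      exact ⟨a, haX, b, hb, hba.symm⟩
    · intro i hi hiF
      have hi' := mem_misI.1 hi
      by_contra hcon
      apply hiF
      rw [mem_misI]
      refine ⟨hi'.1, ?_, fun h => hcon (h.mono (Set.singleton_subset_iff.2 hvR) subset_rfl)⟩
      rw [Set.disjoint_singleton_right]
      intro hvi
      exact Set.disjoint_left.1 (hM.2 i hi'.1 (j k) hjk.1 (hjne k hk i hi)).1 hvi hv
  choose! R hR1 hR2 hR3 hR4 hR5 using hR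
  refine hK (hA4 V G s I (misI G I B X) B X R hM (fun i hi => (mem_misI.1 hi).1) hmis hX
    (fun i hi => (mem_misI.1 hi).2) (fun k hk => ⟨hR3 k hk, hR2 k hk, hR4 k hk⟩) ?_ ?_ ?_)
  · intro k hk l hl hkl
    have hne : j k ≠ j l := fun h => hkl (hj2 k hk l hl h)
    exact ((hM.2 _ (mem_hitI.1 (hj1 k hk)).1 _ (mem_hitI.1 (hj1 l hl)).1 hne).1).mono
      (hR1 k hk) (hR1 l hl)
  · intro k hk i hi
    exact ((hM.2 _ (mem_hitI.1 (hj1 k hk)).1 i (mem_misI.1 hi).1 (hjne k hk i hi).symm).1).mono_left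
      (hR1 k hk)
  · intro k hk
    exact hR5 k hk

end lvB3Aux

open lvB3Aux in
theorem lvB3 : S_B3c := by
  classical
  intro hB1 hA4 hB2 hG V _ G s I B X hK hM hI hX hXL
  by_contra hcon
  have hcon' : 2 * s + 1 ≤ (hitI I B X).card + (tchI G I B X).card := by omega
  have hone : ∀ v ∈ X, (hitI I B {v}).card + (tchI G I B {v}).card ≤ s := by
    intro v hv
    have h1 := hitI_single_le (I := I) (B := B) (fun i hi j hj hij => (hM.2 i hi j hj hij).1) v
    rcases hB1 V G s I B {v} hK hM (Conn.singleton G v) with h2 | h2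
    · omega
    · exact absurd h2 (fun h => Set.disjoint_left.1 hXL hv h)
  obtain ⟨u, hu⟩ := hX.1
  have hgrow := (hG V G X u hX hu).2 (fun D => (hitI I B D).card + (tchI G I B D).card) (2 * s + 1) s
    ?_ ?_ hcon'
  · obtain ⟨D, hD, _, hDc, hD1, hD2⟩ := hgrow
    change 2 * s + 1 ≤ (hitI I B D).card + (tchI G I B D).card at hD1
    change (hitI I B D).card + (tchI G I B D).card < 2 * s + 1 + s at hD2
    exact claim hB1 hA4 hB2 hK hM hI hDc (hXL.mono_left hD) hD1 (by omega)
  · intro D v hv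
    show (hitI I B (insert v D)).card + (tchI G I B (insert v D)).card ≤
      (hitI I B D).card + (tchI G I B D).card + s
    have h1 := card_hit_tch_mis G I B D
    have h2 := card_hit_tch_mis G I B (insert v D)
    have h3 := hone v hv
    have h4 : misI G I B D ⊆ misI G I B (insert v D) ∪ (hitI I B {v} ∪ tchI G I B {v}) := by
      intro i hi
      have hi' := mem_misI.1 hi
      rw [Finset.mem_union, Finset.mem_union]
      by_cases h5 : Disjoint (B i) {v}
      · by_cases h6 : Tch G {v} (B i)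
        · exact Or.inr (Or.inr (mem_tchI.2 ⟨hi'.1, h5, h6⟩))
        · refine Or.inl (mem_misI.2 ⟨hi'.1, ?_, ?_⟩)
          · rw [Set.insert_eq, Set.disjoint_union_right]
            exact ⟨h5, hi'.2.1⟩
          · rintro ⟨a, ha, b, hb, hab⟩
            rcases ha with rfl | ha
            · exact h6 ⟨a, rfl, b, hb, hab⟩
            · exact hi'.2.2 ⟨a, ha, b, hb, hab⟩
      · exact Or.inr (Or.inl (mem_hitI.2 ⟨hi'.1, h5⟩))
    have h5 := (Finset.card_le_card h4).trans (Finset.card_union_le _ _)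
    have h6 := Finset.card_union_le (hitI I B {v}) (tchI G I B {v})
    omega
  · show (hitI I B {u}).card + (tchI G I B {u}).card < 2 * s + 1
    have := hone u hu
    omega

end Pool.Agent.MPd439b2
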