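import Pool.Agent.Lib.MP_d439b2_co.LV.Spec

/-!
# MP_d439b2_co, module LV/B4: a connected set of small vertices has fewer than `s` large neighbours
-/

set_option autoImplicit false

namespace Pool.Agent.MPd439b2

namespace lvB4Aux

/-- distinct elements of a set with at least `s` elements -/
theorem choose {V : Type} [Finite V] (A : Set V) (s : ℕ) (h : s ≤ A.ncard) (v0 : V) :
    ∃ a : ℕ → V, (∀ k < s, a k ∈ A) ∧ ∀ k < s, ∀ l < s, a k = a l → k = l := by
  classical
  have hfin : A.Finite := Set.toFinite A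
  obtain ⟨T, hTA, hTc⟩ := Set.exists_subset_card_eq h
  have hTf : T.Finite := Set.toFinite T
  have hc : hTf.toFinset.card = s := by rw [← Set.ncard_eq_toFinset_card T hTf, hTc]
  let e := hTf.toFinset.equivFinOfCardEq hc
  refine ⟨fun k => if h : k < s then (e.symm ⟨k, h⟩ : V) else v0, fun k hk => ?_,
    fun k hk l hl hkl => ?_⟩
  · simp only [dif_pos hk]
    exact hTA ((Set.Finite.mem_toFinset hTf).1 (e.symm ⟨k, hk⟩).2)
  · simp only [dif_pos hk, dif_pos hl] at hkl
    have h1 := e.symm.injective (Subtype.ext hkl)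
    exact congrArg Fin.val h1

end lvB4Aux

theorem lvB4 : S_B4c := by
  classical
  intro hA4 hB3 V _ G s I B X hno hM hI hX hXL
  by_contra hcon
  push Not at hcon
  obtain ⟨hns, hs0⟩ := hcon
  obtain ⟨v0, hv0⟩ := hX.1
  obtain ⟨a, ha, hainj⟩ := lvB4Aux.choose (nb G X ∩ Lg G I B) s hns v0
  have hdis : ∀ i ∈ I, ∀ j ∈ I, i ≠ j → Disjoint (B i) (B j) := fun i hi j hj h =>
    (hM.2 i hi j hj h).1
  have h3 := hB3 V G s I B X hno hM hI hX hXL
  have hsum := card_hit_tch_mis G I B X
  let U : Finset ℕ := (Finset.range s).biUnion fun k => hitI I B {a k}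
  have hU : U.card ≤ s := by
    refine Finset.card_biUnion_le.trans ?_
    refine (Finset.sum_le_card_nsmul _ _ 1 fun k _ => hitI_single_le hdis (a k)).trans ?_
    rw [Finset.card_range, smul_eq_mul, mul_one]
  let J : Finset ℕ := misI G I B X \ U
  have hJ : s + 5 ≤ J.card := by
    have h4 : (misI G I B X).card - U.card ≤ J.card := Finset.le_card_sdiff _ _
    omega
  have hJI : J ⊆ I := fun j hj => (mem_misI.1 (Finset.mem_sdiff.1 hj).1).1
  have hJh : ∀ k < s, ∀ j ∈ J, Disjoint (B j) {a k} := by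
    intro k hk j hj
    by_contra hd
    refine (Finset.mem_sdiff.1 hj).2 (Finset.mem_biUnion.2 ⟨k, Finset.mem_range.2 hk, ?_⟩)
    exact mem_hitI.2 ⟨hJI hj, hd⟩
  refine hno (hA4 V G s I J B X (fun k => {a k}) hM hJI hJ hX ?_ ?_ ?_ ?_ ?_)
  · intro j hj
    exact (mem_misI.1 (Finset.mem_sdiff.1 hj).1).2
  · intro k hk
    obtain ⟨⟨h5, x, hx, hxa⟩, _⟩ := ha k hk
    exact ⟨Conn.singleton G (a k), Set.disjoint_singleton_right.2 h5, x, hx, a k,
      Set.mem_singleton _, hxa⟩
  · intro k hk l hl hkl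
    rw [Set.disjoint_singleton]
    exact fun h => hkl (hainj k hk l hl h)
  · intro k hk j hj
    exact (hJh k hk j hj).symm
  · intro k hk
    refine ⟨misI G I B {a k}, (ha k hk).2, fun j hj hjn => ?_⟩
    by_contra ht
    exact hjn (mem_misI.2 ⟨hJI hj, hJh k hk j hj, ht⟩)

end Pool.Agent.MPd439b2
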