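import Pool.Agent.Lib.MP_d439b2_co.LV.Spec

set_option autoImplicit false

namespace Pool.Agent.MPd439b2

namespace lvB5Aux

variable {V : Type} {G : SimpleGraph V} {X : Set V}

/-- components which meet are equal -/
theorem comp_subset {Z Z' : Set V} (h : IsComp G X Z) (h' : IsComp G X Z') (hm : (Z ∩ Z').Nonempty) :
    Z ⊆ Z' := by
  have h1 : Z ∩ Z' = Z := by
    apply h.2.1.eq_of_nb Set.inter_subset_left hm
    rintro v hv ⟨hv1, a, ha, hav⟩
    have hv2 : v ∉ Z' := fun h2 => hv1 ⟨hv, h2⟩
    exact h'.2.2 v (h.1 hv) ⟨hv2, a, ha.2, hav⟩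
  rw [← h1]
  exact Set.inter_subset_right

theorem comp_disj {Z Z' : Set V} (h : IsComp G X Z) (h' : IsComp G X Z') (hne : Z ≠ Z') :
    Disjoint Z Z' ∧ ¬ Tch G Z Z' := by
  have hd : Disjoint Z Z' := by
    rw [Set.disjoint_iff_inter_eq_empty, ← Set.not_nonempty_iff_eq_empty]
    intro hm
    exact hne (Set.Subset.antisymm (comp_subset h h' hm) (comp_subset h' h (by rwa [Set.inter_comm])))
  refine ⟨hd, ?_⟩
  rintro ⟨a, ha, b, hb, hab⟩
  exact h.2.2 b (h'.1 hb) ⟨fun h1 => Set.disjoint_left.1 hd h1 hb, a, ha, hab⟩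

/-- a system of `r` components with two private neighbours each -/
def Sys (G : SimpleGraph V) (X : Set V) (r : ℕ) (Z : ℕ → Set V) (R : ℕ → V) : Prop :=
  (∀ i < r, IsComp G X (Z i) ∧ R (2 * i) ∈ nb G (Z i) ∧ R (2 * i + 1) ∈ nb G (Z i)) ∧
    (∀ k < 2 * r, ∀ l < 2 * r, R k = R l → k = l) ∧ ∀ i < r, ∀ j < r, Z i = Z j → i = j

/-- the root `R k` is a neighbour of the component with the number `k / 2` -/
theorem Sys.root {r : ℕ} {Z : ℕ → Set V} {R : ℕ → V} (h : Sys G X r Z R) {k : ℕ} (hk : k < 2 * r) :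
    R k ∈ nb G (Z (k / 2)) := by
  have h1 := h.1 (k / 2) (by omega)
  rcases Nat.mod_two_eq_zero_or_one k with h2 | h2
  · have h3 : 2 * (k / 2) = k := by omega
    have h4 := h1.2.1
    rwa [h3] at h4
  · have h3 : 2 * (k / 2) + 1 = k := by omega
    have h4 := h1.2.2
    rwa [h3] at h4

/-- an enumeration of a finite set of natural numbers -/
theorem enum (T : Finset ℕ) (m : ℕ) (h : T.card = m) :
    ∃ e : ℕ → ℕ, (∀ i < m, e i ∈ T) ∧ ∀ i < m, ∀ j < m, e i = e j → i = j := by
  refine ⟨fun i => if hi : i < m then T.orderEmbOfFin h ⟨i, hi⟩ else 0, fun i hi => ?_, fun i hi j hj hij => ?_⟩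
  · simp only [dif_pos hi]
    exact Finset.orderEmbOfFin_mem T h _
  · simp only [dif_pos hi, dif_pos hj] at hij
    have h1 := (T.orderEmbOfFin h).injective hij
    have h2 := Fin.ext_iff.1 h1
    exact h2

/-- subsystem with private roots -/
theorem private_sys [Finite V] (hDig : S_Dig) {s m : ℕ} {Z : ℕ → Set V} {R : ℕ → V}
    (hS : Sys G X ((2 * s + 1) * m) Z R)
    (hnb : ∀ Z, IsComp G X Z → (nb G Z).ncard < s) :
    ∃ (Z' : ℕ → Set V) (R' : ℕ → V), Sys G X m Z' R' ∧ ∀ i < m, ∀ k < 2 * m, R' k ∈ nb G (Z' i) → k / 2 = i := by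
  classical
  obtain ⟨n, hn⟩ : ∃ n, n = (2 * s + 1) * m := ⟨_, rfl⟩
  rw [← hn] at hS
  obtain ⟨T, hT, hTc, hTE⟩ := hDig ℕ (Finset.range n)
    (fun i j => R (2 * j) ∈ nb G (Z i) ∨ R (2 * j + 1) ∈ nb G (Z i)) s m (by
      intro i hi
      rw [Finset.mem_range] at hi
      refine ⟨(Finset.range n).filter (fun j => R (2 * j) ∈ nb G (Z i) ∨ R (2 * j + 1) ∈ nb G (Z i)), ?_, ?_⟩
      · have h1 := hnb (Z i) (hS.1 i hi).1
        have h2 : (((Finset.range n).filter
            (fun j => R (2 * j) ∈ nb G (Z i) ∨ R (2 * j + 1) ∈ nb G (Z i)) : Finset ℕ) : Set ℕ).ncard ≤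
            (nb G (Z i)).ncard := by
          apply Set.ncard_le_ncard_of_injOn
            (fun j => if R (2 * j) ∈ nb G (Z i) then R (2 * j) else R (2 * j + 1))
          · intro j hj
            rw [Finset.mem_coe, Finset.mem_filter] at hj
            split_ifs with h3
            · exact h3
            · exact hj.2.resolve_left h3
          · intro j hj j' hj' hjj
            rw [Finset.mem_coe, Finset.mem_filter, Finset.mem_range] at hj hj'
            simp only at hjj
            split_ifs at hjj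
            · have := hS.2.1 _ (by omega) _ (by omega) hjj
              omega
            · have := hS.2.1 _ (by omega) _ (by omega) hjj
              omega
            · have := hS.2.1 _ (by omega) _ (by omega) hjj
              omega
            · have := hS.2.1 _ (by omega) _ (by omega) hjj
              omega
        rw [Set.ncard_coe_finset] at h2
        omega
      · intro j hj _ hE
        exact Finset.mem_filter.2 ⟨hj, hE⟩) (by rw [Finset.card_range, hn])
  obtain ⟨e, he, hei⟩ := enum T m hTc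
  have hen : ∀ i < m, e i < n := fun i hi => Finset.mem_range.1 (hT (he i hi))
  have hmod : ∀ k, k % 2 < 2 := fun k => Nat.mod_lt k (by norm_num)
  refine ⟨fun i => Z (e i), fun k => R (2 * e (k / 2) + k % 2), ⟨fun i hi => ?_, fun k hk l hl hkl => ?_,
    fun i hi j hj hij => ?_⟩, fun i hi k hk hmem => ?_⟩
  · have h1 := hS.1 (e i) (hen i hi)
    have e1 : 2 * i / 2 = i := by omega
    have e2 : 2 * i % 2 = 0 := by omega
    have e3 : (2 * i + 1) / 2 = i := by omega
    have e4 : (2 * i + 1) % 2 = 1 := by omega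
    simp only [e1, e2, e3, e4, add_zero]
    exact h1
  · simp only at hkl
    have h1 := hen (k / 2) (by omega)
    have h2 := hen (l / 2) (by omega)
    have h3 := hmod k
    have h4 := hmod l
    have h5 := hS.2.1 _ (by omega) _ (by omega) hkl
    have h6 : e (k / 2) = e (l / 2) := by omega
    have h7 := hei _ (by omega) _ (by omega) h6
    omega
  · exact hei i hi j hj (hS.2.2 _ (hen i hi) _ (hen j hj) hij)
  · simp only at hmem
    by_contra hc
    have h1 := hTE (e i) (he i hi) (e (k / 2)) (he _ (by omega)) (by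
      intro h2
      exact hc (hei _ hi _ (by omega) h2).symm)
    apply h1
    rcases Nat.mod_two_eq_zero_or_one k with h2 | h2
    · rw [h2, add_zero] at hmem
      exact Or.inl hmem
    · rw [h2] at hmem
      exact Or.inr hmem

/-- a private system gives `DD N m` -/
theorem detect [Finite V] (hA3 : S_A3c) (hDD : S_DDd) {s N m : ℕ} {I : Finset ℕ} {B : ℕ → Set V}
    {Z : ℕ → Set V} {R : ℕ → V} (hM : Mdl G I B) (hcard : 2 * s * m + 6 * m + N + 2 ≤ I.card)
    (hS : Sys G (Lg G I B)ᶜ m Z R) (hpriv : ∀ i < m, ∀ k < 2 * m, R k ∈ nb G (Z i) → k / 2 = i)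
    (hht : ∀ i < m, (hitI I B (Z i)).card + (tchI G I B (Z i)).card ≤ 2 * s)
    (hL : ∀ k < 2 * m, R k ∈ Lg G I B) : IMS (DD N m) G Set.univ := by
  classical
  obtain ⟨J, hJ⟩ : ∃ J, J = I.filter (fun j => (∀ i < m, j ∈ misI G I B (Z i)) ∧ ∀ k < 2 * m, R k ∉ B j) :=
    ⟨_, rfl⟩
  have hmJ : ∀ j, j ∈ J ↔ j ∈ I ∧ (∀ i < m, j ∈ misI G I B (Z i)) ∧ ∀ k < 2 * m, R k ∉ B j := by
    intro j
    rw [hJ, Finset.mem_filter]
  have hJI : J ⊆ I := fun j hj => ((hmJ j).1 hj).1
  -- the size of `J`
  have hsz : (I \ J).card ≤ 2 * s * m + 2 * m := by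
    have h1 : I \ J ⊆ ((Finset.range m).biUnion fun i => hitI I B (Z i) ∪ tchI G I B (Z i)) ∪
        (Finset.range (2 * m)).biUnion fun k => hitI I B {R k} := by
      intro j hj
      rw [Finset.mem_sdiff, hmJ j] at hj
      obtain ⟨hjI, hj⟩ := hj
      rw [Finset.mem_union, Finset.mem_biUnion, Finset.mem_biUnion]
      by_contra hcon
      push Not at hcon
      apply hj
      refine ⟨hjI, fun i hi => ?_, fun k hk hR => ?_⟩
      · have h2 := hcon.1 i (Finset.mem_range.2 hi)
        rw [Finset.mem_union, mem_hitI, mem_tchI] at h2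
        rw [mem_misI]
        tauto
      · apply hcon.2 k (Finset.mem_range.2 hk)
        rw [mem_hitI, Set.disjoint_singleton_right, not_not]
        exact ⟨hjI, hR⟩
    have h2 : ((Finset.range m).biUnion fun i => hitI I B (Z i) ∪ tchI G I B (Z i)).card ≤
        m * (2 * s) := by
      have h3 := Finset.card_biUnion_le_card_mul (Finset.range m)
        (fun i => hitI I B (Z i) ∪ tchI G I B (Z i)) (2 * s) (by
          intro i hi
          exact (Finset.card_union_le _ _).trans (hht i (Finset.mem_range.1 hi)))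
      rwa [Finset.card_range] at h3
    have h4 : ((Finset.range (2 * m)).biUnion fun k => hitI I B {R k}).card ≤ 2 * m * 1 := by
      have h3 := Finset.card_biUnion_le_card_mul (Finset.range (2 * m))
        (fun k => hitI I B {R k}) 1 (by
          intro k _
          exact hitI_single_le (fun i hi j hj hij => (hM.2 i hi j hj hij).1) (R k))
      rwa [Finset.card_range] at h3
    have h5 := (Finset.card_le_card h1).trans (Finset.card_union_le _ _)
    have h6 : m * (2 * s) = 2 * s * m := by ring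
    omega
  have hJc : 4 * m + N + 2 ≤ J.card := by
    have h1 := Finset.card_sdiff_add_card_eq_card hJI
    omega
  obtain ⟨π, hπ, hπi, E, hE, hEc, hπE⟩ := hA3 (2 * m) 2 (N + 2 * m) J (fun k => misI G I B {R k})
    (fun k hk => hL k hk) (by omega)
  -- the new model
  obtain ⟨B', hB'⟩ : ∃ B' : ℕ → Set V, B' = fun j => B j ∪ {v | ∃ k < 2 * m, π k = j ∧ v = R k} := ⟨_, rfl⟩
  obtain ⟨I', hI'⟩ : ∃ I', I' = (Finset.range (2 * m)).image π ∪ E := ⟨_, rfl⟩
  have hmI' : ∀ j, j ∈ I' ↔ (∃ k < 2 * m, π k = j) ∨ j ∈ E := by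
    intro j
    rw [hI', Finset.mem_union, Finset.mem_image]
    simp only [Finset.mem_range]
  have hI'J : ∀ j ∈ I', j ∈ J := by
    intro j hj
    rcases (hmI' j).1 hj with ⟨k, hk, rfl⟩ | hj
    · exact (hπ k hk).1
    · exact hE hj
  have hmB' : ∀ j v, v ∈ B' j ↔ v ∈ B j ∨ ∃ k < 2 * m, π k = j ∧ v = R k := by
    intro j v
    rw [hB']
    rfl
  have hBB' : ∀ j, B j ⊆ B' j := by
    intro j v hv
    exact (hmB' j v).2 (Or.inl hv)
  have hmod : Mdl G I' B' := by
    constructor
    · intro j hj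
      rcases (hmI' j).1 hj with ⟨k, hk, rfl⟩ | hjE
      · have h1 : B' (π k) = insert (R k) (B (π k)) := by
          ext v
          rw [hmB', Set.mem_insert_iff]
          constructor
          · rintro (h | ⟨k', hk', he, rfl⟩)
            · exact Or.inr h
            · rw [hπi k' hk' k hk he]
              exact Or.inl rfl
          · rintro (rfl | h)
            · exact Or.inr ⟨k, hk, rfl, rfl⟩
            · exact Or.inl h
        rw [h1]
        have h2 := (hmJ (π k)).1 (hπ k hk).1
        apply (hM.1 _ h2.1).insert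
        have h3 := (hπ k hk).2
        rw [mem_misI, Set.disjoint_singleton_right] at h3
        have h4 : Tch G {R k} (B (π k)) := by
          by_contra h5
          exact h3 ⟨h2.1, h2.2.2 k hk, h5⟩
        obtain ⟨a, ha, b, hb, hab⟩ := h4
        rw [Set.mem_singleton_iff] at ha
        rw [ha] at hab
        exact ⟨b, hb, hab.symm⟩
      · have h1 : B' j = B j := by
          ext v
          rw [hmB']
          constructor
          · rintro (h | ⟨k', hk', he, _⟩)
            · exact h
            · exact absurd (by rw [he]; exact hjE) (hπE k' hk')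
          · exact Or.inl
        rw [h1]
        exact hM.1 j (hJI (hE hjE))
    · intro i hi j hj hij
      have hiJ := (hmJ i).1 (hI'J i hi)
      have hjJ := (hmJ j).1 (hI'J j hj)
      have h1 := hM.2 i hiJ.1 j hjJ.1 hij
      refine ⟨?_, h1.2.mono (hBB' i) (hBB' j)⟩
      rw [Set.disjoint_left]
      intro v hv hv'
      rcases (hmB' i v).1 hv with h2 | ⟨k, hk, hki, hvk⟩
      · rcases (hmB' j v).1 hv' with h3 | ⟨l, hl, hlj, hvl⟩
        · exact Set.disjoint_left.1 h1.1 h2 h3
        · rw [hvl] at h2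
          exact hiJ.2.2 l hl h2
      · rcases (hmB' j v).1 hv' with h3 | ⟨l, hl, hlj, hvl⟩
        · rw [hvk] at h3
          exact hjJ.2.2 k hk h3
        · have h4 := hS.2.1 k hk l hl (hvk.symm.trans hvl)
          rw [h4] at hki
          exact hij (hki.symm.trans hlj)
  have hZB : ∀ q < m, ∀ i ∈ I', Disjoint (Z q) (B i) ∧ ¬ Tch G (Z q) (B i) := by
    intro q hq i hi
    have h1 := ((hmJ i).1 (hI'J i hi)).2.1 q hq
    rw [mem_misI] at h1
    exact ⟨h1.2.1.symm, h1.2.2⟩
  have hRZ : ∀ q < m, ∀ k < 2 * m, R k ∉ Z q := by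
    intro q hq k hk h
    exact (hS.1 q hq).1.1 h (hL k hk)
  apply hDD V G N m I' B' Z (fun q => π (2 * q)) (fun q => π (2 * q + 1)) hmod
  · have h1 : E ⊆ I' := fun j hj => (hmI' j).2 (Or.inr hj)
    have := Finset.card_le_card h1
    omega
  · intro q hq
    exact ⟨(hS.1 q hq).1.2.1, (hmI' _).2 (Or.inl ⟨2 * q, by omega, rfl⟩),
      (hmI' _).2 (Or.inl ⟨2 * q + 1, by omega, rfl⟩)⟩
  · intro q hq i hi
    constructor
    · rw [Set.disjoint_left]
      intro v hv hv'
      rcases (hmB' i v).1 hv' with h2 | ⟨k, hk, hki, hvk⟩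
      · exact Set.disjoint_left.1 (hZB q hq i hi).1 hv h2
      · rw [hvk] at hv
        exact hRZ q hq k hk hv
    · constructor
      · rintro ⟨a, ha, b, hb, hab⟩
        rcases (hmB' i b).1 hb with h2 | ⟨k, hk, hki, hvk⟩
        · exact absurd ⟨a, ha, b, h2, hab⟩ (hZB q hq i hi).2
        · rw [hvk] at hab
          have h3 := hpriv q hq k hk ⟨hRZ q hq k hk, a, ha, hab⟩
          have h4 : k = 2 * q ∨ k = 2 * q + 1 := by omega
          rcases h4 with h4 | h4
          · left
            rw [← hki, h4]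
          · right
            rw [← hki, h4]
      · rintro (rfl | rfl)
        · obtain ⟨_, a, ha, hab⟩ := (hS.1 q hq).2.1
          exact ⟨a, ha, R (2 * q), (hmB' _ _).2 (Or.inr ⟨2 * q, by omega, rfl, rfl⟩), hab⟩
        · obtain ⟨_, a, ha, hab⟩ := (hS.1 q hq).2.2
          exact ⟨a, ha, R (2 * q + 1), (hmB' _ _).2 (Or.inr ⟨2 * q + 1, by omega, rfl, rfl⟩), hab⟩
  · intro q hq q' hq' hqq
    exact comp_disj (hS.1 q hq).1 (hS.1 q' hq').1 (fun h => hqq (hS.2.2 q hq q' hq' h))
  · intro q hq q' hq' h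
    have := hπi _ (by omega) _ (by omega) h
    omega
  · intro q hq q' hq' h
    have := hπi _ (by omega) _ (by omega) h
    omega
  · intro q hq q' hq' h
    have := hπi _ (by omega) _ (by omega) h
    omega

/-- the size of a union of small sets -/
theorem ncard_union_le [Finite V] (f : ℕ → Set V) (s : ℕ) : ∀ r, (∀ i < r, (f i).ncard ≤ s) →
    {v | ∃ i < r, v ∈ f i}.ncard ≤ r * s := by
  intro r
  induction r with
  | zero =>
    intro _
    have h1 : {v | ∃ i < 0, v ∈ f i} = ∅ := by
      ext v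
      simp
    rw [h1]
    simp
  | succ r ih =>
    intro h
    have h1 : {v | ∃ i < r + 1, v ∈ f i} = {v | ∃ i < r, v ∈ f i} ∪ f r := by
      ext v
      rw [Set.mem_union, Set.mem_setOf_eq, Set.mem_setOf_eq]
      constructor
      · rintro ⟨i, hi, hv⟩
        rcases Nat.lt_succ_iff_lt_or_eq.1 hi with h2 | h2
        · exact Or.inl ⟨i, h2, hv⟩
        · rw [h2] at hv
          exact Or.inr hv
      · rintro (⟨i, hi, hv⟩ | hv)
        · exact ⟨i, by omega, hv⟩
        · exact ⟨r, by omega, hv⟩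
    rw [h1]
    have h2 := Set.ncard_union_le {v | ∃ i < r, v ∈ f i} (f r)
    have h3 := ih (fun i hi => h i (by omega))
    have h4 := h r (by omega)
    have h5 : (r + 1) * s = r * s + s := by ring
    omega

end lvB5Aux

open lvB5Aux in
theorem lvB5 : S_B5c := by
  classical
  intro hB1 hB3 hB4 hA3 hDig hDD V _ G s N m I B hKC hDDn hM hI1 hI2
  rcases Nat.eq_zero_or_pos s with hs | hs
  · refine ⟨∅, Set.empty_subset _, by simp, fun Z hZ => ?_⟩
    exfalso
    obtain ⟨v, hv⟩ := hZ.2.1.1
    have h1 := hB1 V G s I B {v} hKC hM (Conn.singleton G v)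
    rw [hs] at h1
    rcases h1 with h1 | h1
    · omega
    · exact hZ.1 hv h1
  obtain ⟨n, hn⟩ : ∃ n, n = (2 * s + 1) * m := ⟨_, rfl⟩
  have hnbL : ∀ Z, IsComp G (Lg G I B)ᶜ Z → nb G Z ⊆ Lg G I B := by
    intro Z hZ u hu
    by_contra h
    exact hZ.2.2 u h hu
  have hdis : ∀ Z, IsComp G (Lg G I B)ᶜ Z → Disjoint Z (Lg G I B) := by
    intro Z hZ
    rw [Set.disjoint_left]
    exact fun v hv => hZ.1 hv
  have hnb : ∀ Z, IsComp G (Lg G I B)ᶜ Z → (nb G Z).ncard < s := by
    intro Z hZ
    have h1 := hB4 V G s I B Z hKC hM hI1 hZ.2.1 (hdis Z hZ)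
    rw [Set.inter_eq_left.2 (hnbL Z hZ)] at h1
    rcases h1 with h1 | h1
    · exact h1
    · omega
  -- no system with `n` components
  have hno : ∀ Z R, ¬ Sys G (Lg G I B)ᶜ n Z R := by
    intro Z R hS
    rw [hn] at hS
    obtain ⟨Z', R', hS', hpriv⟩ := private_sys hDig hS hnb
    apply hDDn
    apply detect hA3 hDD hM hI2 hS' hpriv
    · intro i hi
      exact hB3 V G s I B (Z' i) hKC hM hI1 (hS'.1 i hi).1.2.1 (hdis _ (hS'.1 i hi).1)
    · intro k hk
      exact hnbL _ (hS'.1 (k / 2) (by omega)).1 (hS'.root hk)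
  -- a maximal system
  obtain ⟨r, hr, Z, R, hS, hmax⟩ : ∃ r < n, ∃ Z R, Sys G (Lg G I B)ᶜ r Z R ∧
      ∀ Z' R', ¬ Sys G (Lg G I B)ᶜ (r + 1) Z' R' := by
    by_contra hcon
    push Not at hcon
    have h : ∀ r, r ≤ n → ∃ Z R, Sys G (Lg G I B)ᶜ r Z R := by
      intro r
      induction r with
      | zero =>
        intro _
        rcases isEmpty_or_nonempty V with hV | ⟨⟨v⟩⟩
        · exfalso
          obtain ⟨i, hi⟩ : I.Nonempty := by
            rw [← Finset.card_pos]
            omega
          obtain ⟨v, _⟩ := (hM.1 i hi).1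
          exact hV.elim v
        · exact ⟨fun _ => ∅, fun _ => v, fun i hi => by omega, fun k hk => by omega, fun i hi => by omega⟩
      | succ r ih =>
        intro hr
        obtain ⟨Z, R, hS⟩ := ih (by omega)
        exact hcon r (by omega) Z R hS
    obtain ⟨Z, R, hS⟩ := h n (le_refl _)
    exact hno Z R hS
  refine ⟨{v | ∃ i < r, v ∈ nb G (Z i)}, ?_, ?_, ?_⟩
  · rintro v ⟨i, hi, hv⟩
    exact hnbL _ (hS.1 i hi).1 hv
  · have h1 := ncard_union_le (fun i => nb G (Z i)) s r (fun i hi => (hnb _ (hS.1 i hi).1).le)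
    refine h1.trans ?_
    rw [← hn, mul_comm]
    exact Nat.mul_le_mul_left s hr.le
  · intro Y hY
    by_contra hcon
    have h1 : 1 < (nb G Y \ {v | ∃ i < r, v ∈ nb G (Z i)}).ncard := by omega
    rw [Set.one_lt_ncard (Set.toFinite _)] at h1
    obtain ⟨x, hx, y, hy, hxy⟩ := h1
    have hRT : ∀ k < 2 * r, R k ∈ {v | ∃ i < r, v ∈ nb G (Z i)} :=
      fun k hk => ⟨k / 2, by omega, hS.root hk⟩
    have hxR : ∀ k < 2 * r, x ≠ R k := by
      intro k hk h
      exact hx.2 (by rw [h]; exact hRT k hk)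
    have hyR : ∀ k < 2 * r, y ≠ R k := by
      intro k hk h
      exact hy.2 (by rw [h]; exact hRT k hk)
    have hYZ : ∀ i < r, Y ≠ Z i := by
      intro i hi h
      apply hx.2
      refine ⟨i, hi, ?_⟩
      rw [← h]
      exact hx.1
    refine hmax (fun i => if i = r then Y else Z i)
      (fun k => if k = 2 * r then x else if k = 2 * r + 1 then y else R k)
      ⟨fun i hi => ?_, fun k hk l hl hkl => ?_, fun i hi j hj hij => ?_⟩
    · by_cases h2 : i = r
      · simp only [h2, if_true]
        rw [if_neg (by omega)]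
        exact ⟨hY, hx.1, hy.1⟩
      · simp only [if_neg h2]
        rw [if_neg (by omega), if_neg (by omega), if_neg (by omega), if_neg (by omega)]
        exact hS.1 i (by omega)
    · simp only at hkl
      split_ifs at hkl with h2 h3 h3 h4 h5 h5 h6
      · omega
      · exact absurd hkl hxy
      · exact absurd hkl (hxR l (by omega))
      · exact absurd hkl.symm hxy
      · omega
      · exact absurd hkl (hyR l (by omega))
      · exact absurd hkl.symm (hxR k (by omega))
      · exact absurd hkl.symm (hyR k (by omega))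
      · exact hS.2.1 k (by omega) l (by omega) hkl
    · simp only at hij
      split_ifs at hij with h2 h3 h3
      · omega
      · exact absurd hij (hYZ j (by omega))
      · exact absurd hij.symm (hYZ i (by omega))
      · exact hS.2.2 i (by omega) j (by omega) hij

end Pool.Agent.MPd439b2
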