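import Pool.Agent.Lib.MP_d439b2_co.LV.Spec

set_option autoImplicit false

namespace Pool.Agent.MPd439b2

theorem lvB6 : S_B6c := by
  classical
  intro hA2 V G s h I B v X x hU hM hv hX hXX hh hle
  apply hU
  set bad : Finset ℕ := hitI I B (X 0 ∪ X 1 ∪ X 2) ∪ (hitI I B {v} ∪ (misI G I B {v} ∪
    (misI G I B {x 0} ∪ (misI G I B {x 1} ∪ misI G I B {x 2})))) with hbad
  have hx : ∀ a < 3, (misI G I B {x a}).card ≤ 2 := fun a ha => (hX a ha).2.2.2.2
  have hb : bad.card ≤ h + 9 := by
    have e1 := Finset.card_union_le (hitI I B (X 0 ∪ X 1 ∪ X 2)) (hitI I B {v} ∪ (misI G I B {v} ∪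
      (misI G I B {x 0} ∪ (misI G I B {x 1} ∪ misI G I B {x 2}))))
    have e2 := Finset.card_union_le (hitI I B {v}) (misI G I B {v} ∪
      (misI G I B {x 0} ∪ (misI G I B {x 1} ∪ misI G I B {x 2})))
    have e3 := Finset.card_union_le (misI G I B {v})
      (misI G I B {x 0} ∪ (misI G I B {x 1} ∪ misI G I B {x 2}))
    have e4 := Finset.card_union_le (misI G I B {x 0}) (misI G I B {x 1} ∪ misI G I B {x 2})
    have e5 := Finset.card_union_le (misI G I B {x 1}) (misI G I B {x 2})
    have f1 := hitI_single_le (B := B) (I := I) (fun i hi j hj hij => (hM.2 i hi j hj hij).1) v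
    have f2 : (misI G I B {v}).card ≤ 2 := hv
    have f3 := hx 0 (by norm_num)
    have f4 := hx 1 (by norm_num)
    have f5 := hx 2 (by norm_num)
    rw [hbad]
    omega
  have hJ : s ≤ (I \ bad).card := by
    have := Finset.le_card_sdiff bad I
    omega
  refine hA2 V G s I (I \ bad) B {v} X hM Finset.sdiff_subset hJ (Conn.singleton G v) ?_ hXX ?_
  · intro a ha
    obtain ⟨h1, h2, h3, -, -⟩ := hX a ha
    exact ⟨h1, Set.disjoint_singleton_left.mpr h2, h3⟩
  · intro j hj
    obtain ⟨hjI, hjb⟩ := Finset.mem_sdiff.mp hj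
    rw [hbad] at hjb
    simp only [Finset.mem_union, not_or, mem_hitI, mem_misI, not_and, not_not] at hjb
    obtain ⟨b1, b2, b3, b4, b5, b6⟩ := hjb
    have d0 := b1 hjI
    have dv := b2 hjI
    have tv := b3 hjI dv
    have dX : ∀ a < 3, Disjoint (B j) (X a) := by
      intro a ha
      refine d0.mono_right ?_
      interval_cases a
      · exact fun u hu => Or.inl (Or.inl hu)
      · exact fun u hu => Or.inl (Or.inr hu)
      · exact fun u hu => Or.inr hu
    have tX : ∀ a < 3, Tch G {x a} (B j) := by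
      intro a ha
      have hd : Disjoint (B j) {x a} := (dX a ha).mono_right (Set.singleton_subset_iff.mpr (hX a ha).2.2.2.1)
      interval_cases a
      · exact b4 hjI hd
      · exact b5 hjI hd
      · exact b6 hjI hd
    refine ⟨dv, tv, fun a ha => ⟨dX a ha, ?_⟩⟩
    exact (tX a ha).mono (Set.singleton_subset_iff.mpr (hX a ha).2.2.2.1) (Set.Subset.refl _)

end Pool.Agent.MPd439b2
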