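import Pool.Agent.Lib.MP_d439b2_co.LV.Spec

/-!
# MP_d439b2_co, LV, module B8: an independent set of large vertices and few more large vertices
-/

set_option autoImplicit false

namespace Pool.Agent.MPd439b2

namespace lvB8Aux

/-- the successor modulo `l` -/
def nx (l i : ℕ) : ℕ := if i + 1 < l then i + 1 else 0

theorem nx_lt {l i : ℕ} (hl : 3 ≤ l) : nx l i < l := by
  unfold nx
  split_ifs <;> omega

theorem nx_inj {l i j : ℕ} (hi : i < l) (hj : j < l) (h : nx l i = nx l j) : i = j := by
  unfold nx at h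
  split_ifs at h <;> omega

theorem short {V : Type} [Finite V] (G : SimpleGraph V) (e l : ℕ) (z : ℕ → V) (C E : Set V) (hl : 3 ≤ l)
    (hz : ∀ i < l, z i ∈ C ∪ E) (hinj : ∀ i < l, ∀ j < l, z i = z j → i = j)
    (hadj : ∀ i, i + 1 < l → G.Adj (z i) (z (i + 1))) (hlast : G.Adj (z (l - 1)) (z 0))
    (hC : ∀ a ∈ C, ∀ b ∈ C, ¬ G.Adj a b) (hE : E.ncard ≤ e) : l ≤ 2 * e := by
  classical
  have hnx : ∀ i < l, G.Adj (z i) (z (nx l i)) := by
    intro i hi
    unfold nx
    split_ifs with h
    · exact hadj i h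
    · have : i = l - 1 := by omega
      rw [this]
      exact hlast
  let SC : Finset ℕ := (Finset.range l).filter fun i => z i ∈ C
  let SE : Finset ℕ := (Finset.range l).filter fun i => ¬ z i ∈ C
  have hsum : SC.card + SE.card = l := by
    have := Finset.card_filter_add_card_filter_not (s := Finset.range l) (fun i => z i ∈ C)
    rw [Finset.card_range] at this
    exact this
  have h1 : SC.card ≤ SE.card := by
    refine Finset.card_le_card_of_injOn (nx l) ?_ ?_
    · intro i hi
      have hi' := Finset.mem_filter.1 (Finset.mem_coe.1 hi)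
      have hil := Finset.mem_range.1 hi'.1
      refine Finset.mem_coe.2 (Finset.mem_filter.2 ⟨Finset.mem_range.2 (nx_lt hl), ?_⟩)
      intro h
      exact hC _ hi'.2 _ h (hnx i hil)
    · intro i hi j hj h
      have hi' := Finset.mem_range.1 (Finset.mem_filter.1 (Finset.mem_coe.1 hi)).1
      have hj' := Finset.mem_range.1 (Finset.mem_filter.1 (Finset.mem_coe.1 hj)).1
      exact nx_inj hi' hj' h
  have h2 : SE.card ≤ E.ncard := by
    have hsub : z '' (SE : Set ℕ) ⊆ E := by
      rintro _ ⟨i, hi, rfl⟩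
      have hi' := Finset.mem_filter.1 (Finset.mem_coe.1 hi)
      exact (hz i (Finset.mem_range.1 hi'.1)).resolve_left hi'.2
    have hcard : (z '' (SE : Set ℕ)).ncard = SE.card := by
      rw [Set.ncard_image_of_injOn, Set.ncard_coe_finset]
      intro i hi j hj h
      have hi' := Finset.mem_range.1 (Finset.mem_filter.1 (Finset.mem_coe.1 hi)).1
      have hj' := Finset.mem_range.1 (Finset.mem_filter.1 (Finset.mem_coe.1 hj)).1
      exact hinj i hi' j hj' h
    rw [← hcard]
    exact Set.ncard_le_ncard hsub (Set.toFinite _)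
  omega

end lvB8Aux

theorem lvB8 : S_B8c := by
  intro h7 hK V _ G s e I B C E hno hM hCL hEL hE hC hI v hv Y hY hne
  by_contra hcon
  push Not at hcon
  have hdeg : ∀ y ∈ Y, 2 ≤ {w | w ∈ Y ∧ G.Adj y w}.ncard := by
    intro y hy
    have h := hcon y hy
    have e1 : {w | w ∈ Y ∧ w ≠ y ∧ ¬ Gᶜ.Adj y w} = {w | w ∈ Y ∧ G.Adj y w} := by
      ext w
      simp only [Set.mem_setOf_eq, SimpleGraph.compl_adj]
      constructor
      · rintro ⟨a, b, c⟩
        refine ⟨a, ?_⟩
        by_contra hn
        exact c ⟨b.symm, hn⟩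
      · rintro ⟨a, b⟩
        exact ⟨a, b.ne', fun hh => hh.2 b⟩
    rw [e1] at h
    exact h
  obtain ⟨l, z, hl, hz, hinj, hadj, hlast⟩ := hK V G Y hne hdeg
  have hzC : ∀ i < l, z i ∈ C ∪ E := fun i hi => (hY (hz i hi)).1
  have hle := lvB8Aux.short G e l z C E hl hzC hinj hadj hlast hC hE
  have hL : ∀ i < l, z i ∈ Lg G I B ∧ z i ≠ v ∧ ¬ G.Adj v (z i) := by
    intro i hi
    have h := hY (hz i hi)
    refine ⟨?_, ?_, ?_⟩
    · rcases h.1 with h1 | h1
      · exact hCL h1
      · exact hEL h1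
    · exact h.2.ne'
    · exact ((SimpleGraph.compl_adj _ _ _).1 h.2).2
  have hvL : v ∈ Lg G I B := by
    rcases hv with h1 | h1
    · exact hCL h1
    · exact hEL h1
  have := h7 V G s I B v l z hno hM hvL hl hL hinj hadj hlast
  omega

end Pool.Agent.MPd439b2
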