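import Pool.Agent.Lib.MP_d439b2_co.LV.Spec

set_option autoImplicit false

namespace Pool.Agent.MPd439b2

namespace lvB9Aux

variable {V : Type} {G : SimpleGraph V} {I : Finset ℕ} {B : ℕ → Set V}

/-- disjoint sets meeting `S` -/
theorem hit_le [Finite V] (hd : ∀ i ∈ I, ∀ j ∈ I, i ≠ j → Disjoint (B i) (B j)) (S : Set V)
    (J : Finset ℕ) (hJI : J ⊆ I) (hJ : ∀ j ∈ J, ∃ x ∈ B j, x ∈ S) : J.card ≤ S.ncard := by
  classical
  let g : V → ℕ := fun x => if h : ∃ j, j ∈ J ∧ x ∈ B j then h.choose else 0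
  have hg : (J : Set ℕ) ⊆ g '' S := by
    intro j hj
    have hj' : j ∈ J := hj
    obtain ⟨x, hx, hxS⟩ := hJ j hj'
    refine ⟨x, hxS, ?_⟩
    have h : ∃ j, j ∈ J ∧ x ∈ B j := ⟨j, hj', hx⟩
    have h1 : g x = h.choose := dif_pos h
    rw [h1]
    by_contra hne
    have h2 := h.choose_spec
    exact Set.disjoint_left.1 (hd _ (hJI h2.1) j (hJI hj') hne) h2.2 hx
  calc J.card = (J : Set ℕ).ncard := (Set.ncard_coe_finset J).symm
    _ ≤ (g '' S).ncard := Set.ncard_le_ncard hg (Set.toFinite _)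
    _ ≤ S.ncard := Set.ncard_image_le (Set.toFinite _)

/-- a minimal connected set meeting two of the three sets meets exactly two -/
theorem exists_K [Finite V] (hgr : S_Grow) (C : Set V) (N : Fin 3 → Set V) (hC : Conn G C)
    (hN : ∀ i, (C ∩ N i).Nonempty) (hd : ∀ i j, i ≠ j → ∀ x, x ∈ N i → x ∉ N j) :
    ∃ (c : Fin 3) (K : Set V), K ⊆ C ∧ Conn G K ∧ (∀ a, a ≠ c → (K ∩ N a).Nonempty) ∧
      ∀ x ∈ K, x ∉ N c := by
  classical
  let p : ℕ → Prop := fun n => ∃ K : Set V, K ⊆ C ∧ Conn G K ∧ K.ncard = n ∧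
    ∃ a b : Fin 3, a ≠ b ∧ (K ∩ N a).Nonempty ∧ (K ∩ N b).Nonempty
  have hex : ∃ n, p n := ⟨C.ncard, C, subset_rfl, hC, rfl, 0, 1, by decide, hN 0, hN 1⟩
  obtain ⟨K, hKC, hK, hKn, a, b, hab, ha, hb⟩ := Nat.find_spec hex
  have hmin : ∀ K' : Set V, K' ⊆ C → Conn G K' → K'.ncard < K.ncard →
      ¬ ∃ a b : Fin 3, a ≠ b ∧ (K' ∩ N a).Nonempty ∧ (K' ∩ N b).Nonempty := by
    intro K' h1 h2 h3 h4
    rw [hKn] at h3
    exact Nat.find_min hex h3 ⟨K', h1, h2, rfl, h4⟩
  have hc : ∃ c, ¬ (K ∩ N c).Nonempty := by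
    by_contra hcon
    push Not at hcon
    obtain ⟨y0, hy0, hy0'⟩ := hcon 0
    obtain ⟨y1, hy1, hy1'⟩ := hcon 1
    obtain ⟨y2, hy2, hy2'⟩ := hcon 2
    have e01 : y0 ≠ y1 := by
      rintro rfl
      exact hd 0 1 (by decide) _ hy0' hy1'
    have e02 : y0 ≠ y2 := by
      rintro rfl
      exact hd 0 2 (by decide) _ hy0' hy2'
    have e12 : y1 ≠ y2 := by
      rintro rfl
      exact hd 1 2 (by decide) _ hy1' hy2'
    obtain ⟨x, hx, hxu, hxc⟩ := (hgr V G K y0 hK hy0).1 (by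
      intro h
      rw [h] at hy1
      exact e01 (Set.mem_singleton_iff.1 hy1).symm)
    have hlt : (K \ {x}).ncard < K.ncard := by
      apply Set.ncard_lt_ncard _ (Set.toFinite _)
      refine ⟨Set.sdiff_subset, fun h => (h hx).2 rfl⟩
    apply hmin (K \ {x}) (Set.sdiff_subset.trans hKC) hxc hlt
    by_cases h1 : y1 = x
    · refine ⟨0, 2, by decide, ⟨y0, ⟨hy0, fun h => hxu (Set.mem_singleton_iff.1 h).symm⟩, hy0'⟩,
        ⟨y2, ⟨hy2, fun h => e12 ?_⟩, hy2'⟩⟩
      rw [h1, Set.mem_singleton_iff.1 h]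
    · exact ⟨0, 1, by decide, ⟨y0, ⟨hy0, fun h => hxu (Set.mem_singleton_iff.1 h).symm⟩, hy0'⟩,
        ⟨y1, ⟨hy1, fun h => h1 (Set.mem_singleton_iff.1 h)⟩, hy1'⟩⟩
  obtain ⟨c, hc⟩ := hc
  have hca : c ≠ a := fun h => hc (h ▸ ha)
  have hcb : c ≠ b := fun h => hc (h ▸ hb)
  refine ⟨c, K, hKC, hK, ?_, fun x hx hxc => hc ⟨x, hx, hxc⟩⟩
  intro a' ha'
  have key : ∀ a b c a' : Fin 3, a ≠ b → c ≠ a → c ≠ b → a' ≠ c → a' = a ∨ a' = b := by decide
  rcases key a b c a' hab hca hcb ha' with h | h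
  · rw [h]; exact ha
  · rw [h]; exact hb

end lvB9Aux

open lvB9Aux in
theorem lvB9 : S_B9c := by
  classical
  intro h6 h2 hgr V _ G s I B T v hU hM hI hT hv hinj hna
  have hd : ∀ i ∈ I, ∀ j ∈ I, i ≠ j → Disjoint (B i) (B j) := fun i hi j hj hij => (hM.2 i hi j hj hij).1
  -- the bad indices
  let bad : Fin 3 → Finset ℕ := fun i => hitI I B {v i} ∪ misI G I B {v i}
  have hbad : ∀ i, (bad i).card ≤ 3 := by
    intro i
    refine (Finset.card_union_le _ _).trans ?_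
    have h3 := hitI_single_le hd (v i)
    have h4 : (misI G I B {v i}).card ≤ 2 := (hv i).1
    omega
  let badT : Finset ℕ := I.filter fun j => ¬ Disjoint (B j) T
  have hbadT : badT.card ≤ T.ncard := by
    apply hit_le hd T badT (Finset.filter_subset _ _)
    intro j hj
    have h3 := (Finset.mem_filter.1 hj).2
    rw [Set.not_disjoint_iff] at h3
    obtain ⟨x, hx, hx'⟩ := h3
    exact ⟨x, hx, hx'⟩
  let Bad : Finset ℕ := bad 0 ∪ bad 1 ∪ bad 2 ∪ badT
  have hBad : Bad.card ≤ T.ncard + 9 := by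
    have h3 := Finset.card_union_le (bad 0 ∪ bad 1 ∪ bad 2) badT
    have h4 := Finset.card_union_le (bad 0 ∪ bad 1) (bad 2)
    have h5 := Finset.card_union_le (bad 0) (bad 1)
    have := hbad 0
    have := hbad 1
    have := hbad 2
    change (bad 0 ∪ bad 1 ∪ bad 2 ∪ badT).card ≤ _
    omega
  let J : Finset ℕ := I \ Bad
  have hJI : J ⊆ I := Finset.sdiff_subset
  have hIJ : I.card ≤ J.card + Bad.card := by
    have h3 : I ⊆ J ∪ Bad := by
      intro i hi
      by_cases h : i ∈ Bad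
      · exact Finset.mem_union_right _ h
      · exact Finset.mem_union_left _ (Finset.mem_sdiff.2 ⟨hi, h⟩)
    exact (Finset.card_le_card h3).trans (Finset.card_union_le _ _)
  have hJ : ∀ j ∈ J, j ∈ I ∧ (∀ i, v i ∉ B j ∧ ∃ w ∈ B j, G.Adj (v i) w) ∧ Disjoint (B j) T := by
    intro j hj
    obtain ⟨hjI, hjB⟩ := Finset.mem_sdiff.1 hj
    have h3 : ∀ i, j ∉ bad i := by
      intro i hi
      apply hjB
      change j ∈ bad 0 ∪ bad 1 ∪ bad 2 ∪ badT
      rw [Finset.mem_union, Finset.mem_union, Finset.mem_union]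
      fin_cases i
      · exact Or.inl (Or.inl (Or.inl hi))
      · exact Or.inl (Or.inl (Or.inr hi))
      · exact Or.inl (Or.inr hi)
    refine ⟨hjI, ?_, ?_⟩
    · intro i
      have h4 := h3 i
      change j ∉ hitI I B {v i} ∪ misI G I B {v i} at h4
      rw [Finset.mem_union, mem_hitI, mem_misI] at h4
      push Not at h4
      have h5 := h4.1 hjI
      refine ⟨Set.disjoint_singleton_right.1 h5, ?_⟩
      obtain ⟨a, ha, b, hb, hab⟩ := h4.2 hjI h5
      rw [Set.mem_singleton_iff] at ha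
      subst ha
      exact ⟨b, hb, hab⟩
    · by_contra h4
      apply hjB
      change j ∈ bad 0 ∪ bad 1 ∪ bad 2 ∪ badT
      exact Finset.mem_union_right _ (Finset.mem_filter.2 ⟨hjI, h4⟩)
  -- (a)
  have ha : ∀ j ∈ J, ∀ i, ∀ y ∈ B j, G.Adj (v i) y → y ∈ Lg G I B := by
    intro j hj i y hy hvy
    by_contra hyL
    obtain ⟨hjI, hjv, hjT⟩ := hJ j hj
    obtain ⟨Z, hZL, hyZ, hZ, hZn⟩ := exists_comp G (A := (Lg G I B)ᶜ) (v := y) hyL
    have h3 := hT Z ⟨hZL, hZ, hZn⟩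
    rw [Set.ncard_le_one_iff (Set.toFinite _)] at h3
    have hvi : v i ∈ nb G Z \ T := by
      refine ⟨⟨fun h => hZL h (hv i).1, y, hyZ, hvy.symm⟩, (hv i).2⟩
    obtain ⟨x, hx, hxL⟩ := h2 V G s I B hU hM (by omega) j hjI
    obtain ⟨b, hb, a, haa, hab⟩ := (hM.1 j hjI).2 (Z ∩ B j) Set.inter_subset_right ⟨y, hyZ, hy⟩
      (fun h => hZL (show x ∈ Z from by rw [← h] at hx; exact hx.1) hxL)
    have haZ : a ∉ Z := fun h => haa.2 ⟨h, haa.1⟩
    have ha' : a ∈ nb G Z \ T := ⟨⟨haZ, b, hb.1, hab⟩, Set.disjoint_left.1 hjT haa.1⟩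
    have h4 := h3 ha' hvi
    exact (hjv i).1 (h4 ▸ haa.1)
  -- the four classes
  let S : Fin 3 → Fin 3 → Set V := fun a b => {w | w ∈ Lg G I B ∧ G.Adj (v a) w ∧ G.Adj (v b) w}
  let JJ : Fin 3 → Fin 3 → Finset ℕ := fun a b => J.filter fun j => ∃ w ∈ B j, G.Adj (v a) w ∧ G.Adj (v b) w
  have hJJ : ∀ a b, (JJ a b).card ≤ (S a b).ncard := by
    intro a b
    apply hit_le hd (S a b) (JJ a b) ((Finset.filter_subset _ _).trans hJI)
    intro j hj
    obtain ⟨hjJ, w, hw, hw1, hw2⟩ := Finset.mem_filter.1 hj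
    exact ⟨w, hw, ha j hjJ a w hw hw1, hw1, hw2⟩
  let JD : Finset ℕ := J.filter fun j => ∀ a b : Fin 3, a ≠ b → ∀ w ∈ B j, G.Adj (v a) w → ¬ G.Adj (v b) w
  have hJD : JD.card ≤ 3 := by
    by_contra hcard
    push Not at hcard
    have hKK : ∀ j ∈ JD, ∃ (c : Fin 3) (K : Set V), K ⊆ B j ∧ Conn G K ∧
        (∀ a, a ≠ c → (K ∩ {w | G.Adj (v a) w}).Nonempty) ∧ ∀ x ∈ K, ¬ G.Adj (v c) x := by
      intro j hj
      obtain ⟨hjJ, hjd⟩ := Finset.mem_filter.1 hj
      obtain ⟨hjI, hjv, hjT⟩ := hJ j hjJ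
      obtain ⟨c, K, h3, h4, h5, h8⟩ := exists_K hgr (B j) (fun a => {w | w ∈ B j ∧ G.Adj (v a) w})
        (hM.1 j hjI) (by
          intro i
          obtain ⟨w, hw, hw'⟩ := (hjv i).2
          exact ⟨w, hw, hw, hw'⟩) (by
          intro i i' hii x hx hx'
          exact hjd i i' hii x hx.1 hx.2 hx'.2)
      refine ⟨c, K, h3, h4, ?_, ?_⟩
      · intro a hac
        obtain ⟨w, hw, hw'⟩ := h5 a hac
        exact ⟨w, hw, hw'.2⟩
      · intro x hx hxc
        exact h8 x hx ⟨h3 hx, hxc⟩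
    choose! c K hK using hKK
    obtain ⟨j, hj, j', hj', hjj, hcc⟩ :=
      Finset.exists_ne_map_eq_of_card_lt_of_maps_to (s := JD) (t := (Finset.univ : Finset (Fin 3)))
        (f := c) (by simpa using hcard) (fun _ _ => Finset.mem_univ _)
    obtain ⟨hK1, hK2, hK3, hK4⟩ := hK j hj
    obtain ⟨hK1', hK2', hK3', hK4'⟩ := hK j' hj'
    rw [← hcc] at hK3' hK4'
    have key : ∀ c : Fin 3, ∃ a b : Fin 3, a ≠ b ∧ a ≠ c ∧ b ≠ c := by decide
    obtain ⟨a, b, hab, hac, hbc⟩ := key (c j)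
    obtain ⟨hjJ, -⟩ := Finset.mem_filter.1 hj
    obtain ⟨hjI, hjv, hjT⟩ := hJ j hjJ
    obtain ⟨hjJ', -⟩ := Finset.mem_filter.1 hj'
    obtain ⟨hjI', hjv', hjT'⟩ := hJ j' hjJ'
    obtain ⟨y, hyK, hya⟩ := hK3 a hac
    obtain ⟨y', hyK', hyb'⟩ := hK3 b hbc
    obtain ⟨w, hwK, hwa⟩ := hK3' a hac
    obtain ⟨w', hwK', hwb'⟩ := hK3' b hbc
    have vne : ∀ a b, a ≠ b → v a ≠ v b := fun a b hab h => hab (hinj h)
    let X : ℕ → Set V := fun n => if n = 0 then {v a} else if n = 1 then K j else K j' ∪ {v b}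
    let x : ℕ → V := fun n => if n = 0 then v a else if n = 1 then y else v b
    have hX0 : X 0 = {v a} := rfl
    have hX1 : X 1 = K j := rfl
    have hX2 : X 2 = K j' ∪ {v b} := rfl
    have hx0 : x 0 = v a := rfl
    have hx1 : x 1 = y := rfl
    have hx2 : x 2 = v b := rfl
    have d01 : Disjoint (X 0) (X 1) := by
      rw [hX0, hX1, Set.disjoint_singleton_left]
      exact fun h => (hjv a).1 (hK1 h)
    have d02 : Disjoint (X 0) (X 2) := by
      rw [hX0, hX2, Set.disjoint_singleton_left]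
      rintro (h | h)
      · exact (hjv' a).1 (hK1' h)
      · exact vne a b hab h
    have d12 : Disjoint (X 1) (X 2) := by
      rw [hX1, hX2, Set.disjoint_left]
      rintro u hu (h | h)
      · exact Set.disjoint_left.1 (hd j hjI j' hjI' hjj) (hK1 hu) (hK1' h)
      · rw [Set.mem_singleton_iff] at h
        rw [h] at hu
        exact (hjv b).1 (hK1 hu)
    have t01 : Tch G (X 0) (X 1) := ⟨v a, rfl, y, hyK, hya⟩
    have t02 : Tch G (X 0) (X 2) := ⟨v a, rfl, w, Or.inl hwK, hwa⟩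
    have t12 : Tch G (X 1) (X 2) := ⟨y', hyK', v b, Or.inr rfl, hyb'.symm⟩
    refine h6 V G s 4 I B (v (c j)) X x hU hM (hv _).1 ?_ ?_ ?_ (by omega)
    · intro n hn
      have hn' : n = 0 ∨ n = 1 ∨ n = 2 := by omega
      rcases hn' with rfl | rfl | rfl
      · rw [hX0, hx0]
        refine ⟨Conn.singleton G _, fun h => vne a (c j) hac (Set.mem_singleton_iff.1 h).symm, ?_,
          rfl, (hv a).1⟩
        rintro ⟨p, hp, q, hq, hpq⟩
        rw [Set.mem_singleton_iff] at hp hq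
        rw [hp, hq] at hpq
        exact hna _ _ hpq
      · rw [hX1, hx1]
        refine ⟨hK2, fun h => (hjv _).1 (hK1 h), ?_, hyK, ha j hjJ a y (hK1 hyK) hya⟩
        rintro ⟨p, hp, q, hq, hpq⟩
        rw [Set.mem_singleton_iff] at hp
        rw [hp] at hpq
        exact hK4 q hq hpq
      · rw [hX2, hx2]
        refine ⟨hK2'.union (Conn.singleton G _) (Or.inr ⟨w', hwK', v b, rfl, hwb'.symm⟩), ?_, ?_,
          Or.inr rfl, (hv b).1⟩
        · rintro (h | h)
          · exact (hjv' _).1 (hK1' h)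
          · exact vne b (c j) hbc (Set.mem_singleton_iff.1 h).symm
        · rintro ⟨p, hp, q, hq | hq, hpq⟩
          · rw [Set.mem_singleton_iff] at hp
            rw [hp] at hpq
            exact hK4' q hq hpq
          · rw [Set.mem_singleton_iff] at hp hq
            rw [hp, hq] at hpq
            exact hna _ _ hpq
    · intro n hn n' hn' hnn
      have h3 : n = 0 ∨ n = 1 ∨ n = 2 := by omega
      have h4 : n' = 0 ∨ n' = 1 ∨ n' = 2 := by omega
      rcases h3 with rfl | rfl | rfl <;> rcases h4 with rfl | rfl | rfl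
      · exact absurd rfl hnn
      · exact ⟨d01, t01⟩
      · exact ⟨d02, t02⟩
      · exact ⟨d01.symm, t01.symm⟩
      · exact absurd rfl hnn
      · exact ⟨d12, t12⟩
      · exact ⟨d02.symm, t02.symm⟩
      · exact ⟨d12.symm, t12.symm⟩
      · exact absurd rfl hnn
    · have h3 : hitI I B (X 0 ∪ X 1 ∪ X 2) ⊆ (hitI I B {v a} ∪ hitI I B {v b}) ∪ {j, j'} := by
        intro i hi
        rw [mem_hitI, Set.not_disjoint_iff] at hi
        obtain ⟨hiI, u, hu, hu'⟩ := hi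
        have same : ∀ k ∈ I, u ∈ B k → i = k := by
          intro k hk huk
          by_contra hne
          exact Set.disjoint_left.1 (hd i hiI k hk hne) hu huk
        rw [Finset.mem_union, Finset.mem_union, mem_hitI, mem_hitI, Set.disjoint_singleton_right,
          Set.disjoint_singleton_right, not_not, not_not, Finset.mem_insert, Finset.mem_singleton]
        rcases hu' with (h | h) | (h | h)
        · have h' : u = v a := h
          exact Or.inl (Or.inl ⟨hiI, h' ▸ hu⟩)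
        · exact Or.inr (Or.inl (same j hjI (hK1 h)))
        · exact Or.inr (Or.inr (same j' hjI' (hK1' h)))
        · have h' : u = v b := h
          exact Or.inl (Or.inr ⟨hiI, h' ▸ hu⟩)
      have h4 := Finset.card_le_card h3
      have h5 := Finset.card_union_le (hitI I B {v a} ∪ hitI I B {v b}) {j, j'}
      have h7 := Finset.card_union_le (hitI I B {v a}) (hitI I B {v b})
      have h8 := hitI_single_le hd (v a)
      have h9 := hitI_single_le hd (v b)
      have h10 : ({j, j'} : Finset ℕ).card ≤ 2 := Finset.card_le_two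
      omega
  have hJle : J.card ≤ (JJ 0 1).card + (JJ 0 2).card + (JJ 1 2).card + JD.card := by
    have h3 : J ⊆ JJ 0 1 ∪ JJ 0 2 ∪ JJ 1 2 ∪ JD := by
      intro j hj
      rw [Finset.mem_union, Finset.mem_union, Finset.mem_union]
      by_contra hcon
      push Not at hcon
      obtain ⟨⟨⟨h01, h02⟩, h12⟩, hD⟩ := hcon
      have e01 : ∀ w ∈ B j, G.Adj (v 0) w → ¬ G.Adj (v 1) w := fun w hw h h' =>
        h01 (Finset.mem_filter.2 ⟨hj, w, hw, h, h'⟩)
      have e02 : ∀ w ∈ B j, G.Adj (v 0) w → ¬ G.Adj (v 2) w := fun w hw h h' =>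
        h02 (Finset.mem_filter.2 ⟨hj, w, hw, h, h'⟩)
      have e12 : ∀ w ∈ B j, G.Adj (v 1) w → ¬ G.Adj (v 2) w := fun w hw h h' =>
        h12 (Finset.mem_filter.2 ⟨hj, w, hw, h, h'⟩)
      apply hD
      refine Finset.mem_filter.2 ⟨hj, ?_⟩
      intro a b hab w hw h h'
      fin_cases a <;> fin_cases b
      · exact hab rfl
      · exact e01 w hw h h'
      · exact e02 w hw h h'
      · exact e01 w hw h' h
      · exact hab rfl
      · exact e12 w hw h h'
      · exact e02 w hw h' h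
      · exact e12 w hw h' h
      · exact hab rfl
    have h4 := Finset.card_le_card h3
    have h5 := Finset.card_union_le (JJ 0 1 ∪ JJ 0 2 ∪ JJ 1 2) JD
    have h7 := Finset.card_union_le (JJ 0 1 ∪ JJ 0 2) (JJ 1 2)
    have h8 := Finset.card_union_le (JJ 0 1) (JJ 0 2)
    omega
  have h01 := hJJ 0 1
  have h02 := hJJ 0 2
  have h12 := hJJ 1 2
  change I.card ≤ T.ncard + 12 + (S 0 1).ncard + (S 0 2).ncard + (S 1 2).ncard
  omega

end Pool.Agent.MPd439b2
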