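import Pool.Agent.Lib.MP_d439b2_co.LV.Spec

/-!
# MP_d439b2_co, LV/C2 (helper29): no `LCF` gives an induced cycle
-/

set_option autoImplicit false

namespace Pool.Agent.MPd439b2

theorem lvC2 : S_C2c := by
  intro hIC V _ G X hX
  unfold LCF CoF at hX
  push Not at hX
  obtain ⟨v, hv, Y, hYs, hYne, hY⟩ := hX
  have h2 : ∀ y ∈ Y, 2 ≤ {w | w ∈ Y ∧ G.Adj y w}.ncard := by
    intro y hy
    have h3 := hY y hy
    have h4 : {w | w ∈ Y ∧ w ≠ y ∧ ¬ Gᶜ.Adj y w} ⊆ {w | w ∈ Y ∧ G.Adj y w} := by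
      rintro w ⟨hw, hwy, hn⟩
      refine ⟨hw, ?_⟩
      by_contra h5
      exact hn ⟨hwy.symm, h5⟩
    have h5 := Set.ncard_le_ncard h4 (Set.toFinite _)
    omega
  obtain ⟨l, z, hl, hz, hinj, hadj⟩ := hIC V G Y hYne h2
  refine ⟨v, hv, l, z, hl, fun i hi => ?_, hinj, hadj⟩
  obtain ⟨h5, h6, h7⟩ := hYs (hz i hi)
  exact ⟨h5, h6.symm, h7⟩

end Pool.Agent.MPd439b2
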