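import Pool.Agent.Lib.MP_d439b2_co.LV.Spec

/-!
# MP_d439b2_co, LV/C3 (helper40): the join structure around a long induced cycle
-/

set_option autoImplicit false

namespace Pool.Agent.MPd439b2

namespace lvC3Aux

variable {V : Type}

theorem at_ms [Finite V] (D : SimpleGraph V) (C : Set V) (u : V) :
    (At D C u).ncard + (Ms D C u).ncard = C.ncard := by
  have h1 : At D C u ∪ Ms D C u = C := by
    ext c
    constructor
    · rintro (h | h)
      · exact h.1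
      · exact h.1
    · intro h
      by_cases h2 : D.Adj u c
      · exact Or.inl ⟨h, h2⟩
      · exact Or.inr ⟨h, h2⟩
  have h2 : Disjoint (At D C u) (Ms D C u) := by
    rw [Set.disjoint_left]
    intro c h3 h4
    exact h4.2 h3.2
  rw [← Set.ncard_union_eq h2 (Set.toFinite _) (Set.toFinite _), h1]

theorem three [Finite V] {C M₁ M₂ M₃ : Set V} (h1 : M₁ ⊆ C) (h2 : M₂ ⊆ C) (h3 : M₃ ⊆ C)
    (c1 : C.ncard + 1 ≤ 2 * M₁.ncard) (c2 : C.ncard + 1 ≤ 2 * M₂.ncard)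
    (c3 : C.ncard + 1 ≤ 2 * M₃.ncard) (i12 : (M₁ ∩ M₂).ncard ≤ 1) (i13 : (M₁ ∩ M₃).ncard ≤ 1)
    (i23 : (M₂ ∩ M₃).ncard ≤ 1) : C.ncard ≤ 3 := by
  have e1 := Set.ncard_union_add_ncard_inter M₁ M₂ (Set.toFinite _) (Set.toFinite _)
  have e2 := Set.ncard_union_add_ncard_inter (M₁ ∪ M₂) M₃ (Set.toFinite _) (Set.toFinite _)
  have e3 : ((M₁ ∪ M₂) ∩ M₃).ncard ≤ 2 := by
    rw [Set.union_inter_distrib_right]
    have := Set.ncard_union_le (M₁ ∩ M₃) (M₂ ∩ M₃)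
    omega
  have e4 : (M₁ ∪ M₂ ∪ M₃).ncard ≤ C.ncard :=
    Set.ncard_le_ncard (Set.union_subset (Set.union_subset h1 h2) h3) (Set.toFinite _)
  omega

theorem exMax [Finite V] (G : SimpleGraph V) {X S₀ : Set V} (hS : S₀ ⊆ X)
    (hI : ∀ a ∈ S₀, ∀ b ∈ S₀, ¬ G.Adj a b) :
    ∃ C, S₀ ⊆ C ∧ MaxCl Gᶜ X C ∧ ∀ a ∈ C, ∀ b ∈ C, ¬ G.Adj a b := by
  obtain ⟨C, ⟨hC1, hC2, hC3⟩, hmax⟩ := Set.exists_max_image
    {C : Set V | S₀ ⊆ C ∧ C ⊆ X ∧ ∀ a ∈ C, ∀ b ∈ C, ¬ G.Adj a b} Set.ncard (Set.toFinite _)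
    ⟨S₀, Set.Subset.refl _, hS, hI⟩
  refine ⟨C, hC1, ⟨hC2, ?_, ?_⟩, hC3⟩
  · intro u hu w hw huw
    exact (SimpleGraph.compl_adj G u w).2 ⟨huw, hC3 u hu w hw⟩
  · intro u hu huC
    by_contra hcon
    push Not at hcon
    have h1 : ∀ c ∈ C, ¬ G.Adj u c := fun c hc => ((SimpleGraph.compl_adj G u c).1 (hcon c hc)).2
    have h2 := hmax (insert u C) ⟨hC1.trans (Set.subset_insert _ _), Set.insert_subset hu hC2, by
      rintro a (rfl | ha) b (rfl | hb)
      · exact G.loopless.irrefl _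
      · exact h1 b hb
      · exact fun h => h1 a ha h.symm
      · exact hC3 a ha b hb⟩
    rw [Set.ncard_insert_of_notMem huC (Set.toFinite _)] at h2
    omega

theorem maxSub {D : SimpleGraph V} {X X' C : Set V} (h : MaxCl D X C) (h1 : C ⊆ X')
    (h2 : X' ⊆ X) : MaxCl D X' C :=
  ⟨h1, h.2.1, fun u hu huC => h.2.2 u (h2 hu) huC⟩

/-- everything we know about the maximal clique -/
structure Setup (G : SimpleGraph V) (X C : Set V) (v : V) (z : ℕ → V) (h : ℕ) : Prop where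
  ind : ∀ a ∈ C, ∀ b ∈ C, ¬ G.Adj a b
  mx : MaxCl Gᶜ X C
  lcf : ∀ E ⊆ X, E.ncard ≤ 42 → LCF Gᶜ (C ∪ E)
  vC : v ∈ C
  big : h + 1 ≤ C.ncard
  h50 : 50 ≤ h
  ev : ∀ i < h, z (2 * i) ∈ C
  od : ∀ i < h, z (2 * i + 1) ∈ X ∧ v ≠ z (2 * i + 1) ∧ ¬ G.Adj v (z (2 * i + 1))
  eo : ∀ i < h, G.Adj (z (2 * i)) (z (2 * i + 1))
  inj : ∀ i < 2 * h, ∀ j < 2 * h, z i = z j → i = j

variable {G : SimpleGraph V} {X C : Set V} {v : V} {z : ℕ → V} {h : ℕ}

theorem Setup.od_notMem (S : Setup G X C v z h) {i : ℕ} (hi : i < h) : z (2 * i + 1) ∉ C :=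
  fun h => S.ind _ (S.ev i hi) _ h (S.eo i hi)

/-- (1) -/
theorem Setup.inter [Finite V] (S : Setup G X C v z h) (hC1 : S_C1) {u u' w : V} (hu : u ∈ X)
    (hu' : u' ∈ X) (huC : u ∉ C) (huC' : u' ∉ C) (hne : u ≠ u') (hw : w ∈ C)
    (h1 : Gᶜ.Adj w u) (h2 : Gᶜ.Adj w u') : (Ms Gᶜ C u ∩ Ms Gᶜ C u').ncard ≤ 1 := by
  have hE : ({u, u'} : Set V) ⊆ X := by
    rintro a (rfl | ha)
    · exact hu
    · have : a = u' := ha
      rw [this]
      exact hu'
  have hl := S.lcf {u, u'} hE (le_trans (Set.ncard_insert_le _ _) (by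
    rw [Set.ncard_singleton]; norm_num))
  exact hC1 V Gᶜ (C ∪ {u, u'}) C w u u' hl Set.subset_union_left S.mx.2.1 hw
    (Or.inr (Or.inl rfl)) (Or.inr (Or.inr rfl)) huC huC' hne h1 h2

/-- (2) -/
theorem Setup.dense [Finite V] (S : Setup G X C v z h) (hC1 : S_C1) :
    ∃ O : Finset ℕ, h ≤ O.card + 2 ∧ ∀ i ∈ O, i < h ∧ z (2 * i + 1) ∈ Dn Gᶜ X C := by
  classical
  refine ⟨(Finset.range h).filter (fun i => z (2 * i + 1) ∈ Dn Gᶜ X C), ?_, fun i hi => ?_⟩
  · have h1 := Finset.card_filter_add_card_filter_not (s := Finset.range h)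
      (fun i => z (2 * i + 1) ∈ Dn Gᶜ X C)
    rw [Finset.card_range] at h1
    have h2 : ((Finset.range h).filter fun i => ¬ z (2 * i + 1) ∈ Dn Gᶜ X C).card ≤ 2 := by
      by_contra hcon
      push Not at hcon
      rw [Finset.two_lt_card] at hcon
      obtain ⟨a, ha, b, hb, c, hc, hab, hac, hbc⟩ := hcon
      rw [Finset.mem_filter, Finset.mem_range] at ha hb hc
      have key : ∀ i < h, z (2 * i + 1) ∉ Dn Gᶜ X C →
          C.ncard + 1 ≤ 2 * (Ms Gᶜ C (z (2 * i + 1))).ncard := by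
        intro i hi hn
        have h3 := at_ms Gᶜ C (z (2 * i + 1))
        by_contra h4
        exact hn ⟨(S.od i hi).1, S.od_notMem hi, by omega⟩
      have key2 : ∀ i < h, ∀ j < h, i ≠ j →
          (Ms Gᶜ C (z (2 * i + 1)) ∩ Ms Gᶜ C (z (2 * j + 1))).ncard ≤ 1 := by
        intro i hi j hj hij
        refine S.inter hC1 (S.od i hi).1 (S.od j hj).1 (S.od_notMem hi) (S.od_notMem hj) ?_ S.vC
          ((SimpleGraph.compl_adj G _ _).2 (S.od i hi).2) ((SimpleGraph.compl_adj G _ _).2 (S.od j hj).2)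
        intro h5
        have := S.inj _ (by omega) _ (by omega) h5
        omega
      have h6 := three (C := C) (fun c hc => hc.1) (fun c hc => hc.1) (fun c hc => hc.1)
        (key a ha.1 ha.2) (key b hb.1 hb.2) (key c hc.1 hc.2) (key2 a ha.1 b hb.1 hab)
        (key2 a ha.1 c hc.1 hac) (key2 b hb.1 c hc.1 hbc)
      have h7 := S.big
      have h8 := S.h50
      omega
    omega
  · rw [Finset.mem_filter, Finset.mem_range] at hi
    exact hi

/-- (3) -/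
theorem Setup.sp [Finite V] (S : Setup G X C v z h) (hC1 : S_C1) (hC2 : S_C2) :
    (Sp Gᶜ X C).ncard ≤ 4 := by
  by_contra hcon
  push Not at hcon
  obtain ⟨A, hA, hAc⟩ := Set.exists_subset_card_eq (s := Sp Gᶜ X C) (n := 5) (by omega)
  obtain ⟨O, hO1, hO2⟩ := S.dense hC1
  obtain ⟨i, hi, j, hj, hij⟩ := Finset.one_lt_card.1 (show 1 < O.card by
    have := S.h50
    omega)
  obtain ⟨hi1, hi2⟩ := hO2 i hi
  obtain ⟨hj1, hj2⟩ := hO2 j hj
  have hne : z (2 * i + 1) ≠ z (2 * j + 1) := by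
    intro h5
    have := S.inj _ (by omega) _ (by omega) h5
    omega
  have hEX : A ∪ {z (2 * i + 1), z (2 * j + 1)} ⊆ X := by
    rintro a (ha | (rfl | ha))
    · exact (hA ha).1
    · exact hi2.1
    · have : a = z (2 * j + 1) := ha
      rw [this]
      exact hj2.1
  have hEc : (A ∪ {z (2 * i + 1), z (2 * j + 1)}).ncard ≤ 42 := by
    have e1 := Set.ncard_union_le A {z (2 * i + 1), z (2 * j + 1)}
    have e2 := Set.ncard_insert_le (z (2 * i + 1)) {z (2 * j + 1)}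
    rw [Set.ncard_singleton] at e2
    omega
  have hl := S.lcf _ hEX hEc
  have hm := maxSub S.mx (X' := C ∪ (A ∪ {z (2 * i + 1), z (2 * j + 1)})) Set.subset_union_left
    (Set.union_subset S.mx.1 hEX)
  have h1 := (hC2 V Gᶜ _ C hl hm).2 (by
    rw [← hAc]
    apply Set.ncard_le_ncard _ (Set.toFinite _)
    intro a ha
    exact ⟨Or.inr (Or.inl ha), (hA ha).2⟩)
  rw [Set.ncard_le_one_iff (Set.toFinite _)] at h1
  exact hne (h1 ⟨Or.inr (Or.inr (Or.inl rfl)), hi2.2⟩ ⟨Or.inr (Or.inr (Or.inr rfl)), hj2.2⟩)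

/-- (4) -/
theorem Setup.wf [Finite V] (S : Setup G X C v z h) (hC1 : S_C1) (hC4 : C_RC4) :
    (Wf Gᶜ X C).ncard ≤ 15 := by
  classical
  by_contra hcon
  push Not at hcon
  obtain ⟨A, hA, hAc⟩ := Set.exists_subset_card_eq (s := Wf Gᶜ X C) (n := 16) (by omega)
  obtain ⟨O, hO1, hO2⟩ := S.dense hC1
  have h50 := S.h50
  have hbig := S.big
  obtain ⟨P, hP, hPc⟩ := Finset.exists_subset_card_eq (s := O) (n := 10) (by omega)
  have hu : ∀ w : V, ∃ u : V, w ∈ A → (u ∈ Dn Gᶜ X C ∧ Gᶜ.Adj u w) := by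
    intro w
    by_cases hw : w ∈ A
    · obtain ⟨u, hu1, hu2⟩ := (hA hw).2
      exact ⟨u, fun _ => ⟨hu1, hu2⟩⟩
    · exact ⟨w, fun h => absurd h hw⟩
  choose u hu using hu
  have hAX : A ⊆ X := fun w hw => (hA hw).1.1
  have hUX : u '' A ⊆ X := by
    rintro _ ⟨w, hw, rfl⟩
    exact (hu w hw).1.1
  have hPX : (fun i => z (2 * i + 1)) '' (P : Set ℕ) ⊆ X := by
    rintro _ ⟨i, hi, rfl⟩
    exact (hO2 i (hP hi)).2.1
  have hEX : A ∪ (u '' A ∪ (fun i => z (2 * i + 1)) '' (P : Set ℕ)) ⊆ X :=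
    Set.union_subset hAX (Set.union_subset hUX hPX)
  have hEc : (A ∪ (u '' A ∪ (fun i => z (2 * i + 1)) '' (P : Set ℕ))).ncard ≤ 42 := by
    have e1 := Set.ncard_union_le A (u '' A ∪ (fun i => z (2 * i + 1)) '' (P : Set ℕ))
    have e2 := Set.ncard_union_le (u '' A) ((fun i => z (2 * i + 1)) '' (P : Set ℕ))
    have e3 := Set.ncard_image_le (s := A) (f := u) (Set.toFinite _)
    have e4 := Set.ncard_image_le (s := (P : Set ℕ)) (f := fun i => z (2 * i + 1)) (P.finite_toSet)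
    rw [Set.ncard_coe_finset] at e4
    omega
  have hl := S.lcf _ hEX hEc
  have hm := maxSub S.mx (X' := C ∪ (A ∪ (u '' A ∪ (fun i => z (2 * i + 1)) '' (P : Set ℕ))))
    Set.subset_union_left (Set.union_subset S.mx.1 hEX)
  rcases hC4 V Gᶜ _ C hl hm (by omega) with h1 | ⟨C', hC'1, _, _, _, hC'5⟩
  · have h2 : A ⊆ Wf Gᶜ (C ∪ (A ∪ (u '' A ∪ (fun i => z (2 * i + 1)) '' (P : Set ℕ)))) C := by
      intro w hw
      refine ⟨⟨Or.inr (Or.inl hw), (hA hw).1.2⟩, u w, ⟨Or.inr (Or.inr (Or.inl ⟨w, hw, rfl⟩)),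
        (hu w hw).1.2⟩, (hu w hw).2⟩
    have h3 := Set.ncard_le_ncard h2 (Set.toFinite _)
    omega
  · -- an injection of `P` into the complement of `C'`
    let g : ℕ → V := fun i => if z (2 * i + 1) ∈ C' then z (2 * i) else z (2 * i + 1)
    have hg : ∀ i ∈ P, g i ∈ (C ∪ Dn Gᶜ (C ∪ (A ∪ (u '' A ∪
        (fun i => z (2 * i + 1)) '' (P : Set ℕ)))) C) \ C' := by
      intro i hi
      obtain ⟨hi1, hi2⟩ := hO2 i (hP hi)
      by_cases hz : z (2 * i + 1) ∈ C'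
      · have hgi : g i = z (2 * i) := if_pos hz
        rw [hgi]
        refine ⟨Or.inl (S.ev i hi1), fun h5 => ?_⟩
        have h6 := hC'1.2.1 _ h5 _ hz (S.eo i hi1).ne
        exact ((SimpleGraph.compl_adj G _ _).1 h6).2 (S.eo i hi1)
      · have hgi : g i = z (2 * i + 1) := if_neg hz
        rw [hgi]
        exact ⟨Or.inr ⟨Or.inr (Or.inr (Or.inr ⟨i, hi, rfl⟩)), hi2.2⟩, hz⟩
    have hgv : ∀ i, ∃ e ≤ 1, g i = z (2 * i + e) := by
      intro i
      by_cases hz : z (2 * i + 1) ∈ C'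
      · exact ⟨0, by norm_num, if_pos hz⟩
      · exact ⟨1, le_rfl, if_neg hz⟩
    have hginj : Set.InjOn g (P : Set ℕ) := by
      intro i hi j hj hij
      obtain ⟨e, he, h1⟩ := hgv i
      obtain ⟨e', he', h2⟩ := hgv j
      have hi1 := (hO2 i (hP hi)).1
      have hj1 := (hO2 j (hP hj)).1
      rw [h1, h2] at hij
      have := S.inj _ (by omega) _ (by omega) hij
      omega
    have h7 : (g '' (P : Set ℕ)).ncard = 10 := by
      rw [Set.ncard_image_of_injOn hginj, Set.ncard_coe_finset, hPc]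
    have h8 := Set.ncard_le_ncard (s := g '' (P : Set ℕ)) (by
      rintro _ ⟨i, hi, rfl⟩
      exact hg i hi) (Set.toFinite _)
    omega

/-- (5), (6) -/
theorem Setup.fin [Finite V] (S : Setup G X C v z h) (hC1 : S_C1) (hC2 : S_C2) (hC4 : C_RC4) :
    ∃ R F T : Set V, C ⊆ R ∧ R ⊆ X ∧ F ⊆ X ∧ X ⊆ R ∪ F ∪ T ∧ T ⊆ X ∧ Disjoint R F ∧
      T.ncard ≤ 19 ∧ (∀ a ∈ R, ∀ b ∈ F, G.Adj a b) ∧
      ∀ a ∈ C, ∀ b ∈ C, a ≠ b → {w | w ∈ R ∧ G.Adj a w ∧ G.Adj b w}.ncard ≤ 1 := by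
  have h50 := S.h50
  have hbig := S.big
  refine ⟨C ∪ Dn Gᶜ X C, Fr Gᶜ X C \ Wf Gᶜ X C, Sp Gᶜ X C ∪ Wf Gᶜ X C, Set.subset_union_left,
    Set.union_subset S.mx.1 (fun u hu => hu.1), fun u hu => hu.1.1, ?_,
    Set.union_subset (fun u hu => hu.1) (fun u hu => hu.1.1), ?_, ?_, ?_, ?_⟩
  · intro u hu
    by_cases h1 : u ∈ C
    · exact Or.inl (Or.inl (Or.inl h1))
    by_cases h2 : At Gᶜ C u = ∅
    · by_cases h3 : u ∈ Wf Gᶜ X C
      · exact Or.inr (Or.inr h3)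
      · exact Or.inl (Or.inr ⟨⟨hu, h1, h2⟩, h3⟩)
    · by_cases h3 : 2 * (At Gᶜ C u).ncard < C.ncard
      · exact Or.inr (Or.inl ⟨hu, h1, Set.nonempty_iff_ne_empty.2 h2, h3⟩)
      · exact Or.inl (Or.inl (Or.inr ⟨hu, h1, by omega⟩))
  · rw [Set.disjoint_left]
    rintro u (hu | hu) hu2
    · exact hu2.1.2.1 hu
    · have h1 := hu.2.2
      rw [hu2.1.2.2, Set.ncard_empty] at h1
      omega
  · have e1 := S.sp hC1 hC2
    have e2 := S.wf hC1 hC4
    have e3 := Set.ncard_union_le (Sp Gᶜ X C) (Wf Gᶜ X C)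
    omega
  · rintro a (ha | ha) b hb
    · have h1 : b ≠ a := fun h => hb.1.2.1 (h ▸ ha)
      have h2 : a ∉ At Gᶜ C b := by
        rw [hb.1.2.2]
        exact fun h => h
      by_contra h3
      exact h2 ⟨ha, (SimpleGraph.compl_adj G b a).2 ⟨h1, fun h => h3 h.symm⟩⟩
    · have h1 : a ≠ b := by
        rintro rfl
        have h1 := ha.2.2
        rw [hb.1.2.2, Set.ncard_empty] at h1
        omega
      by_contra h3
      exact hb.2 ⟨hb.1, a, ha, (SimpleGraph.compl_adj G a b).2 ⟨h1, h3⟩⟩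
  · intro a ha b hb hab
    rw [Set.ncard_le_one_iff (Set.toFinite _)]
    intro w w' hw hw'
    by_contra hne
    have hwC : w ∉ C := fun h => S.ind a ha w h hw.2.1
    have hwC' : w' ∉ C := fun h => S.ind a ha w' h hw'.2.1
    have hwD : w ∈ Dn Gᶜ X C := hw.1.resolve_left hwC
    have hwD' : w' ∈ Dn Gᶜ X C := hw'.1.resolve_left hwC'
    have nadj : ∀ x y, G.Adj x y → ¬ Gᶜ.Adj y x := fun x y hxy h =>
      ((SimpleGraph.compl_adj G y x).1 h).2 hxy.symm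
    have hsub : At Gᶜ C w ∪ At Gᶜ C w' ⊆ C \ {a, b} := by
      rintro m (hm | hm)
      · refine ⟨hm.1, ?_⟩
        rintro (rfl | h)
        · exact nadj _ _ hw.2.1 hm.2
        · have h' : m = b := h
          subst h'
          exact nadj _ _ hw.2.2 hm.2
      · refine ⟨hm.1, ?_⟩
        rintro (rfl | h)
        · exact nadj _ _ hw'.2.1 hm.2
        · have h' : m = b := h
          subst h'
          exact nadj _ _ hw'.2.2 hm.2
    have hab2 : ({a, b} : Set V).ncard = 2 := Set.ncard_pair hab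
    have habC : ({a, b} : Set V) ⊆ C := by
      rintro m (rfl | h)
      · exact ha
      · have h' : m = b := h
        rw [h']
        exact hb
    have h1 := Set.ncard_le_ncard hsub (Set.toFinite _)
    rw [Set.ncard_sdiff habC (Set.toFinite _), hab2] at h1
    have h2 : ∃ m, m ∈ At Gᶜ C w ∧ m ∈ At Gᶜ C w' := by
      by_contra hcon
      push Not at hcon
      have h3 : Disjoint (At Gᶜ C w) (At Gᶜ C w') := Set.disjoint_left.2 hcon
      rw [Set.ncard_union_eq h3 (Set.toFinite _) (Set.toFinite _)] at h1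
      have h4 := hwD.2.2
      have h5 := hwD'.2.2
      omega
    obtain ⟨m, hm1, hm2⟩ := h2
    have h3 := S.inter hC1 hwD.1 hwD'.1 hwC hwC' hne hm1.1 hm1.2.symm hm2.2.symm
    rw [Set.ncard_le_one_iff (Set.toFinite _)] at h3
    exact hab (h3 ⟨⟨ha, nadj _ _ hw.2.1⟩, ⟨ha, nadj _ _ hw'.2.1⟩⟩
      ⟨⟨hb, nadj _ _ hw.2.2⟩, ⟨hb, nadj _ _ hw'.2.2⟩⟩)

end lvC3Aux

open lvC3Aux in
theorem lvC3 : S_C3c := by
  intro hC1 hC2 hC4 V _ G X v l z hlcf hv hz hl
  obtain ⟨_, hzY, hinj, hadj⟩ := hz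
  -- the independent set
  have hS0X : insert v ((fun i => z (2 * i)) '' {i | i < l / 2}) ⊆ X := by
    rintro a (rfl | ⟨i, hi, rfl⟩)
    · exact hv
    · have hi' : i < l / 2 := hi
      exact (hzY (2 * i) (by omega)).1
  have hS0I : ∀ a ∈ insert v ((fun i => z (2 * i)) '' {i | i < l / 2}),
      ∀ b ∈ insert v ((fun i => z (2 * i)) '' {i | i < l / 2}), ¬ G.Adj a b := by
    rintro a (rfl | ⟨i, hi, rfl⟩) b (rfl | ⟨j, hj, rfl⟩)
    · exact G.loopless.irrefl _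
    · have hj' : j < l / 2 := hj
      exact (hzY (2 * j) (by omega)).2.2
    · have hi' : i < l / 2 := hi
      exact fun h => (hzY (2 * i) (by omega)).2.2 h.symm
    · have hi' : i < l / 2 := hi
      have hj' : j < l / 2 := hj
      show ¬ G.Adj (z (2 * i)) (z (2 * j))
      rw [hadj (2 * i) (by omega) (2 * j) (by omega)]
      omega
  obtain ⟨C, hC, hmx, hind⟩ := exMax G hS0X hS0I
  have hcard : l / 2 + 1 ≤ C.ncard := by
    have h1 := Set.ncard_le_ncard hC (Set.toFinite _)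
    have h2 : v ∉ (fun i => z (2 * i)) '' {i | i < l / 2} := by
      rintro ⟨i, hi, h⟩
      have hi' : i < l / 2 := hi
      exact (hzY (2 * i) (by omega)).2.1 h
    rw [Set.ncard_insert_of_notMem h2 (Set.toFinite _)] at h1
    have h3 : Set.InjOn (fun i => z (2 * i)) {i | i < l / 2} := by
      intro i hi j hj hij
      have hi' : i < l / 2 := hi
      have hj' : j < l / 2 := hj
      have := hinj (2 * i) (by omega) (2 * j) (by omega) hij
      omega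
    rw [Set.ncard_image_of_injOn h3] at h1
    have h4 : {i | i < l / 2} = (Finset.range (l / 2) : Set ℕ) := by
      ext i
      simp
    rw [h4, Set.ncard_coe_finset, Finset.card_range] at h1
    exact h1
  have S : Setup G X C v z (l / 2) := by
    refine ⟨hind, hmx, fun E hE hEc => hlcf C E hmx.1 hE hind hEc, hC (Or.inl rfl), hcard,
      by omega, fun i hi => hC (Or.inr ⟨i, hi, rfl⟩), fun i hi => ?_, fun i hi => ?_, ?_⟩
    · have h1 := hzY (2 * i + 1) (by omega)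
      exact ⟨h1.1, h1.2.1.symm, h1.2.2⟩
    · rw [hadj (2 * i) (by omega) (2 * i + 1) (by omega)]
      exact Or.inl rfl
    · intro i hi j hj hij
      exact hinj i (by omega) j (by omega) hij
  obtain ⟨R, F, T, h1, h2, h3, h4, h5, h6, h7, h8, h9⟩ := S.fin hC1 hC2 hC4
  exact ⟨C, R, F, T, h1, h2, h3, h4, h5, h6, h7, h8, hind, by omega, h9⟩

end Pool.Agent.MPd439b2
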