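import Pool.Agent.Lib.MP_d439b2_co.LV.Spec

/-!
# MP_d439b2_co, LV, module C4: one side of a large join
-/

set_option autoImplicit false

namespace Pool.Agent.MPd439b2

namespace lvC4Aux

variable {V : Type}

theorem choose_seq [Finite V] (s : ℕ) (A : Set V) (v₀ : V) (h : s ≤ A.ncard) :
    ∃ f : ℕ → V, (∀ i < s, f i ∈ A) ∧ ∀ i < s, ∀ j < s, f i = f j → i = j := by
  classical
  have hA : A.Finite := Set.toFinite A
  have hc : A.ncard = hA.toFinset.card := Set.ncard_eq_toFinset_card A hA
  let e := hA.toFinset.equivFin.symm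
  refine ⟨fun i => if h : i < hA.toFinset.card then (e ⟨i, h⟩).1 else v₀, ?_, ?_⟩
  · intro i hi
    have hi' : i < hA.toFinset.card := by omega
    simp only [dif_pos hi']
    exact (Set.Finite.mem_toFinset hA).1 (e ⟨i, hi'⟩).2
  · intro i hi j hj hij
    have hi' : i < hA.toFinset.card := by omega
    have hj' : j < hA.toFinset.card := by omega
    simp only [dif_pos hi', dif_pos hj'] at hij
    have := e.injective (Subtype.ext hij)
    exact congrArg Fin.val this

/-- a path is connected -/
theorem conn_path (G : SimpleGraph V) (z : ℕ → V) (a n : ℕ)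
    (h : ∀ i, a ≤ i → i < a + n → G.Adj (z i) (z (i + 1))) : Conn G {w | ∃ i, a ≤ i ∧ i ≤ a + n ∧ z i = w} := by
  induction n with
  | zero =>
    have : {w | ∃ i, a ≤ i ∧ i ≤ a + 0 ∧ z i = w} = {z a} := by
      ext w
      simp only [Set.mem_setOf_eq, Set.mem_singleton_iff]
      constructor
      · rintro ⟨i, h1, h2, rfl⟩
        have : i = a := by omega
        rw [this]
      · rintro rfl
        exact ⟨a, le_rfl, by omega, rfl⟩
    rw [this]
    exact Conn.singleton G _
  | succ n ih =>
    have h1 := ih (fun i hi hi' => h i hi (by omega))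
    have h2 : {w | ∃ i, a ≤ i ∧ i ≤ a + (n + 1) ∧ z i = w} =
        insert (z (a + (n + 1))) {w | ∃ i, a ≤ i ∧ i ≤ a + n ∧ z i = w} := by
      ext w
      simp only [Set.mem_setOf_eq, Set.mem_insert_iff]
      constructor
      · rintro ⟨i, h1, h2, rfl⟩
        by_cases h3 : i = a + (n + 1)
        · left
          rw [h3]
        · right
          exact ⟨i, h1, by omega, rfl⟩
      · rintro (rfl | ⟨i, h1, h2, rfl⟩)
        · exact ⟨_, by omega, le_rfl, rfl⟩
        · exact ⟨i, h1, by omega, rfl⟩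
    rw [h2]
    exact h1.insert ⟨z (a + n), ⟨a + n, by omega, le_rfl, rfl⟩, h (a + n) (by omega) (by omega)⟩

end lvC4Aux

open lvC4Aux

theorem lvC4 : S_C4c := by
  intro hA1 hC2 V _ G s X₁ X₂ hno hdis hjoin hs
  classical
  by_contra hcon
  push Not at hcon
  obtain ⟨hL, hbig⟩ := hcon
  obtain ⟨v, hv, l, z, hz⟩ := hC2 V G X₁ hL
  have hz1 : ICyc G X₁ l z := ⟨hz.1, fun i hi => (hz.2.1 i hi).1, hz.2.2⟩
  have hb := hbig v hv l z hz1
  obtain ⟨hl, hzY, hinj, hadj⟩ := hz
  obtain ⟨r, hr, hrinj⟩ := choose_seq s _ v (show s ≤ (X₁ \ ({v} ∪ {w | ∃ i < l, z i = w})).ncard by omega)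
  obtain ⟨f, hf, hfinj⟩ := choose_seq s X₂ v hs
  have hdj : ∀ a ∈ X₁, ∀ b ∈ X₂, a ≠ b := by
    intro a ha b hb hab
    rw [hab] at ha
    exact Set.disjoint_left.1 hdis ha hb
  have hsucc : ∀ i, i + 1 < l → G.Adj (z i) (z (i + 1)) := fun i hi =>
    (hadj i (by omega) (i + 1) hi).2 (Or.inl rfl)
  have hlast : G.Adj (z 0) (z (l - 1)) :=
    (hadj 0 (by omega) (l - 1) (by omega)).2 (Or.inr (Or.inr (Or.inl ⟨rfl, by omega⟩)))
  let X : ℕ → Set V := fun a => if a = 0 then {z 0} else if a = 1 then {z 1} else {w | ∃ i, 2 ≤ i ∧ i ≤ 2 + (l - 3) ∧ z i = w}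
  have X0 : X 0 = {z 0} := rfl
  have X1 : X 1 = {z 1} := rfl
  have X2 : X 2 = {w | ∃ i, 2 ≤ i ∧ i ≤ 2 + (l - 3) ∧ z i = w} := rfl
  have hXz : ∀ a < 3, ∀ x ∈ X a, ∃ i < l, z i = x := by
    intro a ha x hx
    interval_cases a
    · rw [X0] at hx
      exact ⟨0, by omega, hx.symm⟩
    · rw [X1] at hx
      exact ⟨1, by omega, hx.symm⟩
    · rw [X2] at hx
      obtain ⟨i, h1, h2, h3⟩ := hx
      exact ⟨i, by omega, h3⟩
  have hXne : ∀ a < 3, ∃ i < l, z i ∈ X a := by
    intro a ha
    interval_cases a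
    · exact ⟨0, by omega, rfl⟩
    · exact ⟨1, by omega, rfl⟩
    · exact ⟨2, by omega, 2, le_rfl, by omega, rfl⟩
  apply hno
  refine hA1 V G s {v} (fun i => {r i, f i}) X (Conn.singleton G v) ?_ ?_ ?_ ?_ ?_ ?_ ?_
  · intro i hi
    exact Conn.pair (hjoin _ (hr i hi).1 _ (hf i hi))
  · intro a ha
    interval_cases a
    · exact Conn.singleton G _
    · exact Conn.singleton G _
    · exact conn_path G z 2 (l - 3) (fun i h1 h2 => hsucc i (by omega))
  · intro i hi
    refine ⟨?_, v, rfl, f i, Or.inr rfl, hjoin v hv _ (hf i hi)⟩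
    rw [Set.disjoint_left]
    rintro x hx hx'
    have hxv : x = v := hx
    rcases hx' with h | h
    · apply (hr i hi).2
      left
      rw [← h]
      exact hx
    · have h' : x = f i := h
      exact hdj v hv _ (hf i hi) (hxv.symm.trans h')
  · intro a ha
    constructor
    · rw [Set.disjoint_left]
      intro x hx hx'
      obtain ⟨i, hi, hzi⟩ := hXz a ha x hx'
      have h := (hzY i hi).2.1
      rw [hzi] at h
      exact h hx
    · rintro ⟨x, hx, y, hy, hxy⟩
      obtain ⟨i, hi, hzi⟩ := hXz a ha y hy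
      have h := (hzY i hi).2.2
      rw [hzi] at h
      have hx' : x = v := hx
      rw [hx'] at hxy
      exact h hxy
  · intro i hi j hj hij
    refine ⟨?_, r i, Or.inl rfl, f j, Or.inr rfl, hjoin _ (hr i hi).1 _ (hf j hj)⟩
    rw [Set.disjoint_left]
    rintro x hx hx'
    rcases hx with h | h
    · rcases hx' with h' | h'
      · have h1 : x = r i := h
        have h2 : x = r j := h'
        exact hij (hrinj i hi j hj (h1.symm.trans h2))
      · have h1 : x = r i := h
        have h2 : x = f j := h'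
        exact hdj _ (hr i hi).1 _ (hf j hj) (h1.symm.trans h2)
    · rcases hx' with h' | h'
      · have h1 : x = f i := h
        have h2 : x = r j := h'
        exact hdj _ (hr j hj).1 _ (hf i hi) (h2.symm.trans h1)
      · have h1 : x = f i := h
        have h2 : x = f j := h'
        exact hij (hfinj i hi j hj (h1.symm.trans h2))
  · have key01 : Disjoint (X 0) (X 1) ∧ Tch G (X 0) (X 1) := by
      refine ⟨?_, z 0, rfl, z 1, rfl, hsucc 0 (by omega)⟩
      rw [Set.disjoint_left]
      intro x h1 h2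
      have h1' : x = z 0 := h1
      have h2' : x = z 1 := h2
      have := hinj 0 (by omega) 1 (by omega) (h1'.symm.trans h2')
      omega
    have key12 : Disjoint (X 1) (X 2) ∧ Tch G (X 1) (X 2) := by
      refine ⟨?_, z 1, rfl, z 2, ⟨2, le_rfl, by omega, rfl⟩, hsucc 1 (by omega)⟩
      rw [Set.disjoint_left]
      rintro x h1 ⟨i, h2, h3, h4⟩
      have h1' : x = z 1 := h1
      have := hinj 1 (by omega) i (by omega) (h1'.symm.trans h4.symm)
      omega
    have key02 : Disjoint (X 0) (X 2) ∧ Tch G (X 0) (X 2) := by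
      refine ⟨?_, z 0, rfl, z (l - 1), ⟨l - 1, by omega, by omega, rfl⟩, hlast⟩
      rw [Set.disjoint_left]
      rintro x h1 ⟨i, h2, h3, h4⟩
      have h1' : x = z 0 := h1
      have := hinj 0 (by omega) i (by omega) (h1'.symm.trans h4.symm)
      omega
    intro a ha b hb hab
    interval_cases a <;> interval_cases b
    · exact absurd rfl hab
    · exact key01
    · exact key02
    · exact ⟨key01.1.symm, key01.2.symm⟩
    · exact absurd rfl hab
    · exact key12
    · exact ⟨key02.1.symm, key02.2.symm⟩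
    · exact ⟨key12.1.symm, key12.2.symm⟩
    · exact absurd rfl hab
  · intro i hi a ha
    constructor
    · rw [Set.disjoint_left]
      rintro x hx hx'
      obtain ⟨j, hj, hzj⟩ := hXz a ha x hx'
      rcases hx with h | h
      · apply (hr i hi).2
        right
        exact ⟨j, hj, hzj.trans h⟩
      · have h' : x = f i := h
        have h1 := (hzY j hj).1
        rw [hzj] at h1
        exact hdj _ h1 _ (hf i hi) h'
    · obtain ⟨j, hj, hzj⟩ := hXne a ha
      exact ⟨f i, Or.inr rfl, z j, hzj, (hjoin _ (hzY j hj).1 _ (hf i hi)).symm⟩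

end Pool.Agent.MPd439b2
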