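import Pool.Agent.Lib.MP_d439b2_co.LV.Spec

/-!
# MP_d439b2_co, LV/C5: layout of a cycle with few more vertices
-/

set_option autoImplicit false

namespace Pool.Agent.MPd439b2

namespace lvC5Aux

variable {V : Type}

theorem grow [Finite V] (hY3 : S_Y3) (G : SimpleGraph V) {k₀ : ℕ} (hk₀ : 1 ≤ k₀) {Y : Set V}
    (hY : Lay (restr G Y) k₀ Y) : ∀ (n : ℕ) (X : Set V), Y ⊆ X → (X \ Y).ncard ≤ n →
      Lay (restr G X) (3 ^ n * k₀) X := by
  intro n
  induction n with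
  | zero =>
    intro X hYX hX
    have h1 : X \ Y = ∅ := (Set.ncard_eq_zero (Set.toFinite _)).1 (Nat.le_zero.1 hX)
    have h2 : X = Y := Set.Subset.antisymm (Set.sdiff_eq_empty.1 h1) hYX
    rw [h2]
    exact hY.mono (by omega)
  | succ n ih =>
    intro X hYX hX
    rcases Set.eq_empty_or_nonempty (X \ Y) with h1 | ⟨x, hxX, hxY⟩
    · have h2 : X = Y := Set.Subset.antisymm (Set.sdiff_eq_empty.1 h1) hYX
      rw [h2]
      refine hY.mono ?_
      have h3 : 1 ≤ 3 ^ (n + 1) := Nat.one_le_pow _ _ (by norm_num)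
      nlinarith
    · have h2 : Y ⊆ X \ {x} := fun y hy => ⟨hYX hy, fun h0 => hxY (h0 ▸ hy)⟩
      have h3 : ((X \ {x}) \ Y).ncard ≤ n := by
        have h4 : (X \ {x}) \ Y = (X \ Y) \ {x} := by
          ext w
          constructor
          · rintro ⟨⟨h5, h6⟩, h7⟩
            exact ⟨⟨h5, h7⟩, h6⟩
          · rintro ⟨⟨h5, h6⟩, h7⟩
            exact ⟨⟨h5, h7⟩, h6⟩
        have h5 : x ∈ X \ Y := ⟨hxX, hxY⟩
        rw [h4, Set.ncard_sdiff_singleton_of_mem h5]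
        omega
      have h4 := hY3 V G (3 ^ n * k₀) X x (ih _ h2 h3)
      refine h4.mono ?_
      have h5 : 1 ≤ 3 ^ n := Nat.one_le_pow _ _ (by norm_num)
      have h6 : 1 ≤ 3 ^ n * k₀ := Nat.mul_pos h5 hk₀
      rw [pow_succ]
      nlinarith

end lvC5Aux

theorem lvC5 : S_C5c := by
  intro hY3 V _ G s k₀ l X₁ v z hk₀ hHK hz hcard
  obtain ⟨hl, hzX, hinj, hadj⟩ := hz
  set Y : Set V := {w | ∃ i, 1 ≤ i ∧ i < l ∧ z i = w} with hYdef
  have hYX : Y ⊆ X₁ := by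
    rintro w ⟨i, -, hi, rfl⟩
    exact hzX i hi
  have hnb : ∀ y ∈ Y, ∃ w, G.Adj y w := by
    rintro w ⟨i, hi1, hi, rfl⟩
    refine ⟨z (i - 1), (hadj i hi (i - 1) (by omega)).2 (Or.inr (Or.inl (by omega)))⟩
  have hLCF : LCF Gᶜ Y := by
    intro u hu Y' hY' hne
    classical
    have hex : ∃ i, 1 ≤ i ∧ i < l ∧ z i ∈ Y' := by
      obtain ⟨y, hy⟩ := hne
      obtain ⟨i, hi1, hi, hiy⟩ := (hY' hy).1
      exact ⟨i, hi1, hi, hiy.symm ▸ hy⟩
    have hsp := Nat.find_spec hex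
    have hmin : ∀ j, 1 ≤ j → j < l → z j ∈ Y' → Nat.find hex ≤ j := fun j h1 h2 h3 =>
      Nat.find_min' hex ⟨h1, h2, h3⟩
    set i := Nat.find hex with hi
    refine ⟨z i, hsp.2.2, ?_⟩
    have hsub : {w | w ∈ Y' ∧ w ≠ z i ∧ ¬ Gᶜ.Adj (z i) w} ⊆ {z (i + 1)} := by
      rintro w ⟨hwY, hwz, hwa⟩
      obtain ⟨j, hj1, hj, rfl⟩ := (hY' hwY).1
      have h1 : G.Adj (z i) (z j) := by
        by_contra h0
        exact hwa ((SimpleGraph.compl_adj _ _ _).2 ⟨hwz.symm, h0⟩)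
      have h2 := hmin j hj1 hj hwY
      have h3 : j ≠ i := fun h0 => hwz (by rw [h0])
      have h4 := (hadj i hsp.2.1 j hj).1 h1
      have h5 : j = i + 1 := by omega
      rw [h5]
      rfl
    exact (Set.ncard_le_ncard hsub (Set.toFinite _)).trans (by rw [Set.ncard_singleton])
  have hLay := hHK Y hnb hLCF
  refine lvC5Aux.grow hY3 G hk₀ hLay (s + 2) X₁ hYX ?_
  have hsub : X₁ \ Y ⊆ {z 0, v} ∪ (X₁ \ ({v} ∪ {w | ∃ i < l, z i = w})) := by
    rintro w ⟨hw, hwY⟩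
    by_cases h1 : w = v
    · exact Or.inl (Or.inr h1)
    · by_cases h2 : ∃ i < l, z i = w
      · obtain ⟨i, hi, hiw⟩ := h2
        rcases Nat.eq_zero_or_pos i with h3 | h3
        · subst h3
          exact Or.inl (Or.inl hiw.symm)
        · exact absurd ⟨i, h3, hi, hiw⟩ hwY
      · refine Or.inr ⟨hw, ?_⟩
        rintro (h3 | h3)
        · exact h1 h3
        · exact h2 h3
  have h1 : ({z 0, v} : Set V).ncard ≤ 2 := by
    have h2 := Set.ncard_insert_le (z 0) ({v} : Set V)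
    rw [Set.ncard_singleton] at h2
    exact h2
  calc (X₁ \ Y).ncard ≤ ({z 0, v} ∪ (X₁ \ ({v} ∪ {w | ∃ i < l, z i = w}))).ncard :=
        Set.ncard_le_ncard hsub (Set.toFinite _)
    _ ≤ ({z 0, v} : Set V).ncard + (X₁ \ ({v} ∪ {w | ∃ i < l, z i = w})).ncard := Set.ncard_union_le _ _
    _ ≤ s + 2 := by omega

end Pool.Agent.MPd439b2
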