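import Pool.Agent.Lib.MP_d439b2_co.LV.Spec

/-!
# MP_d439b2_co, LV/C6: layout of a join
-/

set_option autoImplicit false

namespace Pool.Agent.MPd439b2

namespace lvC6Aux

variable {V : Type}

theorem types_add (G : SimpleGraph V) {k : ℕ} {R F A : Set V} (hd : Disjoint R F)
    (hRF : ∀ a ∈ R, ∀ b ∈ F, G.Adj a b) (hA : A ⊆ R)
    (h : (Types (restr G R) A).encard ≤ k) :
    (Types (restr G (R ∪ F)) A).encard ≤ ((k + 1 : ℕ) : ℕ∞) := by
  have h1 : Types (restr G (R ∪ F)) A ⊆ (fun T => T ∪ F) '' (insert ∅ (Types (restr G R) A)) := by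
    rintro T ⟨hT, a, ha, rfl⟩
    refine ⟨(restr G R).neighborSet a \ A, ?_, ?_⟩
    · rcases Set.eq_empty_or_nonempty ((restr G R).neighborSet a \ A) with h0 | h0
      · rw [h0]
        exact Set.mem_insert _ _
      · exact Set.mem_insert_of_mem _ ⟨h0, a, ha, rfl⟩
    · ext w
      constructor
      · rintro (⟨⟨hw, h2, h3⟩, hwA⟩ | hw)
        · exact ⟨⟨hw, Or.inl h2, Or.inl h3⟩, hwA⟩
        · exact ⟨⟨hRF a (hA ha) w hw, Or.inl (hA ha), Or.inr hw⟩,
            fun h0 => Set.disjoint_left.1 hd (hA h0) hw⟩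
      · rintro ⟨⟨hw, -, hwX⟩, hwA⟩
        rcases hwX with hwX | hwX
        · exact Or.inl ⟨⟨hw, hA ha, hwX⟩, hwA⟩
        · exact Or.inr hwX
  calc (Types (restr G (R ∪ F)) A).encard
      ≤ ((fun T => T ∪ F) '' (insert ∅ (Types (restr G R) A))).encard := Set.encard_le_encard h1
    _ ≤ (insert ∅ (Types (restr G R) A)).encard := Set.encard_image_le _ _
    _ ≤ (Types (restr G R) A).encard + 1 := Set.encard_insert_le _ _
    _ ≤ (k : ℕ∞) + 1 := add_le_add h le_rfl
    _ = ((k + 1 : ℕ) : ℕ∞) := by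
      push_cast
      rfl

theorem key (G : SimpleGraph V) {k : ℕ} {R F A : Set V} (hd : Disjoint R F)
    (hRF : ∀ a ∈ R, ∀ b ∈ F, G.Adj a b) (h : Lay (restr G R) k A) :
    A ⊆ R → Lay (restr G (R ∪ F)) (k + 1) A := by
  induction h with
  | empty => exact fun _ => Lay.empty
  | single v h => exact fun hA => Lay.single v (types_add G hd hRF hA h)
  | union _ _ hd' ht ihA ihB =>
    exact fun hA => Lay.union (ihA (Set.subset_union_left.trans hA)) (ihB (Set.subset_union_right.trans hA)) hd'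
      (types_add G hd hRF hA ht)

end lvC6Aux

theorem lvC6 : S_C6c := by
  intro V G k R F hd hRF hR hF
  have h1 := lvC6Aux.key G hd hRF hR (subset_refl _)
  have h2 := lvC6Aux.key G hd.symm (fun a ha b hb => (hRF b hb a ha).symm) hF (subset_refl _)
  rw [Set.union_comm F R] at h2
  have h3 : Types (restr G (R ∪ F)) (R ∪ F) = ∅ := by
    rw [Set.eq_empty_iff_forall_notMem]
    rintro T ⟨⟨w, hw⟩, a, ha, rfl⟩
    exact hw.2 hw.1.2.2
  refine Lay.union h1 h2 hd ?_
  rw [h3, Set.encard_empty]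
  exact zero_le

end Pool.Agent.MPd439b2
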