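import Pool.Agent.Lib.MP_d439b2_co.LV.Spec

set_option autoImplicit false

namespace Pool.Agent.MPd439b2

namespace lvICAux

theorem bound {V : Type} [Finite V] (G : SimpleGraph V) (Y : Set V) (m : ℕ) (p : ℕ → V) (h : IPath G Y m p) :
    m + 1 ≤ Nat.card V := by
  have h1 : Function.Injective (fun i : Fin (m + 1) => p i.val) := by
    intro i j hij
    exact Fin.ext (h.2.1 i.val (by omega) j.val (by omega) hij)
  have h2 := Nat.card_le_card_of_injective _ h1
  rwa [Nat.card_eq_fintype_card, Fintype.card_fin] at h2

theorem exists_max {V : Type} [Finite V] (G : SimpleGraph V) (Y : Set V) (hY : Y.Nonempty) :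
    ∃ m p, IPath G Y m p ∧ ∀ q, ¬ IPath G Y (m + 1) q := by
  by_contra hcon
  push Not at hcon
  have h : ∀ m, ∃ p, IPath G Y m p := by
    intro m
    induction m with
    | zero =>
      obtain ⟨y, hy⟩ := hY
      refine ⟨fun _ => y, fun _ _ => hy, fun i hi j hj _ => by omega, fun i hi j hj => ?_⟩
      constructor
      · intro h
        exact absurd h (G.loopless.irrefl y)
      · intro h
        omega
    | succ m ih =>
      obtain ⟨p, hp⟩ := ih
      exact hcon m p hp
  obtain ⟨p, hp⟩ := h (Nat.card V)
  have := bound G Y _ p hp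
  omega

/-- a new vertex which is only adjacent to the first vertex of the path -/
theorem longer {V : Type} (G : SimpleGraph V) (Y : Set V) (m : ℕ) (p : ℕ → V) (hp : IPath G Y m p) (y : V)
    (hy : y ∈ Y) (hne : ∀ j ≤ m, y ≠ p j) (h0 : G.Adj (p 0) y) (hj : ∀ j ≤ m, 1 ≤ j → ¬ G.Adj y (p j)) :
    ∃ q, IPath G Y (m + 1) q := by
  refine ⟨fun i => if i = 0 then y else p (i - 1), fun i hi => ?_, fun i hi j hj' hij => ?_, fun i hi j hj' => ?_⟩
  · simp only
    split_ifs with h
    · exact hy
    · exact hp.1 _ (by omega)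
  · simp only at hij
    split_ifs at hij with h1 h2 h2
    · omega
    · exact absurd hij (hne _ (by omega))
    · exact absurd hij.symm (hne _ (by omega))
    · have := hp.2.1 _ (by omega) _ (by omega) hij
      omega
  · simp only
    split_ifs with h1 h2 h2
    · constructor
      · intro h
        exact absurd h (G.loopless.irrefl y)
      · intro h
        omega
    · constructor
      · intro h
        by_contra hc
        exact hj (j - 1) (by omega) (by omega) h
      · intro h
        have h3 : j - 1 = 0 := by omega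
        rw [h3]
        exact h0.symm
    · constructor
      · intro h
        by_contra hc
        exact hj (i - 1) (by omega) (by omega) h.symm
      · intro h
        have h3 : i - 1 = 0 := by omega
        rw [h3]
        exact h0
    · rw [hp.2.2 (i - 1) (by omega) (j - 1) (by omega)]
      omega

end lvICAux

open lvICAux in
theorem lvIC : S_IC := by
  classical
  intro V _ G Y hY hdeg
  obtain ⟨m, p, hp, hmax⟩ := exists_max G Y hY
  -- a neighbour of the first vertex which is not on the path
  have h2 := hdeg (p 0) (hp.1 0 (Nat.zero_le _))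
  have h3 : 1 < {w | w ∈ Y ∧ G.Adj (p 0) w}.ncard := h2
  rw [Set.one_lt_ncard (Set.toFinite _)] at h3
  obtain ⟨a, ha, b, hb, hab⟩ := h3
  obtain ⟨y, hy, hy0, hy1⟩ : ∃ y ∈ Y, G.Adj (p 0) y ∧ y ≠ p 1 := by
    by_cases h : a = p 1
    · exact ⟨b, hb.1, hb.2, fun h4 => hab (h.trans h4.symm)⟩
    · exact ⟨a, ha.1, ha.2, h⟩
  have hne : ∀ j ≤ m, y ≠ p j := by
    intro j hj hyj
    have h4 := (hp.2.2 0 (by omega) j hj).1 (by rw [← hyj]; exact hy0)
    have h5 : j = 1 := by omega
    rw [h5] at hyj
    exact hy1 hyj
  have hex : ∃ j, j ≤ m ∧ 1 ≤ j ∧ G.Adj y (p j) := by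
    by_contra hcon
    push Not at hcon
    obtain ⟨q, hq⟩ := longer G Y m p hp y hy hne hy0 hcon
    exact hmax q hq
  obtain ⟨hk1, hk2, hk3⟩ := Nat.find_spec hex
  have hmin : ∀ j, 1 ≤ j → j < Nat.find hex → ¬ G.Adj y (p j) := by
    intro j h1 h4 h5
    exact Nat.find_min hex h4 ⟨by omega, h1, h5⟩
  obtain ⟨k, hk⟩ : ∃ k, k = Nat.find hex := ⟨_, rfl⟩
  rw [← hk] at hk1 hk2 hk3 hmin
  have hyadj : ∀ j ≤ k, (G.Adj y (p j) ↔ j = 0 ∨ j = k) := by
    intro j hj
    constructor
    · intro h
      by_contra hc
      exact hmin j (by omega) (by omega) h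
    · rintro (rfl | rfl)
      · exact hy0.symm
      · exact hk3
  refine ⟨k + 2, fun i => if i = 0 then y else p (i - 1), by omega, fun i hi => ?_, fun i hi j hj hij => ?_,
    fun i hi j hj => ?_⟩
  · simp only
    split_ifs with h
    · exact hy
    · exact hp.1 _ (by omega)
  · simp only at hij
    split_ifs at hij with h4 h5 h5
    · omega
    · exact absurd hij (hne _ (by omega))
    · exact absurd hij.symm (hne _ (by omega))
    · have := hp.2.1 _ (by omega) _ (by omega) hij
      omega
  · simp only
    split_ifs with h4 h5 h5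
    · constructor
      · intro h
        exact absurd h (G.loopless.irrefl y)
      · intro h
        omega
    · rw [hyadj (j - 1) (by omega)]
      omega
    · rw [G.adj_comm, hyadj (i - 1) (by omega)]
      omega
    · rw [hp.2.2 (i - 1) (by omega) (j - 1) (by omega)]
      omega

end Pool.Agent.MPd439b2
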