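import Pool.Agent.Lib.MP_d439b2_co.LV.Spec

/-!
# MP_d439b2_co, partner `K_s ∨ (K_3 + P_1)`, module M1: the structure theorem for a large model
-/

set_option autoImplicit false

namespace Pool.Agent.MPd439b2

namespace lvM1Aux

variable {V : Type} {G : SimpleGraph V}

/-- one side of the join has a layout -/
theorem side (hC4 : C_C4) (hC5 : C_C5) [Finite V] {s k₀ : ℕ} {X₁ X₂ : Set V} (hk₀ : 1 ≤ k₀)
    (hK : ¬ IMS (KC s) G Set.univ) (hHK : HK G k₀) (hd : Disjoint X₁ X₂)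
    (ha : ∀ a ∈ X₁, ∀ b ∈ X₂, G.Adj a b) (hs : s ≤ X₂.ncard) (hn : ∀ y ∈ X₁, ∃ w, G.Adj y w) :
    Lay (restr G X₁) (3 ^ (s + 2) * k₀) X₁ := by
  rcases hC4 V G s X₁ X₂ hK hd ha hs with h | ⟨v, _, l, z, hz, hcard⟩
  · exact (hHK X₁ hn h).mono (Nat.le_mul_of_pos_left k₀ (pow_pos (by norm_num) _))
  · exact hC5 V G s k₀ l X₁ v z hk₀ hHK hz hcard

/-- every large vertex has a neighbour -/
theorem large_nb {I : Finset ℕ} {B : ℕ → Set V} (hM : Mdl G I B) (hI : 4 ≤ I.card) {v : V}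
    (hv : v ∈ Lg G I B) : ∃ w, G.Adj v w := by
  classical
  have h1 := hitI_single_le (I := I) (B := B) (fun i hi j hj hij => (hM.2 i hi j hj hij).1) v
  have h2 : (misI G I B {v}).card ≤ 2 := hv
  have h3 := card_hit_tch_mis G I B {v}
  have h4 : 0 < (tchI G I B {v}).card := by omega
  obtain ⟨i, hi⟩ := Finset.card_pos.1 h4
  obtain ⟨a, ha, b, _, hab⟩ := (mem_tchI.1 hi).2.2
  rw [Set.mem_singleton_iff] at ha
  exact ⟨b, ha ▸ hab⟩

/-- the conditions on the components -/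
theorem comps (hB1 : C_B1) (hB4 : C_B4) [Finite V] {s : ℕ} {I : Finset ℕ} {B : ℕ → Set V} {T₁ A : Set V}
    (hK : ¬ IMS (KC s) G Set.univ) (hM : Mdl G I B) (hI : 4 * s + 6 ≤ I.card)
    (hT : ∀ Z, IsComp G (Lg G I B)ᶜ Z → (nb G Z \ T₁).ncard ≤ 1) (hA : Disjoint A T₁) {D : Set V}
    (hD : IsComp G (Lg G I B)ᶜ D) : (nb G D ∩ A).ncard ≤ 1 ∧ (nb G D).ncard ≤ s := by
  have h1 := hT D hD
  refine ⟨(Set.ncard_le_ncard ?_ (Set.toFinite _)).trans h1, ?_⟩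
  · rintro x ⟨hx, hxA⟩
    exact ⟨hx, Set.disjoint_left.1 hA hxA⟩
  · have h2 : nb G D ⊆ Lg G I B := by
      intro x hx
      by_contra hxL
      exact hD.2.2 x hxL hx
    have h3 : Disjoint D (Lg G I B) := Set.disjoint_left.2 fun x hx => hD.1 hx
    rcases hB4 V G s I B D hK hM hI hD.2.1 h3 with h4 | h4
    · rw [Set.inter_eq_left.2 h2] at h4
      exact h4.le
    · exfalso
      obtain ⟨v, hv⟩ := hD.2.1.1
      rcases hB1 V G s I B {v} hK hM (Conn.singleton G v) with h5 | h5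
      · omega
      · exact hD.1 hv h5

/-- a long induced cycle gives the join structure of the set of the large vertices -/
theorem joinL (hB7 : C_B7) (hB8 : C_B8) (hB9 : C_B9) (hC3 : C_C3) (hC4 : C_C4) (hC5 : C_C5)
    (hC6 : S_C6c) [Finite V] {s k₀ τ : ℕ} {I : Finset ℕ} {B : ℕ → Set V} {T₁ : Set V} {v : V} {l : ℕ}
    {z : ℕ → V} (hk₀ : 1 ≤ k₀) (hK : ¬ IMS (KC s) G Set.univ) (hHK : HK G k₀) (hM : Mdl G I B)
    (hI : 4 * s + 3 * τ + 400 ≤ I.card) (hT₁ : T₁.ncard ≤ τ)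
    (hT : ∀ Z, IsComp G (Lg G I B)ᶜ Z → (nb G Z \ T₁).ncard ≤ 1) (hv : v ∈ Lg G I B)
    (hz : ICyc G {w | w ∈ Lg G I B ∧ w ≠ v ∧ ¬ G.Adj v w} l z) :
    ∃ Q T₂ : Set V, T₂ ⊆ Lg G I B ∧ T₂.ncard ≤ 19 ∧ Lg G I B ⊆ Q ∪ T₂ ∧
      Lay (restr G Q) (3 ^ (s + 2) * k₀ + 1) Q := by
  classical
  have hl : I.card < s + l + 9 := by
    refine hB7 V G s I B v l z hK hM hv hz.1 hz.2.1 hz.2.2.1 ?_ ?_
    · intro i hi
      exact (hz.2.2.2 i (by omega) (i + 1) hi).2 (Or.inl rfl)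
    · have := hz.1
      exact (hz.2.2.2 (l - 1) (by omega) 0 (by omega)).2 (Or.inr (Or.inr (Or.inr ⟨rfl, by omega⟩)))
  obtain ⟨C, R, F, T₂, hCR, hRL, hFL, hcov, hT₂L, hRF, hT₂, hadj, hind, hlC, hcom⟩ :=
    hC3 V G (Lg G I B) v l z (fun C E hC hE hC' hE' =>
      hB8 V G s 42 I B C E hK hM hC hE hE' hC' (by omega)) hv hz (by omega)
  have hCcard : 3 ≤ (C \ T₁).ncard := by
    have h1 := Set.ncard_le_ncard_sdiff_add_ncard C T₁ (Set.toFinite _)
    omega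
  obtain ⟨a, b, c, ha, hb, hc, hab, hac, hbc⟩ := (Set.two_lt_ncard_iff (Set.toFinite _)).1 hCcard
  have hcomm : ∀ x ∈ C, ∀ y ∈ C, x ≠ y →
      {w | w ∈ Lg G I B ∧ G.Adj x w ∧ G.Adj y w}.ncard ≤ 20 + F.ncard := by
    intro x hx y hy hxy
    have h1 : {w | w ∈ Lg G I B ∧ G.Adj x w ∧ G.Adj y w} ⊆
        ({w | w ∈ R ∧ G.Adj x w ∧ G.Adj y w} ∪ F) ∪ T₂ := by
      rintro w ⟨hw, hxw, hyw⟩
      rcases hcov hw with (h | h) | h
      · exact Or.inl (Or.inl ⟨h, hxw, hyw⟩)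
      · exact Or.inl (Or.inr h)
      · exact Or.inr h
    have h2 := (Set.ncard_le_ncard h1 (Set.toFinite _)).trans (Set.ncard_union_le _ _)
    have h3 := Set.ncard_union_le {w | w ∈ R ∧ G.Adj x w ∧ G.Adj y w} F
    have h4 := hcom x hx y hy hxy
    omega
  have hF : s ≤ F.ncard := by
    have h9 := hB9 V G s I B T₁ ![a, b, c] hK hM (by omega) hT ?_ ?_ ?_
    · have h1 := hcomm a ha.1 b hb.1 hab
      have h2 := hcomm a ha.1 c hc.1 hac
      have h3 := hcomm b hb.1 c hc.1 hbc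
      simp only [Matrix.cons_val_zero, Matrix.cons_val_one, Matrix.cons_val] at h9
      omega
    · intro i
      fin_cases i
      · exact ⟨hRL (hCR ha.1), ha.2⟩
      · exact ⟨hRL (hCR hb.1), hb.2⟩
      · exact ⟨hRL (hCR hc.1), hc.2⟩
    · intro i j hij
      fin_cases i <;> fin_cases j <;> first
        | rfl
        | exact absurd hij hab
        | exact absurd hij hac
        | exact absurd hij hbc
        | exact absurd hij hab.symm
        | exact absurd hij hac.symm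
        | exact absurd hij hbc.symm
    · have hmem : ∀ i : Fin 3, (![a, b, c] : Fin 3 → V) i ∈ C := by
        intro i
        fin_cases i
        · exact ha.1
        · exact hb.1
        · exact hc.1
      intro i j
      exact hind _ (hmem i) _ (hmem j)
  have hR : s ≤ R.ncard := by
    have := Set.ncard_le_ncard hCR (Set.toFinite _)
    omega
  have hnb : ∀ y ∈ Lg G I B, ∃ w, G.Adj y w := fun y hy => large_nb hM (by omega) hy
  have h1 := side hC4 hC5 hk₀ hK hHK hRF hadj hF (fun y hy => hnb y (hRL hy))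
  have h2 := side hC4 hC5 hk₀ hK hHK hRF.symm (fun x hx y hy => (hadj y hy x hx).symm) hR
    (fun y hy => hnb y (hFL hy))
  exact ⟨R ∪ F, T₂, hT₂L, hT₂, hcov, hC6 V G _ R F hRF hadj h1 h2⟩

end lvM1Aux

open lvM1Aux in
theorem lvM1 : S_M1 := by
  classical
  intro hB1 hB2 hB4 hB5 hB7 hB8 hB9 hC2 hC3 hC4 hC5 hC6 hY2 s N m k₀ hk₀
  obtain ⟨τ₁, hτ₁⟩ : ∃ x : ℕ, x = s * ((2 * s + 1) * m) := ⟨_, rfl⟩
  obtain ⟨q, hq⟩ : ∃ x : ℕ, x = 2 * s * m := ⟨_, rfl⟩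
  refine ⟨4 * s + q + 6 * m + N + 3 * τ₁ + 400, τ₁ + 19, 3 ^ (s + 2) * k₀ + 1, ?_⟩
  intro t' ht V _ G B hK hDD hHK hM
  have hI : (Finset.range t').card = t' := Finset.card_range t'
  obtain ⟨T₁, hT₁L, hT₁, hT⟩ := hB5 V G s N m (Finset.range t') B hK hDD hM (by omega)
    (by rw [← hq]; omega)
  rw [← hτ₁] at hT₁
  have hfin : ∃ A T : Set V, T.ncard ≤ τ₁ + 19 ∧ Disjoint A T ∧
      Lay (restr G A) (3 ^ (s + 2) * k₀ + 1) A ∧ A ∪ T = Lg G (Finset.range t') B ∧ Disjoint A T₁ := by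
    by_cases hL : LCF Gᶜ (Lg G (Finset.range t') B)
    · have h1 : LCF Gᶜ (Lg G (Finset.range t') B \ T₁) := by
        intro v hv Y hY hYn
        exact hL v hv.1 Y (fun y hy => ⟨(hY hy).1.1, (hY hy).2⟩) hYn
      refine ⟨Lg G (Finset.range t') B \ T₁, T₁, by omega, Set.disjoint_sdiff_left, ?_,
        Set.sdiff_union_of_subset hT₁L, Set.disjoint_sdiff_left⟩
      refine (hHK _ (fun y hy => large_nb hM (by omega) hy.1) h1).mono ?_
      exact (Nat.le_mul_of_pos_left k₀ (pow_pos (by norm_num) _)).trans (Nat.le_succ _)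
    · obtain ⟨v, hv, l, z, hz⟩ := hC2 V G _ hL
      obtain ⟨Q, T₂, hT₂L, hT₂, hcov, hlay⟩ := joinL hB7 hB8 hB9 hC3 hC4 hC5 hC6 (τ := τ₁) hk₀ hK hHK hM
        (by omega) hT₁ hT hv hz
      refine ⟨Lg G (Finset.range t') B \ (T₁ ∪ T₂), T₁ ∪ T₂, ?_, Set.disjoint_sdiff_left, ?_,
        Set.sdiff_union_of_subset (Set.union_subset hT₁L hT₂L), ?_⟩
      · have := Set.ncard_union_le T₁ T₂
        omega
      · refine hY2 V G _ Q _ ?_ hlay
        rintro x ⟨hx, hxT⟩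
        rcases hcov hx with h | h
        · exact h
        · exact absurd (Or.inr h) hxT
      · exact Set.disjoint_left.2 fun x hx hx' => hx.2 (Or.inl hx')
  obtain ⟨A, T, hTc, hAT, hlay, hAL, hAT₁⟩ := hfin
  refine ⟨A, T, hTc, hAT, hlay, ?_, ?_⟩
  · intro i hi
    rw [hAL]
    exact hB2 V G s (Finset.range t') B hK hM (by omega) i (Finset.mem_range.2 hi)
  · intro D hD
    rw [hAL] at hD
    exact comps hB1 hB4 hK hM (by omega) hT hAT₁ hD

end Pool.Agent.MPd439b2
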