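import Pool.Agent.Lib.MP_d439b2_co.LV.Spec

/-!
# MP_d439b2_co, LV/M2: the structure of a graph seen from a large well linked set
-/

set_option autoImplicit false

namespace Pool.Agent.MPd439b2

theorem lvM2 : S_M2 := by
  intro hGK hStr s N m r k₀ hk₀
  obtain ⟨t, τ, k, hS⟩ := hStr s N m k₀ hk₀
  set t' := max t (s + 1) with ht'
  obtain ⟨θ, hθ⟩ := hGK t' r (s + 1) (le_max_right _ _)
  refine ⟨θ, τ, k, ?_⟩
  intro V _ G S hWL hSc hKC hDD hgr hHK
  rcases hθ θ le_rfl V G S hWL hSc with h1 | ⟨B, hB, hdeep⟩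
  · exact absurd h1 hgr
  set B' : ℕ → Set V := fun i => if h : i < t' then B ⟨i, h⟩ else ∅ with hB'
  have hB1 : ∀ i (h : i < t'), B' i = B ⟨i, h⟩ := fun i h => by
    simp only [hB']
    rw [dif_pos h]
  have hM : Mdl G (Finset.range t') B' := by
    refine ⟨fun i hi => ?_, fun i hi j hj hij => ?_⟩
    · rw [hB1 i (Finset.mem_range.1 hi)]
      exact hB.1 _
    · rw [hB1 i (Finset.mem_range.1 hi), hB1 j (Finset.mem_range.1 hj)]
      refine hB.2 _ _ fun h => hij ?_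
      exact congrArg Fin.val h
  obtain ⟨A, T, hT, hAT, hA, hmeet, hcomp⟩ := hS t' (le_max_left _ _) V G B' hKC hDD hHK hM
  refine ⟨A, T, hT, hAT, hA, fun D hD => ⟨(hcomp D hD).1, ?_⟩⟩
  obtain ⟨i, C, hCX, hC, hBC, hSC⟩ := hdeep (nb G D) (lt_of_le_of_lt (hcomp D hD).2 (Nat.lt_succ_self s))
  have hCD : Disjoint C D := by
    by_contra hne
    rw [Set.not_disjoint_iff] at hne
    obtain ⟨x, hxC, hxD⟩ := hne
    have h2 : C ∩ D = C := by
      by_contra h3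
      obtain ⟨b, hb, a, ha, hba⟩ := hC.2 (C ∩ D) Set.inter_subset_left ⟨x, hxC, hxD⟩ h3
      have h4 : a ∉ D := fun h0 => ha.2 ⟨ha.1, h0⟩
      exact Set.disjoint_left.1 hCX ha.1 ⟨h4, b, hb.2, hba⟩
    have h5 : B i ⊆ (A ∪ T)ᶜ := fun y hy => hD.1 ((Set.inter_eq_left.1 h2) (hBC hy))
    obtain ⟨y, hy1, hy2⟩ := hmeet i.val i.isLt
    rw [hB1 i.val i.isLt] at hy1
    exact h5 hy1 hy2
  have h6 : (S ∩ D).ncard + (S ∩ C).ncard ≤ S.ncard := by
    rw [← Set.ncard_union_eq (Set.disjoint_left.2 fun y hy1 hy2 => Set.disjoint_left.1 hCD hy2.2 hy1.2)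
      (Set.toFinite _) (Set.toFinite _)]
    exact Set.ncard_le_ncard (Set.union_subset Set.inter_subset_left Set.inter_subset_left) (Set.toFinite _)
  omega

end Pool.Agent.MPd439b2
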