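import Pool.Agent.Lib.MP_d439b2_co.LV.Spec
import Pool.Agent.Lib.MP_d439b2_co.B.Rec

/-!
# MP_d439b2_co, LV, M4: the recursion
-/

set_option autoImplicit false

namespace Pool.Agent.MPd439b2

namespace lvM4Aux

open recBAux

variable {V : Type}

theorem hasNb_KC {s : ℕ} (hs : 1 ≤ s) : ∀ w, ∃ w', (KC s).Adj w w' := by
  intro w
  rcases w with i | i
  · exact ⟨Sum.inr 0, trivial⟩
  · exact ⟨Sum.inl ⟨0, hs⟩, trivial⟩

theorem restr_restr (G : SimpleGraph V) {X Y : Set V} (h : Y ⊆ X) : restr (restr G X) Y = restr G Y := by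
  ext u v
  constructor
  · rintro ⟨⟨h1, -, -⟩, h2, h3⟩
    exact ⟨h1, h2, h3⟩
  · rintro ⟨h1, h2, h3⟩
    exact ⟨⟨h1, h h2, h h3⟩, h2, h3⟩

theorem hk_restr {G : SimpleGraph V} {k₀ : ℕ} (hG : ∀ Y : Set V, LCF Gᶜ Y → Lay (restr G Y) k₀ Y)
    (X : Set V) : HK (restr G X) k₀ := by
  intro Y hY hLCF
  have hYX : Y ⊆ X := by
    intro y hy
    obtain ⟨w, hw⟩ := hY y hy
    exact hw.2.1
  rw [restr_restr G hYX]
  apply hG
  intro v hv Z hZ hne
  have hsub : Z ⊆ {w | w ∈ Y ∧ (restr G X)ᶜ.Adj v w} := by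
    intro z hz
    obtain ⟨h1, h2⟩ := hZ hz
    refine ⟨h1, ?_⟩
    rw [SimpleGraph.compl_adj] at h2 ⊢
    exact ⟨h2.1, fun h3 => h2.2 h3.1⟩
  obtain ⟨y, hy, hcard⟩ := hLCF v hv Z hsub hne
  refine ⟨y, hy, ?_⟩
  have heq : {w | w ∈ Z ∧ w ≠ y ∧ ¬ Gᶜ.Adj y w} = {w | w ∈ Z ∧ w ≠ y ∧ ¬ (restr G X)ᶜ.Adj y w} := by
    ext w
    constructor
    · rintro ⟨h1, h2, h3⟩
      refine ⟨h1, h2, fun h4 => h3 ?_⟩
      rw [SimpleGraph.compl_adj] at h4 ⊢
      exact ⟨h4.1, fun h5 => h4.2 ⟨h5, hYX (hZ hy).1, hYX (hZ h1).1⟩⟩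
    · rintro ⟨h1, h2, h3⟩
      refine ⟨h1, h2, fun h4 => h3 ?_⟩
      rw [SimpleGraph.compl_adj] at h4 ⊢
      exact ⟨h4.1, fun h5 => h4.2 h5.1⟩
  rw [heq]
  exact hcard

theorem claim4 (hL : C_M3) (hR : S_Restr) (hY2 : S_Y2) {s N m r k₀ θ τ k₁ : ℕ} (hs : 1 ≤ s) (hN : 2 ≤ N)
    (hm : 2 * m ≤ N) (hr : 2 ≤ r)
    (hDG : ∀ (V : Type) [Finite V] (G : SimpleGraph V) (S : Set V),
      WL G S θ → 5 * θ ≤ S.ncard → ¬ IMS (KC s) G Set.univ → ¬ IMS (DD N m) G Set.univ →
      ¬ IMS (grid r) G Set.univ → HK G k₀ →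
      ∃ A T : Set V, T.ncard ≤ τ ∧ Disjoint A T ∧ Lay (restr G A) k₁ A ∧
        ∀ D, IsComp G (A ∪ T)ᶜ D → (nb G D ∩ A).ncard ≤ 1 ∧ 2 * (S ∩ D).ncard ≤ S.ncard)
    [Finite V] (G : SimpleGraph V) (hF1 : ¬ IMS (KC s) G Set.univ) (hF2 : ¬ IMS (DD N m) G Set.univ)
    (hG : ¬ IMS (grid r) G Set.univ) (hHK : ∀ Y : Set V, LCF Gᶜ Y → Lay (restr G Y) k₀ Y)
    (q k : ℕ) (hq : q = 5 * θ + 2 * τ + 3) (hk : k = 2 ^ (q + θ + τ + 2) * (k₁ + 2)) :
    ∀ (n : ℕ) (U S : Set V), U.ncard = n → Disjoint U S → nb G U ⊆ S → S.ncard ≤ q →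
      Lay G k U := by
  intro n
  induction n using Nat.strong_induction_on with
  | _ n ih =>
  intro U S hU hd hn hS
  have hpow' : ∀ e : ℕ, e ≤ q + θ + τ + 2 → 2 ^ e * (k₁ + 2) ≤ k := by
    intro e he
    rw [hk]
    exact Nat.mul_le_mul_right _ (Nat.pow_le_pow_right (by norm_num) he)
  have hpow : ∀ e : ℕ, e ≤ q + θ + τ + 2 → 2 ^ e ≤ k := by
    intro e he
    refine le_trans ?_ (hpow' e he)
    exact Nat.le_mul_of_pos_right _ (by omega)
  have hk1 : 1 ≤ k := le_trans Nat.one_le_two_pow (hpow 0 (Nat.zero_le _))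
  have hM : ∀ U' S' : Set V, U'.ncard ≤ n → Disjoint U' S' → nb G U' ⊆ S' → S'.ncard < q →
      Lay G k U' := by
    intro U' S' hU' hd' hn' hS'
    rcases U'.eq_empty_or_nonempty with h0 | ⟨v, hv⟩
    · rw [h0]; exact Lay.empty
    have h1 : (U' \ {v}).ncard + 1 = U'.ncard :=
      Set.ncard_sdiff_singleton_add_one hv (Set.toFinite _)
    have h2 : Lay G k (U' \ {v}) := by
      refine ih (U' \ {v}).ncard (by omega) (U' \ {v}) (insert v S') rfl ?_ ?_ ?_
      · rw [Set.disjoint_left]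
        rintro x ⟨hx1, hx2⟩ hx3
        rcases hx3 with hx3 | hx3
        · exact hx2 hx3
        · exact Set.disjoint_left.mp hd' hx1 hx3
      · rintro x ⟨hx1, a, ha, hax⟩
        by_cases hxv : x = v
        · exact Or.inl hxv
        · right
          apply hn'
          exact ⟨fun h => hx1 ⟨h, hxv⟩, a, ha.1, hax⟩
      · have := Set.ncard_insert_le v S'
        omega
    have h3 : insert v (U' \ {v}) = U' := by
      ext x
      constructor
      · rintro (h | h)
        · rw [h]; exact hv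
        · exact h.1
      · intro h
        by_cases hx : x = v
        · exact Or.inl hx
        · exact Or.inr ⟨h, hx⟩
    have h4 := h2.insert hk1 (v := v) (fun h => h.2 rfl)
      (by rw [h3]; exact types_le hn' hS'.le (hpow _ (by omega)))
    rwa [h3] at h4
  by_cases hSq : S.ncard < q
  · exact hM U S hU.le hd hn hSq
  have hSq' : S.ncard = q := by omega
  -- the restricted graph
  have hG' : ¬ IMS (grid r) (restr G (U ∪ S)) Set.univ := fun h =>
    hG (hR _ _ G (grid r) (U ∪ S) (hasNb_grid hr) h)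
  have hF1' : ¬ IMS (KC s) (restr G (U ∪ S)) Set.univ := fun h =>
    hF1 (hR _ _ G (KC s) (U ∪ S) (hasNb_KC hs) h)
  have hF2' : ¬ IMS (DD N m) (restr G (U ∪ S)) Set.univ := fun h =>
    hF2 (hR _ _ G (DD N m) (U ∪ S) (hasNb_DD hN hm) h)
  have hnbU : ∀ u ∈ U, ∀ v, G.Adj u v → v ∈ U ∪ S := by
    intro u hu v huv
    by_cases hv : v ∈ U
    · exact Or.inl hv
    · exact Or.inr (hn ⟨hv, u, hu, huv⟩)
  by_cases hWL : WL (restr G (U ∪ S)) S θ
  · -- CASE 2
    obtain ⟨A, T, hT, hAT, hLA, hD⟩ := hDG V (restr G (U ∪ S)) S hWL (by omega) hF1' hF2' hG'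
      (hk_restr hHK _)
    refine hL V G k k₁ U S (A ∩ (U ∪ S)) (T ∩ (U ∪ S)) hd hn Set.inter_subset_right ?_ ?_ ?_ ?_
    · exact hAT.mono Set.inter_subset_left Set.inter_subset_left
    · have h1 := hY2 V (restr G (U ∪ S)) k₁ A (A ∩ (U ∪ S)) Set.inter_subset_left hLA
      rwa [restr_restr G Set.inter_subset_right] at h1
    · have h1 : (T ∩ (U ∪ S)).ncard ≤ T.ncard :=
        Set.ncard_le_ncard Set.inter_subset_left (Set.toFinite _)
      exact hpow' _ (by omega)
    · intro D hDc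
      obtain ⟨hD1, hD2, hD3⟩ := hDc
      have hDX : ∀ x ∈ D, x ∈ U ∪ S := fun x hx => (hD1 hx).1
      have hcomp : IsComp (restr G (U ∪ S)) (A ∪ T)ᶜ D := by
        refine ⟨?_, ?_, ?_⟩
        · intro x hx hxAT
          apply (hD1 hx).2
          rcases hxAT with h | h
          · exact Or.inl ⟨h, hDX x hx⟩
          · exact Or.inr ⟨h, hDX x hx⟩
        · exact hD2.mono_graph fun u hu v hv huv => ⟨huv, hDX u hu, hDX v hv⟩
        · rintro u hu ⟨hu1, a, ha, hau⟩
          refine hD3 u ⟨hau.2.2, ?_⟩ ⟨hu1, a, ha, hau.1⟩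
          rintro (h | h)
          · exact hu (Or.inl h.1)
          · exact hu (Or.inr h.1)
      obtain ⟨hD4, hD5⟩ := hD D hcomp
      have hsub : nb G D ∩ (A ∩ (U ∪ S)) ⊆ nb (restr G (U ∪ S)) D ∩ A := by
        rintro x ⟨⟨hx1, a, ha, hax⟩, hx2, hx3⟩
        exact ⟨⟨hx1, a, ha, hax, hDX a ha, hx3⟩, hx2⟩
      refine ⟨(Set.ncard_le_ncard hsub (Set.toFinite _)).trans hD4, ?_⟩
      refine hM (U ∩ D) ((S ∩ D) ∪ nb (restr G (U ∪ S)) D) ?_ ?_ ?_ ?_
      · rw [← hU]
        exact Set.ncard_le_ncard Set.inter_subset_left (Set.toFinite _)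
      · rw [Set.disjoint_left]
        rintro x ⟨hx1, hx2⟩ (hx3 | hx3)
        · exact Set.disjoint_left.mp hd hx1 hx3.1
        · exact hx3.1 hx2
      · rintro x ⟨hx1, a, ha, hax⟩
        have hxX := hnbU a ha.1 x hax
        by_cases hxD : x ∈ D
        · left
          refine ⟨?_, hxD⟩
          rcases hxX with h | h
          · exact absurd ⟨h, hxD⟩ hx1
          · exact h
        · right
          exact ⟨hxD, a, ha.2, hax, hDX a ha.2, hxX⟩
      · have h1 : nb (restr G (U ∪ S)) D ⊆ (nb (restr G (U ∪ S)) D ∩ A) ∪ T := by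
          intro x hx
          by_cases hxA : x ∈ A
          · exact Or.inl ⟨hx, hxA⟩
          · by_cases hxT : x ∈ T
            · exact Or.inr hxT
            · exfalso
              exact hcomp.2.2 x (fun h => h.elim hxA hxT) hx
        have h2 := Set.ncard_le_ncard h1 (Set.toFinite _)
        have h3 := Set.ncard_union_le (nb (restr G (U ∪ S)) D ∩ A) T
        have h4 := Set.ncard_union_le (S ∩ D) (nb (restr G (U ∪ S)) D)
        omega
  · -- CASE 1
    unfold WL at hWL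
    push Not at hWL
    obtain ⟨P, Z, R, hun, hPZ, hZR, hPR, hno, hZ, hSP, hSR⟩ := hWL
    have hcase : ∀ x, x ∈ P ∨ x ∈ Z ∨ x ∈ R := by
      intro x
      have hx : x ∈ P ∪ Z ∪ R := by rw [hun]; exact Set.mem_univ x
      rcases hx with (h | h) | h
      · exact Or.inl h
      · exact Or.inr (Or.inl h)
      · exact Or.inr (Or.inr h)
    have hsum : (S ∩ P).ncard + (S ∩ R).ncard ≤ q := by
      rw [← hSq', ← Set.ncard_union_eq (hPR.mono Set.inter_subset_right Set.inter_subset_right)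
        (Set.toFinite _) (Set.toFinite _)]
      exact Set.ncard_le_ncard (Set.union_subset Set.inter_subset_left Set.inter_subset_left)
        (Set.toFinite _)
    -- a side of the separation
    have side : ∀ P' R' : Set V, (∀ x, x ∈ P' ∨ x ∈ Z ∨ x ∈ R') → Disjoint P' Z →
        (∀ p ∈ P', ∀ r ∈ R', ¬ (restr G (U ∪ S)).Adj p r) →
        (S ∩ P').ncard + Z.ncard < q → Lay G k (U ∩ P') := by
      intro P' R' hc hPZ' hno' hcard
      refine hM (U ∩ P') ((S ∩ P') ∪ Z) ?_ ?_ ?_ ?_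
      · rw [← hU]
        exact Set.ncard_le_ncard Set.inter_subset_left (Set.toFinite _)
      · rw [Set.disjoint_left]
        rintro x ⟨hx1, hx2⟩ (hx3 | hx3)
        · exact Set.disjoint_left.mp hd hx1 hx3.1
        · exact Set.disjoint_left.mp hPZ' hx2 hx3
      · rintro x ⟨hx1, a, ha, hax⟩
        have hxX := hnbU a ha.1 x hax
        rcases hc x with h | h | h
        · left
          refine ⟨?_, h⟩
          rcases hxX with h' | h'
          · exact absurd ⟨h', h⟩ hx1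
          · exact h'
        · exact Or.inr h
        · exfalso
          exact hno' a ha.2 x h ⟨hax, Or.inl ha.1, hxX⟩
      · have := Set.ncard_union_le (S ∩ P') Z
        omega
    have hL1 : Lay G k (U ∩ P) := side P R hcase hPZ hno (by omega)
    have hL2 : Lay G k (U ∩ R) := side R P
      (fun x => by
        rcases hcase x with h | h | h
        · exact Or.inr (Or.inr h)
        · exact Or.inr (Or.inl h)
        · exact Or.inl h)
      hZR.symm (fun p hp r' hr' h => hno r' hr' p hp h.symm) (by omega)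
    have htyp : ∀ Z' ⊆ U ∩ Z, (Types G ((U ∩ P) ∪ (U ∩ R) ∪ Z')).encard ≤ k := by
      intro Z' hZ'
      refine types_le (E := S ∪ Z) (n := q + θ) ?_ ?_ (hpow _ (by omega))
      · rintro x ⟨hx1, a, ha, hax⟩
        have haU : a ∈ U := by
          rcases ha with (h | h) | h
          · exact h.1
          · exact h.1
          · exact (hZ' h).1
        have hxX := hnbU a haU x hax
        rcases hxX with h | h
        · rcases hcase x with h' | h' | h'
          · exact absurd (Or.inl (Or.inl ⟨h, h'⟩)) hx1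
          · exact Or.inr h'
          · exact absurd (Or.inl (Or.inr ⟨h, h'⟩)) hx1
        · exact Or.inl h
      · have := Set.ncard_union_le S Z
        omega
    have hL3 : Lay G k ((U ∩ P) ∪ (U ∩ R)) := by
      refine Lay.union hL1 hL2 (hPR.mono Set.inter_subset_right Set.inter_subset_right) ?_
      have := htyp ∅ (Set.empty_subset _)
      rwa [Set.union_empty] at this
    have hL4 := lay_add hk1 hL3 (Z := U ∩ Z) (by
      rw [Set.disjoint_left]
      rintro x (hx | hx) hx'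
      · exact Set.disjoint_left.mp hPZ hx.2 hx'.2
      · exact Set.disjoint_left.mp hZR hx'.2 hx.2) htyp
    have hfin : (U ∩ P) ∪ (U ∩ R) ∪ (U ∩ Z) = U := by
      ext x
      constructor
      · rintro ((h | h) | h)
        · exact h.1
        · exact h.1
        · exact h.1
      · intro h
        rcases hcase x with h' | h' | h'
        · exact Or.inl (Or.inl ⟨h, h'⟩)
        · exact Or.inr ⟨h, h'⟩
        · exact Or.inl (Or.inr ⟨h, h'⟩)
    rwa [hfin] at hL4

end lvM4Aux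

open lvM4Aux in
/-- The recursion. -/
theorem lvM4 : S_M4 := by
  intro hL hR hDG hY2 s N m r k₀ hs hN hm hr hk₀
  obtain ⟨θ, τ, k₁, h⟩ := hDG s N m r k₀ hk₀
  refine ⟨2 ^ ((5 * θ + 2 * τ + 3) + θ + τ + 2) * (k₁ + 2), fun V _ G hF1 hF2 hG hHK => ?_⟩
  refine claim4 hL hR hY2 hs hN hm hr h G hF1 hF2 hG hHK _ _ rfl rfl _ Set.univ ∅ rfl
    (Set.disjoint_empty _) ?_ ?_
  · rintro x ⟨hx, _⟩
    exact absurd (Set.mem_univ x) hx
  · rw [Set.ncard_empty]; exact Nat.zero_le _

end Pool.Agent.MPd439b2
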