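import Pool.Agent.Lib.MP_d439b2_co.LV.Spec
import Pool.Agent.Lib.MP_d439b2_co.ImsTrans
import Pool.Agent.Lib.MP_d439b2_co.S2DD
import Pool.Agent.Lib.MP_d439b2_co.LayCW

/-!
# MP_d439b2_co, partner `K_s ∨ (K_3 + P_1)`, module M5: the pairs `(H, KC s)`
-/

set_option autoImplicit false

namespace Pool.Agent.MPd439b2

namespace lvM5Aux

variable {V W : Type}

/-- an induced subgraph is an induced minor -/
theorem ims_of_emb {G : SimpleGraph V} {H : SimpleGraph W} (f : W → V)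
    (hf : Function.Injective f) (h : ∀ u v, u ≠ v → (H.Adj u v ↔ G.Adj (f u) (f v))) :
    IMS H G Set.univ := by
  refine ⟨fun w => {f w}, fun w => Set.subset_univ _, fun w => Conn.singleton G (f w), ?_, ?_⟩
  · intro w w' hw
    rw [Set.disjoint_singleton]
    exact fun h' => hw (hf h')
  · intro w w' hw
    rw [h w w' hw]
    constructor
    · intro h'
      exact ⟨f w, rfl, f w', rfl, h'⟩
    · rintro ⟨a, ha, b, hb, hab⟩
      rw [Set.mem_singleton_iff] at ha hb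
      rw [← ha, ← hb]
      exact hab

theorem dd_mono {N₀ N m : ℕ} (h : N₀ ≤ N) : IMS (DD N₀ m) (DD N m) Set.univ := by
  refine ims_of_emb (Sum.map (Fin.castLE h) id)
    (Function.Injective.sumMap (Fin.castLE_injective h) Function.injective_id) ?_
  rintro (u | u) (v | v) huv
  · change u ≠ v ↔ Fin.castLE h u ≠ Fin.castLE h v
    rw [Ne, Ne, (Fin.castLE_injective h).eq_iff]
  · exact Iff.rfl
  · exact Iff.rfl
  · exact Iff.rfl

theorem grid_mono {n n' : ℕ} (h : n ≤ n') : IMS (grid n) (grid n') Set.univ := by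
  refine ims_of_emb (Prod.map (Fin.castLE h) (Fin.castLE h))
    (Function.Injective.prodMap (Fin.castLE_injective h) (Fin.castLE_injective h)) ?_
  rintro ⟨a, b⟩ ⟨c, d⟩ _
  simp only [grid, Prod.map, (Fin.castLE_injective h).eq_iff, Fin.val_castLE]

theorem kc_mono {s s' : ℕ} (h : s ≤ s') : IMS (KC s) (KC s') Set.univ := by
  refine ims_of_emb (Sum.map (Fin.castLE h) id)
    (Function.Injective.sumMap (Fin.castLE_injective h) Function.injective_id) ?_
  rintro (u | u) (v | v) huv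
  · change u ≠ v ↔ Fin.castLE h u ≠ Fin.castLE h v
    rw [Ne, Ne, (Fin.castLE_injective h).eq_iff]
  · exact Iff.rfl
  · exact Iff.rfl
  · exact Iff.rfl

end lvM5Aux

open lvM5Aux in
theorem lvM5 : S_M5 := by
  intro hLay hP10 hK3 hY1 s W _ H hS hgrid hcoT
  obtain ⟨N₀, m, hm, hHD⟩ := s2DD W H hS
  have hHD' : IMS H (DD (N₀ + 2) m) Set.univ :=
    imsTrans _ _ _ _ _ _ _ hHD (dd_mono (Nat.le_add_right N₀ 2))
  obtain ⟨n, hn⟩ : ∃ n, IMS H (grid (n + 2)) Set.univ := by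
    obtain ⟨n, hn⟩ := hgrid
    exact ⟨n, imsTrans _ _ _ _ _ _ _ (ims_univ_iff.mpr hn) (grid_mono (Nat.le_add_right n 2))⟩
  obtain ⟨r', k', hrk⟩ := hK3 W H hcoT
  obtain ⟨K, hK⟩ := hP10 r' k'
  obtain ⟨k, hk⟩ := hLay (s + 1) (N₀ + 2) m (n + 2) (K + 1) (by omega) (by omega) (by omega)
    (by omega) (by omega)
  refine ⟨3 * (k + 1), ?_⟩
  intro V _ _ G h1 h2
  rw [← ims_univ_iff] at h1 h2
  apply layCW V G k
  apply hk V G
  · exact fun h => h2 (imsTrans _ _ _ _ _ _ _ (kc_mono (Nat.le_succ s)) h)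
  · exact fun h => h1 (imsTrans _ _ _ _ _ _ _ hHD' h)
  · exact fun h => h1 (imsTrans _ _ _ _ _ _ _ hn h)
  · intro Y hY
    have h3 : ¬ HasN Gᶜ Y r' k' := by
      rintro ⟨f, hf1, hf2⟩
      exact h1 (hrk V G ⟨f, fun u _ _ => Set.mem_univ _, hf2⟩)
    have h4 := hY1 V Gᶜ K Y (hK V Gᶜ Y hY h3)
    rwa [compl_compl] at h4

end Pool.Agent.MPd439b2
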