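import Pool.Agent.Lib.MP_d439b2_co.LV.A1
import Pool.Agent.Lib.MP_d439b2_co.LV.A2
import Pool.Agent.Lib.MP_d439b2_co.LV.A3
import Pool.Agent.Lib.MP_d439b2_co.LV.A4
import Pool.Agent.Lib.MP_d439b2_co.LV.B1
import Pool.Agent.Lib.MP_d439b2_co.LV.B2
import Pool.Agent.Lib.MP_d439b2_co.LV.B3
import Pool.Agent.Lib.MP_d439b2_co.LV.B4
import Pool.Agent.Lib.MP_d439b2_co.LV.B5
import Pool.Agent.Lib.MP_d439b2_co.LV.B6
import Pool.Agent.Lib.MP_d439b2_co.LV.B7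
import Pool.Agent.Lib.MP_d439b2_co.LV.B8
import Pool.Agent.Lib.MP_d439b2_co.LV.B9
import Pool.Agent.Lib.MP_d439b2_co.LV.IC
import Pool.Agent.Lib.MP_d439b2_co.LV.C2
import Pool.Agent.Lib.MP_d439b2_co.LV.C3
import Pool.Agent.Lib.MP_d439b2_co.LV.C4
import Pool.Agent.Lib.MP_d439b2_co.LV.C5
import Pool.Agent.Lib.MP_d439b2_co.LV.C6
import Pool.Agent.Lib.MP_d439b2_co.LV.M1
import Pool.Agent.Lib.MP_d439b2_co.LV.M2
import Pool.Agent.Lib.MP_d439b2_co.LV.M3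
import Pool.Agent.Lib.MP_d439b2_co.LV.M4
import Pool.Agent.Lib.MP_d439b2_co.LV.M5
import Pool.Agent.Lib.MP_d439b2_co.R.Final

/-!
# MP_d439b2_co: the pairs `(H, K_s ∨ (K_3 + P_1))`, final assembly
-/

set_option autoImplicit false

namespace Pool.Agent.MPd439b2

namespace LVFin

theorem rc4 : C_RC4 := rC4 RFin.c2 (rC3 rF1 RFin.c1)
theorem a2 : C_A2 := lvA2 lvA1
theorem a4 : C_A4 := lvA4 lvA1 lvA3
theorem b1 : C_B1 := lvB1 lvA1 lvA2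
theorem b2 : C_B2 := lvB2 b1 grow
theorem b3 : C_B3 := lvB3 b1 a4 b2 grow
theorem b4 : C_B4 := lvB4 a4 b3
theorem b5 : C_B5 := lvB5 b1 b3 b4 lvA3 dig dDd
theorem b6 : C_B6 := lvB6 a2
theorem b7 : C_B7 := lvB7 b6
theorem b8 : C_B8 := lvB8 b7 rK1
theorem b9 : C_B9 := lvB9 b6 b2 grow
theorem cc2 : C_C2 := lvC2 lvIC
theorem cc3 : C_C3 := lvC3 RFin.c1 RFin.c2 rc4
theorem cc4 : C_C4 := lvC4 lvA1 cc2
theorem cc5 : C_C5 := lvC5 rY3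
theorem str : S_Str := lvM1 b1 b2 b4 b5 b7 b8 b9 cc2 cc3 cc4 cc5 lvC6 rY2
theorem dgc : S_DGc := lvM2 gkFinal str
theorem layc : S_Layc := lvM4 (lvM3 layU) restrIMS dgc rY2

end LVFin

/-- the pairs `(H, K_s ∨ (K_3 + P_1))` -/
theorem lvMain (s : ℕ) (W : Type) [Finite W] (H : SimpleGraph W) (h₁ : InS2 H) (h₂ : InGrid H)
    (h₃ : InCoT H) : BoundedCW H (KC s) :=
  lvM5 LVFin.layc RFin.p10 rK3 rY1 s W H h₁ h₂ h₃

end Pool.Agent.MPd439b2
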