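import Pool.Agent.Lib.MP_d439b2_co.R.Spec2

/-!
# MP_d439b2_co, partner `K_s ∨ (K_3 + P_1)`: large vertices of a model of a complete graph, definitions
-/

set_option autoImplicit false

namespace Pool.Agent.MPd439b2

/-- the join of the complete graph `K_s` and of `K_3 + P_1` -/
def KC (s : ℕ) : SimpleGraph (Fin s ⊕ Fin 4) where
  Adj
    | Sum.inl i, Sum.inl j => i ≠ j
    | Sum.inl _, Sum.inr _ => True
    | Sum.inr _, Sum.inl _ => True
    | Sum.inr i, Sum.inr j => i ≠ j ∧ i.val < 3 ∧ j.val < 3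
  symm := ⟨fun u v h => by
    rcases u with u | u <;> rcases v with v | v
    · exact Ne.symm h
    · exact trivial
    · exact trivial
    · exact ⟨h.1.symm, h.2.2, h.2.1⟩⟩
  loopless := ⟨fun u h => by
    rcases u with u | u
    · exact h rfl
    · exact h.1 rfl⟩

variable {V : Type} {G : SimpleGraph V} {I : Finset ℕ} {B : ℕ → Set V} {X Y : Set V}

open Classical in
/-- the indices of the sets which meet `X` -/
noncomputable def hitI (I : Finset ℕ) (B : ℕ → Set V) (X : Set V) : Finset ℕ :=
  I.filter fun i => ¬ Disjoint (B i) X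

open Classical in
/-- the indices of the sets which are disjoint from `X` and touch `X` -/
noncomputable def tchI (G : SimpleGraph V) (I : Finset ℕ) (B : ℕ → Set V) (X : Set V) : Finset ℕ :=
  I.filter fun i => Disjoint (B i) X ∧ Tch G X (B i)

open Classical in
/-- the indices of the sets which are disjoint from `X` and do not touch `X` -/
noncomputable def misI (G : SimpleGraph V) (I : Finset ℕ) (B : ℕ → Set V) (X : Set V) : Finset ℕ :=
  I.filter fun i => Disjoint (B i) X ∧ ¬ Tch G X (B i)

theorem mem_hitI {i : ℕ} : i ∈ hitI I B X ↔ i ∈ I ∧ ¬ Disjoint (B i) X := by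
  classical
  unfold hitI
  rw [Finset.mem_filter]

theorem mem_tchI {i : ℕ} : i ∈ tchI G I B X ↔ i ∈ I ∧ Disjoint (B i) X ∧ Tch G X (B i) := by
  classical
  unfold tchI
  rw [Finset.mem_filter]

theorem mem_misI {i : ℕ} : i ∈ misI G I B X ↔ i ∈ I ∧ Disjoint (B i) X ∧ ¬ Tch G X (B i) := by
  classical
  unfold misI
  rw [Finset.mem_filter]

theorem card_hit_tch_mis (G : SimpleGraph V) (I : Finset ℕ) (B : ℕ → Set V) (X : Set V) :
    (hitI I B X).card + (tchI G I B X).card + (misI G I B X).card = I.card := by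
  classical
  have h1 : Disjoint (hitI I B X) (tchI G I B X) := by
    rw [Finset.disjoint_left]
    intro i h1 h2
    exact (mem_hitI.1 h1).2 (mem_tchI.1 h2).2.1
  have h2 : Disjoint (hitI I B X ∪ tchI G I B X) (misI G I B X) := by
    rw [Finset.disjoint_left]
    intro i h1 h2
    rcases Finset.mem_union.1 h1 with h1 | h1
    · exact (mem_hitI.1 h1).2 (mem_misI.1 h2).2.1
    · exact (mem_misI.1 h2).2.2 (mem_tchI.1 h1).2.2
  rw [← Finset.card_union_of_disjoint h1, ← Finset.card_union_of_disjoint h2]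
  congr 1
  ext i
  rw [Finset.mem_union, Finset.mem_union, mem_hitI, mem_tchI, mem_misI]
  by_cases h3 : Disjoint (B i) X <;> by_cases h4 : Tch G X (B i) <;> tauto

/-- a single vertex is in at most one of the sets -/
theorem hitI_single_le (h : ∀ i ∈ I, ∀ j ∈ I, i ≠ j → Disjoint (B i) (B j)) (v : V) :
    (hitI I B {v}).card ≤ 1 := by
  classical
  rw [Finset.card_le_one]
  intro i hi j hj
  by_contra hij
  have h1 := (mem_hitI.1 hi).2
  have h2 := (mem_hitI.1 hj).2
  rw [Set.disjoint_singleton_right, not_not] at h1 h2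
  exact Set.disjoint_left.1 (h i (mem_hitI.1 hi).1 j (mem_hitI.1 hj).1 hij) h1 h2

/-- the large vertices: they are disjoint from and do not touch at most two sets of the model -/
def Lg (G : SimpleGraph V) (I : Finset ℕ) (B : ℕ → Set V) : Set V := {v | (misI G I B {v}).card ≤ 2}

/-- `z 0, ..., z (l - 1)` is an induced cycle of `G` in `Y` -/
def ICyc (G : SimpleGraph V) (Y : Set V) (l : ℕ) (z : ℕ → V) : Prop :=
  3 ≤ l ∧ (∀ i < l, z i ∈ Y) ∧ (∀ i < l, ∀ j < l, z i = z j → i = j) ∧
    ∀ i < l, ∀ j < l, (G.Adj (z i) (z j) ↔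
      j = i + 1 ∨ i = j + 1 ∨ (i = 0 ∧ j + 1 = l) ∨ (j = 0 ∧ i + 1 = l))

/-- sets all of whose vertices have a neighbour, and whose neighbourhoods (in the complement) are
complements of forests, have layouts of width `k₀` -/
def HK (G : SimpleGraph V) (k₀ : ℕ) : Prop :=
  ∀ Y : Set V, (∀ y ∈ Y, ∃ w, G.Adj y w) → LCF Gᶜ Y → Lay (restr G Y) k₀ Y

end Pool.Agent.MPd439b2
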