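import Pool.Agent.Lib.MP_d439b2_co.LV.Spec

/-!
# MP_d439b2_co, `LV/A1`: detection of `KC s`, general form
-/

set_option autoImplicit false

namespace Pool.Agent.MPd439b2

namespace lvA1Aux

open Classical in
/-- the branch sets -/
noncomputable def BS {V : Type} (s : ℕ) (P : Set V) (U X : ℕ → Set V) : Fin s ⊕ Fin 4 → Set V
  | Sum.inl i => U i.val
  | Sum.inr a => if a.val < 3 then X a.val else P

theorem BS_lt {V : Type} (s : ℕ) (P : Set V) (U X : ℕ → Set V) (a : Fin 4) (h : a.val < 3) :
    BS s P U X (Sum.inr a) = X a.val := by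
  simp only [BS, if_pos h]

theorem BS_ge {V : Type} (s : ℕ) (P : Set V) (U X : ℕ → Set V) (a : Fin 4) (h : ¬ a.val < 3) :
    BS s P U X (Sum.inr a) = P := by
  simp only [BS, if_neg h]

end lvA1Aux

open lvA1Aux

theorem lvA1 : S_A1c := by
  intro V G s P U X hP hU hX hPU hPX hUU hXX hUX
  have hll : ∀ i j : Fin s, i ≠ j → Disjoint (U i.val) (U j.val) ∧ Tch G (U i.val) (U j.val) := by
    intro i j hij
    exact hUU i.val i.isLt j.val j.isLt (fun h => hij (Fin.ext h))
  refine ⟨BS s P U X, fun _ => Set.subset_univ _, ?_, ?_, ?_⟩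
  · rintro (i | a)
    · exact hU i.val i.isLt
    · by_cases h : a.val < 3
      · rw [BS_lt s P U X a h]
        exact hX a.val h
      · rw [BS_ge s P U X a h]
        exact hP
  · rintro (i | a) (j | b) hne
    · exact (hll i j (fun h => hne (by rw [h]))).1
    · by_cases h : b.val < 3
      · rw [BS_lt s P U X b h]
        exact (hUX i.val i.isLt b.val h).1
      · rw [BS_ge s P U X b h]
        exact (hPU i.val i.isLt).1.symm
    · by_cases h : a.val < 3
      · rw [BS_lt s P U X a h]
        exact (hUX j.val j.isLt a.val h).1.symm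
      · rw [BS_ge s P U X a h]
        exact (hPU j.val j.isLt).1
    · have hab : a.val ≠ b.val := fun h => hne (by rw [Fin.ext h])
      by_cases h : a.val < 3
      · by_cases h' : b.val < 3
        · rw [BS_lt s P U X a h, BS_lt s P U X b h']
          exact (hXX a.val h b.val h' hab).1
        · rw [BS_lt s P U X a h, BS_ge s P U X b h']
          exact (hPX a.val h).1.symm
      · by_cases h' : b.val < 3
        · rw [BS_ge s P U X a h, BS_lt s P U X b h']
          exact (hPX b.val h').1
        · exfalso
          have := a.isLt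
          have := b.isLt
          omega
  · rintro (i | a) (j | b) hne
    · have hij : i ≠ j := fun h => hne (by rw [h])
      exact ⟨fun _ => (hll i j hij).2, fun _ => hij⟩
    · refine ⟨fun _ => ?_, fun _ => trivial⟩
      by_cases h : b.val < 3
      · rw [BS_lt s P U X b h]
        exact (hUX i.val i.isLt b.val h).2
      · rw [BS_ge s P U X b h]
        exact (hPU i.val i.isLt).2.symm
    · refine ⟨fun _ => ?_, fun _ => trivial⟩
      by_cases h : a.val < 3
      · rw [BS_lt s P U X a h]
        exact (hUX j.val j.isLt a.val h).2.symm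
      · rw [BS_ge s P U X a h]
        exact (hPU j.val j.isLt).2
    · have hab : a.val ≠ b.val := fun h => hne (by rw [Fin.ext h])
      have hab' : a ≠ b := fun h => hab (by rw [h])
      by_cases h : a.val < 3
      · by_cases h' : b.val < 3
        · rw [BS_lt s P U X a h, BS_lt s P U X b h']
          exact ⟨fun _ => (hXX a.val h b.val h' hab).2, fun _ => ⟨hab', h, h'⟩⟩
        · rw [BS_lt s P U X a h, BS_ge s P U X b h']
          exact ⟨fun h1 => absurd h1.2.2 h', fun h1 => absurd h1.symm (hPX a.val h).2⟩
      · by_cases h' : b.val < 3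
        · rw [BS_ge s P U X a h, BS_lt s P U X b h']
          exact ⟨fun h1 => absurd h1.2.1 h, fun h1 => absurd h1 (hPX b.val h').2⟩
        · exfalso
          have := a.isLt
          have := b.isLt
          omega

end Pool.Agent.MPd439b2
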