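import Pool.Agent.Lib.MP_d439b2_co.LV.Spec

set_option autoImplicit false

namespace Pool.Agent.MPd439b2

namespace lvB7Aux

theorem conn_path {V : Type} {G : SimpleGraph V} (z : ℕ → V) (n : ℕ)
    (h : ∀ i, 2 ≤ i → i < n + 2 → G.Adj (z i) (z (i + 1))) :
    Conn G {w | ∃ i, 2 ≤ i ∧ i < n + 3 ∧ z i = w} := by
  induction n with
  | zero =>
    have : {w | ∃ i, 2 ≤ i ∧ i < 0 + 3 ∧ z i = w} = {z 2} := by
      ext w
      constructor
      · rintro ⟨i, h1, h2, rfl⟩
        have : i = 2 := by omega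
        subst this
        rfl
      · rintro rfl
        exact ⟨2, le_refl _, by norm_num, rfl⟩
    rw [this]
    exact Conn.singleton G _
  | succ n ih =>
    have ih' := ih (fun i h1 h2 => h i h1 (by omega))
    have : {w | ∃ i, 2 ≤ i ∧ i < n + 1 + 3 ∧ z i = w} = insert (z (n + 3)) {w | ∃ i, 2 ≤ i ∧ i < n + 3 ∧ z i = w} := by
      ext w
      constructor
      · rintro ⟨i, h1, h2, rfl⟩
        by_cases h3 : i < n + 3
        · exact Or.inr ⟨i, h1, h3, rfl⟩
        · have : i = n + 3 := by omega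
          subst this
          exact Or.inl rfl
      · rintro (rfl | ⟨i, h1, h2, rfl⟩)
        · exact ⟨n + 3, by omega, by omega, rfl⟩
        · exact ⟨i, h1, by omega, rfl⟩
    rw [this]
    exact ih'.insert ⟨z (n + 2), ⟨n + 2, by omega, by omega, rfl⟩, h (n + 2) (by omega) (by omega)⟩

end lvB7Aux

open lvB7Aux in
theorem lvB7 : S_B7c := by
  classical
  intro hB6 V G s I B v l z hU hM hv hl hz hinj hadj hcl
  by_contra hcon
  push Not at hcon
  set X : ℕ → Set V := fun a => if a = 0 then {z 0} else if a = 1 then {z 1} else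
    {w | ∃ i, 2 ≤ i ∧ i < l ∧ z i = w} with hXdef
  have X0 : X 0 = {z 0} := by simp [hXdef]
  have X1 : X 1 = {z 1} := by simp [hXdef]
  have X2 : X 2 = {w | ∃ i, 2 ≤ i ∧ i < l ∧ z i = w} := by simp [hXdef]
  have sub : ∀ a < 3, ∀ w ∈ X a, ∃ i < l, z i = w := by
    intro a ha w hw
    interval_cases a
    · rw [X0] at hw
      exact ⟨0, by omega, hw.symm⟩
    · rw [X1] at hw
      exact ⟨1, by omega, hw.symm⟩
    · rw [X2] at hw
      obtain ⟨i, -, h2, h3⟩ := hw
      exact ⟨i, h2, h3⟩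
  have mem : ∀ a < 3, z a ∈ X a := by
    intro a ha
    interval_cases a
    · rw [X0]
      exact rfl
    · rw [X1]
      exact rfl
    · rw [X2]
      exact ⟨2, le_refl _, by omega, rfl⟩
  have conn : ∀ a < 3, Conn G (X a) := by
    intro a ha
    interval_cases a
    · rw [X0]
      exact Conn.singleton G _
    · rw [X1]
      exact Conn.singleton G _
    · rw [X2]
      obtain ⟨n, rfl⟩ : ∃ n, l = n + 3 := ⟨l - 3, by omega⟩
      exact conn_path z n (fun i h1 h2 => hadj i (by omega))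
  have pair : ∀ a < 3, ∀ b < 3, a < b → Disjoint (X a) (X b) ∧ Tch G (X a) (X b) := by
    intro a ha b hb hab
    have h01 : a = 0 ∧ b = 1 ∨ a = 0 ∧ b = 2 ∨ a = 1 ∧ b = 2 := by omega
    rcases h01 with ⟨rfl, rfl⟩ | ⟨rfl, rfl⟩ | ⟨rfl, rfl⟩
    · rw [X0, X1]
      refine ⟨?_, z 0, rfl, z 1, rfl, hadj 0 (by omega)⟩
      rw [Set.disjoint_singleton_left]
      intro h
      have := hinj 0 (by omega) 1 (by omega) h
      omega
    · rw [X0, X2]
      refine ⟨?_, z 0, rfl, z (l - 1), ⟨l - 1, by omega, by omega, rfl⟩, hcl.symm⟩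
      rw [Set.disjoint_singleton_left]
      rintro ⟨i, h1, h2, h3⟩
      have := hinj i h2 0 (by omega) h3
      omega
    · rw [X1, X2]
      refine ⟨?_, z 1, rfl, z 2, ⟨2, le_refl _, by omega, rfl⟩, hadj 1 (by omega)⟩
      rw [Set.disjoint_singleton_left]
      rintro ⟨i, h1, h2, h3⟩
      have := hinj i h2 1 (by omega) h3
      omega
  refine hB6 V G s l I B v X z hU hM hv ?_ ?_ ?_ hcon
  · intro a ha
    refine ⟨conn a ha, ?_, ?_, mem a ha, (hz a (by omega)).1⟩
    · intro h
      obtain ⟨i, hi, hiv⟩ := sub a ha v h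
      exact (hz i hi).2.1 hiv
    · rintro ⟨u, hu, w, hw, huw⟩
      obtain ⟨i, hi, hiw⟩ := sub a ha w hw
      have hu' : u = v := hu
      subst hu'
      subst hiw
      exact (hz i hi).2.2 huw
  · intro a ha b hb hab
    rcases Nat.lt_or_gt_of_ne hab with h | h
    · exact pair a ha b hb h
    · obtain ⟨h1, h2⟩ := pair b hb a ha h
      exact ⟨h1.symm, h2.symm⟩
  · have hsub : hitI I B (X 0 ∪ X 1 ∪ X 2) ⊆ (Finset.range l).biUnion fun k => hitI I B {z k} := by
      intro i hi
      obtain ⟨hiI, hd⟩ := mem_hitI.mp hi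
      rw [Set.not_disjoint_iff] at hd
      obtain ⟨w, hw1, hw2⟩ := hd
      have hk : ∃ k < l, z k = w := by
        rcases hw2 with (hw2 | hw2) | hw2
        · exact sub 0 (by norm_num) w hw2
        · exact sub 1 (by norm_num) w hw2
        · exact sub 2 (by norm_num) w hw2
      obtain ⟨k, hk, rfl⟩ := hk
      rw [Finset.mem_biUnion]
      refine ⟨k, Finset.mem_range.mpr hk, mem_hitI.mpr ⟨hiI, ?_⟩⟩
      rw [Set.not_disjoint_iff]
      exact ⟨z k, hw1, rfl⟩
    calc (hitI I B (X 0 ∪ X 1 ∪ X 2)).card ≤ ((Finset.range l).biUnion fun k => hitI I B {z k}).card :=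
          Finset.card_le_card hsub
      _ ≤ (Finset.range l).card * 1 := Finset.card_biUnion_le_card_mul _ _ _ (fun k _ =>
          hitI_single_le (fun i hi j hj hij => (hM.2 i hi j hj hij).1) (z k))
      _ = l := by rw [Finset.card_range, mul_one]

end Pool.Agent.MPd439b2
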