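import Pool.Agent.Lib.MP_d439b2_co.LV.Spec
import Pool.Agent.Lib.MP_d439b2_co.B.LayD

/-!
# MP_d439b2_co, LV, M3: layout of a set with a layout and hanging pieces
-/

set_option autoImplicit false

namespace Pool.Agent.MPd439b2

namespace lvM3Aux

open layDAux

variable {V : Type}

/-- the hypotheses -/
structure Hyp3 (G : SimpleGraph V) (k k₁ : ℕ) (U S A T : Set V) : Prop where
  nbU : nb G U ⊆ S
  sub : A ⊆ U ∪ S
  dAT : Disjoint A T
  card : 2 ^ (S.ncard + T.ncard) * (k₁ + 2) ≤ k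
  comp : ∀ D, IsComp G ((U ∪ S) \ (A ∪ T)) D → (nb G D ∩ A).ncard ≤ 1 ∧ Lay G k (U ∩ D)

/-- (1) -/
theorem nbUD3 {G : SimpleGraph V} {k k₁ : ℕ} {U S A T : Set V} (h : Hyp3 G k k₁ U S A T) {D : Set V}
    (hD : IsComp G ((U ∪ S) \ (A ∪ T)) D) : nb G (U ∩ D) ⊆ (S ∪ T) ∪ (nb G D ∩ A) := by
  rintro v ⟨hv, u, hu, huv⟩
  by_cases hvE : v ∈ S ∪ T
  · exact Or.inl hvE
  right
  have hvU : v ∈ U := by
    by_contra hvU
    exact hvE (Or.inl (h.nbU ⟨hvU, u, hu.1, huv⟩))
  have hvD : v ∉ D := fun h1 => hv ⟨hvU, h1⟩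
  refine ⟨⟨hvD, u, hu.2, huv⟩, ?_⟩
  by_contra hvA
  have hvX : v ∈ (U ∪ S) \ (A ∪ T) := ⟨Or.inl hvU, fun h1 => h1.elim hvA (fun h2 => hvE (Or.inr h2))⟩
  exact hD.2.2 v hvX ⟨hvD, u, hu.2, huv⟩

/-- (2) -/
theorem layW3 (hLU : S_LayU) [Finite V] {G : SimpleGraph V} {k k₁ : ℕ} {U S A T : Set V}
    (h : Hyp3 G k k₁ U S A T) {P : Set V} (hP : P.ncard ≤ 1) : Lay G k (W G U S A T P) := by
  apply hLU V G k ((S ∪ T) ∪ P)
  · have h0 : 2 ^ (S.ncard + T.ncard + 1) ≤ k := by
      refine le_trans ?_ h.card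
      rw [pow_succ]
      exact Nat.mul_le_mul_left _ (by omega)
    refine le_trans (Nat.pow_le_pow_right (by norm_num) ?_) h0
    have h1 := Set.ncard_union_le (S ∪ T) P
    have h2 := Set.ncard_union_le S T
    omega
  · rintro Y ⟨D, hD1, hD2, rfl⟩
    refine ⟨(h.comp D hD1).2, ?_⟩
    have h1 := nbUD3 h hD1
    rwa [hD2] at h1
  · rintro Y ⟨D, hD1, hD2, rfl⟩ Y' ⟨D', hD1', hD2', rfl⟩ hne
    rw [Set.disjoint_left]
    intro v hv hv'
    apply hne
    rw [comp_eq hD1 hD1' ⟨v, hv.2, hv'.2⟩]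

/-- the types of the pieces -/
theorem typesY3 [Finite V] {G : SimpleGraph V} {k k₁ : ℕ} {U S A T : Set V}
    (h : Hyp3 G k k₁ U S A T) {A' : Set V} (hA' : A' ⊆ A)
    (hty : (Types (restr G A) A').encard ≤ k₁) :
    (Types G (Y G U S A T A')).encard ≤ k := by
  set f : Set V × Set V → Set V := fun p => p.1 ∪ ((p.2 ∩ U) \ (S ∪ T)) with hf
  have hsub : Types G (Y G U S A T A') ⊆
      𝒫 (S ∪ T) ∪ f '' (𝒫 (S ∪ T) ×ˢ insert ∅ (Types (restr G A) A')) := by
    rintro Q ⟨-, u, hu, rfl⟩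
    rcases hu with ⟨huA, huU⟩ | ⟨a, ha, huW⟩
    · right
      refine ⟨((G.neighborSet u \ Y G U S A T A') ∩ (S ∪ T), (restr G A).neighborSet u \ A'),
        ⟨Set.inter_subset_right, ?_⟩, ?_⟩
      · rcases Set.eq_empty_or_nonempty ((restr G A).neighborSet u \ A') with h0 | h0
        · exact Or.inl h0
        · exact Or.inr ⟨h0, u, huA, rfl⟩
      apply Set.Subset.antisymm
      · rintro v (hv | hv)
        · exact hv.1
        · obtain ⟨⟨⟨hv1, hv2⟩, hvU⟩, hv3⟩ := hv
          refine ⟨hv1.1, ?_⟩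
          rintro (⟨h1, -⟩ | ⟨a', -, h1⟩)
          · exact hv2 h1
          · exact W_not_A h1 hv1.2.2
      · rintro v ⟨huv, hvY⟩
        have huv' : G.Adj u v := huv
        by_cases hvE : v ∈ S ∪ T
        · exact Or.inl ⟨⟨huv, hvY⟩, hvE⟩
        right
        have hvU : v ∈ U := by
          by_contra hvU
          exact hvE (Or.inl (h.nbU ⟨hvU, u, huU, huv'⟩))
        have hvA' : v ∉ A' := fun h1 => hvY (Or.inl ⟨h1, hvU⟩)
        have hvA : v ∈ A := by
          by_contra hvA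
          have hvX : v ∈ (U ∪ S) \ (A ∪ T) :=
            ⟨Or.inl hvU, fun h1 => h1.elim hvA (fun h2 => hvE (Or.inr h2))⟩
          obtain ⟨D, hD, hvD⟩ := exists_isComp G hvX
          have huD : u ∉ D := fun h1 => (hD.1 h1).2 (Or.inl (hA' huA))
          have hunb : u ∈ nb G D ∩ A := ⟨⟨huD, v, hvD, huv'.symm⟩, hA' huA⟩
          have hone : nb G D ∩ A = {u} := by
            apply Set.Subset.antisymm
            · intro w hw
              exact (Set.ncard_le_one (Set.toFinite _)).1 (h.comp D hD).1 w hw u hunb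
            · exact Set.singleton_subset_iff.2 hunb
          exact hvY (Or.inr ⟨u, huA, mem_W.2 ⟨hvU, D, hD, hone, hvD⟩⟩)
        exact ⟨⟨⟨⟨huv', hA' huA, hvA⟩, hvA'⟩, hvU⟩, hvE⟩
    · left
      rintro v ⟨huv, hvY⟩
      have huv' : G.Adj u v := huv
      obtain ⟨huU, D, hD, hDa, huD⟩ := mem_W.1 huW
      by_cases hvUD : v ∈ U ∩ D
      · exact absurd (Or.inr ⟨a, ha, mem_W.2 ⟨hvUD.1, D, hD, hDa, hvUD.2⟩⟩) hvY
      have h1 := nbUD3 h hD ⟨hvUD, u, ⟨huU, huD⟩, huv'⟩
      rw [hDa] at h1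
      rcases h1 with h1 | h1
      · exact h1
      · have hva : v = a := h1
        subst hva
        rcases h.sub (hA' ha) with h2 | h2
        · exact absurd (Or.inl ⟨ha, h2⟩) hvY
        · exact Or.inl h2
  have hfin : (Types G (Y G U S A T A')).Finite := Set.toFinite _
  rw [← hfin.cast_ncard_eq]
  have hfin2 : (Types (restr G A) A').Finite := Set.toFinite _
  rw [← hfin2.cast_ncard_eq] at hty
  have hty' : (Types (restr G A) A').ncard ≤ k₁ := by exact_mod_cast hty
  have h1 : (Types G (Y G U S A T A')).ncard ≤ 2 ^ (S ∪ T).ncard + 2 ^ (S ∪ T).ncard * (k₁ + 1) := by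
    refine (Set.ncard_le_ncard hsub (Set.toFinite _)).trans ?_
    refine (Set.ncard_union_le _ _).trans ?_
    have h2 : (𝒫 (S ∪ T)).ncard = 2 ^ (S ∪ T).ncard := Set.ncard_powerset _
    have h3 : (f '' (𝒫 (S ∪ T) ×ˢ insert ∅ (Types (restr G A) A'))).ncard ≤
        (𝒫 (S ∪ T) ×ˢ insert ∅ (Types (restr G A) A')).ncard :=
      Set.ncard_image_le (Set.toFinite _)
    rw [Set.ncard_prod, h2] at h3
    have h4 : (insert ∅ (Types (restr G A) A')).ncard ≤ k₁ + 1 :=
      (Set.ncard_insert_le _ _).trans (by omega)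
    have h5 := Nat.mul_le_mul_left (2 ^ (S ∪ T).ncard) h4
    omega
  have h2 : 2 ^ (S ∪ T).ncard ≤ 2 ^ (S.ncard + T.ncard) :=
    Nat.pow_le_pow_right (by norm_num) (Set.ncard_union_le S T)
  have h3 := h.card
  have h4 : 2 ^ (S ∪ T).ncard + 2 ^ (S ∪ T).ncard * (k₁ + 1) ≤ k := by
    refine le_trans ?_ h3
    have h5 : 2 ^ (S ∪ T).ncard + 2 ^ (S ∪ T).ncard * (k₁ + 1) = 2 ^ (S ∪ T).ncard * (k₁ + 2) := by
      ring
    rw [h5]
    exact Nat.mul_le_mul_right _ h2
  exact_mod_cast h1.trans h4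

theorem pair_layY (hLU : S_LayU) [Finite V] {G : SimpleGraph V} {k k₁ : ℕ} {U S A T : Set V}
    (h : Hyp3 G k k₁ U S A T) (hk : 1 ≤ k) {a : V} (haA : a ∈ A)
    (hty : (Types (restr G A) {a}).encard ≤ k₁) : Lay G k (Y G U S A T {a}) := by
  have hW := layW3 hLU h (P := {a}) (by rw [Set.ncard_singleton])
  by_cases haU : a ∈ U
  · have h1 : Y G U S A T {a} = insert a (W G U S A T {a}) := by
      ext u
      constructor
      · rintro (⟨h1, -⟩ | ⟨b, h1, h2⟩)
        · exact Or.inl h1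
        · have hb : b = a := h1
          rw [hb] at h2
          exact Or.inr h2
      · rintro (h1 | h1)
        · rw [h1]
          exact Or.inl ⟨rfl, haU⟩
        · exact Or.inr ⟨a, rfl, h1⟩
    have h2 := typesY3 h (Set.singleton_subset_iff.2 haA) hty
    rw [h1] at h2 ⊢
    exact Lay.insert hk hW (fun h3 => W_not_A h3 haA) h2
  · have h1 : Y G U S A T {a} = W G U S A T {a} := by
      ext u
      constructor
      · rintro (⟨h1, h3⟩ | ⟨b, h1, h2⟩)
        · have hu : u = a := h1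
          rw [hu] at h3
          exact absurd h3 haU
        · have hb : b = a := h1
          rwa [hb] at h2
      · intro h1
        exact Or.inr ⟨a, rfl, h1⟩
    rw [h1]
    exact hW

/-- (3) -/
theorem layY3 (hLU : S_LayU) [Finite V] {G : SimpleGraph V} {k k₁ : ℕ} {U S A T : Set V}
    (h : Hyp3 G k k₁ U S A T) (hk : 1 ≤ k) {A' : Set V} (hL : Lay (restr G A) k₁ A') :
    A' ⊆ A → Lay G k (Y G U S A T A') := by
  induction hL with
  | empty =>
    intro _
    have h1 : Y G U S A T ∅ = ∅ := by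
      rw [Set.eq_empty_iff_forall_notMem]
      rintro u (⟨h1, -⟩ | ⟨a, h1, -⟩)
      · exact h1
      · exact h1
    rw [h1]
    exact Lay.empty
  | single a hty =>
    intro haA
    exact pair_layY hLU h hk (haA rfl) hty
  | @union A₁ A₂ _ _ hdis hty ih1 ih2 =>
    intro hsubA
    have hs1 : A₁ ⊆ A := Set.subset_union_left.trans hsubA
    have hs2 : A₂ ⊆ A := Set.subset_union_right.trans hsubA
    have hYu : Y G U S A T (A₁ ∪ A₂) = Y G U S A T A₁ ∪ Y G U S A T A₂ := by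
      ext u
      constructor
      · rintro (⟨h1, h2⟩ | ⟨a, h1, h2⟩)
        · rcases h1 with h1 | h1
          · exact Or.inl (Or.inl ⟨h1, h2⟩)
          · exact Or.inr (Or.inl ⟨h1, h2⟩)
        · rcases h1 with h1 | h1
          · exact Or.inl (Or.inr ⟨a, h1, h2⟩)
          · exact Or.inr (Or.inr ⟨a, h1, h2⟩)
      · rintro ((⟨h1, h2⟩ | ⟨a, h1, h2⟩) | (⟨h1, h2⟩ | ⟨a, h1, h2⟩))
        · exact Or.inl ⟨Or.inl h1, h2⟩
        · exact Or.inr ⟨a, Or.inl h1, h2⟩
        · exact Or.inl ⟨Or.inr h1, h2⟩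
        · exact Or.inr ⟨a, Or.inr h1, h2⟩
    have hYd : Disjoint (Y G U S A T A₁) (Y G U S A T A₂) := by
      rw [Set.disjoint_left]
      rintro u (⟨h1, h2⟩ | ⟨a, h1, h2⟩) (⟨h1', h2'⟩ | ⟨a', h1', h2'⟩)
      · exact Set.disjoint_left.1 hdis h1 h1'
      · exact W_not_A h2' (hs1 h1)
      · exact W_not_A h2 (hs2 h1')
      · have h3 : ({a} : Set V) = {a'} := W_unique h2 h2'
        have h4 : a = a' := Set.singleton_injective h3
        rw [← h4] at h1'
        exact Set.disjoint_left.1 hdis h1 h1'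
    have hty2 := typesY3 h hsubA hty
    rw [hYu] at hty2 ⊢
    exact Lay.union (ih1 hs1) (ih2 hs2) hYd hty2

end lvM3Aux

open layDAux lvM3Aux in
/-- Layout of a set with a layout and hanging pieces. -/
theorem lvM3 : S_M3 := by
  intro hLU V _ G k k₁ U S A T _ hnb hsub hAT hlay hcard hcomp
  have h : Hyp3 G k k₁ U S A T := ⟨hnb, hsub, hAT, hcard, hcomp⟩
  have hcard' : 2 ^ (S.ncard + T.ncard) ≤ k := by
    refine le_trans ?_ hcard
    exact Nat.le_mul_of_pos_right _ (by omega)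
  have hk : 1 ≤ k := le_trans Nat.one_le_two_pow hcard'
  have hYA := layY3 hLU h hk hlay subset_rfl
  have hW' := layW3 hLU h (P := ∅) (by rw [Set.ncard_empty]; exact Nat.zero_le _)
  -- the part outside `T`
  have hcover : ∀ u ∈ U, u ∉ T → u ∈ Y G U S A T A ∪ W G U S A T ∅ := by
    intro u huU huT
    by_cases huA : u ∈ A
    · exact Or.inl (Or.inl ⟨huA, huU⟩)
    have huX : u ∈ (U ∪ S) \ (A ∪ T) := ⟨Or.inl huU, fun h1 => h1.elim huA huT⟩
    obtain ⟨D, hD, huD⟩ := exists_isComp G huX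
    rcases Set.eq_empty_or_nonempty (nb G D ∩ A) with h1 | ⟨a, ha⟩
    · exact Or.inr (mem_W.2 ⟨huU, D, hD, h1, huD⟩)
    · left
      right
      refine ⟨a, ha.2, mem_W.2 ⟨huU, D, hD, ?_, huD⟩⟩
      apply Set.Subset.antisymm
      · intro w hw
        exact (Set.ncard_le_one (Set.toFinite _)).1 (h.comp D hD).1 w hw a ha
      · exact Set.singleton_subset_iff.2 ha
  have hsubU : Y G U S A T A ∪ W G U S A T ∅ ⊆ U := by
    rintro u (h1 | h1)
    · exact Y_sub_U h1
    · exact (mem_W.1 h1).1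
  have htypes : ∀ X : Set V, Y G U S A T A ∪ W G U S A T ∅ ⊆ X → X ⊆ U → (Types G X).encard ≤ k := by
    intro X hX1 hX2
    have hnbX : nb G X ⊆ S ∪ T := by
      rintro v ⟨hv, x, hx, hxv⟩
      by_cases hvU : v ∈ U
      · right
        by_contra hvT
        exact hv (hX1 (hcover v hvU hvT))
      · exact Or.inl (h.nbU ⟨hvU, x, hX2 hx, hxv⟩)
    have h1 : (nb G X).ncard ≤ S.ncard + T.ncard :=
      (Set.ncard_le_ncard hnbX (Set.toFinite _)).trans (Set.ncard_union_le S T)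
    refine (types_encard_le h1).trans ?_
    have h2 : 2 ^ (S.ncard + T.ncard) - 1 ≤ k := by omega
    exact_mod_cast h2
  have hdis : Disjoint (Y G U S A T A) (W G U S A T ∅) := by
    rw [Set.disjoint_left]
    rintro u (⟨h1, -⟩ | ⟨a, -, h2⟩) h3
    · exact W_not_A h3 h1
    · have h4 := W_unique h2 h3
      exact Set.singleton_ne_empty a h4
  have hbase : Lay G k (Y G U S A T A ∪ W G U S A T ∅) :=
    Lay.union hYA hW' hdis (htypes _ subset_rfl hsubU)
  -- add the vertices of `U ∩ T`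
  have hstep : ∀ (Z : Set V), Z ⊆ U ∩ T → Lay G k (Z ∪ (Y G U S A T A ∪ W G U S A T ∅)) := by
    intro Z
    induction Z, Set.toFinite Z using Set.Finite.induction_on with
    | empty =>
      intro _
      rwa [Set.empty_union]
    | @insert z Z hz _ ihZ =>
      intro hZ
      rw [Set.insert_union]
      have hzUT : z ∈ U ∩ T := hZ (Set.mem_insert z Z)
      have hZ' : Z ⊆ U ∩ T := (Set.subset_insert z Z).trans hZ
      apply Lay.insert hk (ihZ hZ')
      · rintro (h1 | h1 | h1)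
        · exact hz h1
        · rcases h1 with ⟨h1, -⟩ | ⟨a, -, h1⟩
          · exact Set.disjoint_left.1 hAT h1 hzUT.2
          · exact W_not_T h1 hzUT.2
        · exact W_not_T h1 hzUT.2
      · apply htypes
        · exact Set.subset_union_right.trans (Set.subset_insert _ _)
        · rintro u (h1 | h1 | h1)
          · rw [h1]
            exact hzUT.1
          · exact (hZ' h1).1
          · exact hsubU h1
  have hfinal := hstep (U ∩ T) subset_rfl
  have hU : U ∩ T ∪ (Y G U S A T A ∪ W G U S A T ∅) = U := by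
    apply Set.Subset.antisymm
    · rintro u (h1 | h1)
      · exact h1.1
      · exact hsubU h1
    · intro u hu
      by_cases huT : u ∈ T
      · exact Or.inl ⟨hu, huT⟩
      · exact Or.inr (hcover u hu huT)
  rwa [hU] at hfinal

end Pool.Agent.MPd439b2
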