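import Pool.Agent.Lib.MP_d439b2_co.LV.Defs

/-!
# MP_d439b2_co, partner `K_s ∨ (K_3 + P_1)` (author helper6)

RESULT (`S_M6`): if `H` belongs to `S2` and to `InCoT` and is planar then for all `s` the pair `(H, K_s ∨ (K_3 + P_1))` has
bounded clique-width.

Every `S_...` is a statement to be proved in its own file `LV/Name.lean`; the docstring contains the complete proof.
Notation: `U(ι) = IMS (KC s) G univ` is the forbidden induced minor.  `B i`, `i ∈ I`, is a model of a complete graph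
(`Mdl G I B`).  For a set `X`: `hit X = hitI I B X`, `tch X = tchI G I B X`, `mis X = misI G I B X`; the three numbers
of elements add up to `|I|` (`card_hit_tch_mis`).  `L = Lg G I B` is the set of the LARGE vertices (`|mis {v}| ≤ 2`); the
other vertices are SMALL.  The statements used in a proof are HYPOTHESES inside the `S_...` (in the form `C_...` = the conclusion
of `S_...`, or `S_...` of the other Spec files).  Definitions in `LV/Defs.lean`, `R/Defs.lean`, `Defs2.lean`, `Defs5.lean`; toolkit `Basic.lean`.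
-/

set_option autoImplicit false

namespace Pool.Agent.MPd439b2

/-! ### detection of `KC s` -/

/-- **A1.** The general form.

Proof. Branch sets: `inl i ↦ U i`, `inr a ↦ X a` for `a.val < 3`, `inr 3 ↦ P`.  All conditions are hypotheses (use
symmetry of `Tch` and `Disjoint`). -/
def S_A1c : Prop := ∀ (V : Type) (G : SimpleGraph V) (s : ℕ) (P : Set V) (U X : ℕ → Set V),
  Conn G P → (∀ i < s, Conn G (U i)) → (∀ a < 3, Conn G (X a)) →
    (∀ i < s, Disjoint P (U i) ∧ Tch G P (U i)) → (∀ a < 3, Disjoint P (X a) ∧ ¬ Tch G P (X a)) →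
    (∀ i < s, ∀ j < s, i ≠ j → Disjoint (U i) (U j) ∧ Tch G (U i) (U j)) →
    (∀ a < 3, ∀ b < 3, a ≠ b → Disjoint (X a) (X b) ∧ Tch G (X a) (X b)) →
    (∀ i < s, ∀ a < 3, Disjoint (U i) (X a) ∧ Tch G (U i) (X a)) → IMS (KC s) G Set.univ

/-- **A2.** Universal sets from the model.  (Uses `S_A1c`.)

Proof. Choose an injection `e` of `{0, ..., s-1}` into `J` (for instance `J.orderEmbOfFin` or `Finset.equivFin`), extended by
anything to a function `ℕ → ℕ`, and put `U i = B (e i)`. -/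
def S_A2c : Prop := S_A1c → ∀ (V : Type) (G : SimpleGraph V) (s : ℕ) (I J : Finset ℕ) (B : ℕ → Set V) (P : Set V)
  (X : ℕ → Set V), Mdl G I B → J ⊆ I → s ≤ J.card → Conn G P →
    (∀ a < 3, Conn G (X a) ∧ Disjoint P (X a) ∧ ¬ Tch G P (X a)) →
    (∀ a < 3, ∀ b < 3, a ≠ b → Disjoint (X a) (X b) ∧ Tch G (X a) (X b)) →
    (∀ j ∈ J, Disjoint (B j) P ∧ Tch G P (B j) ∧ ∀ a < 3, Disjoint (B j) (X a) ∧ Tch G (X a) (B j)) →
    IMS (KC s) G Set.univ

/-- **A3.** Choice of distinct elements.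

Proof. Induction on `s`: choose `π s ∈ J` outside `bad s` and the at most `s` earlier values (`|J| ≥ s + 1 + d + e`).
In the end `J \ {π 0, ..., π (s-1)}` has at least `e` elements (`Finset.exists_subset_card_eq`). -/
def S_A3c : Prop := ∀ (s d e : ℕ) (J : Finset ℕ) (bad : ℕ → Finset ℕ), (∀ k < s, (bad k).card ≤ d) →
  s + d + e ≤ J.card → ∃ π : ℕ → ℕ, (∀ k < s, π k ∈ J ∧ π k ∉ bad k) ∧
    (∀ k < s, ∀ l < s, π k = π l → k = l) ∧ ∃ E ⊆ J, E.card = e ∧ ∀ k < s, π k ∉ E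

/-- **A4.** Rooted universal sets.  (Uses `S_A1c`, `S_A3c`.)

Proof. `S_A3c` with `d = 2`, `e = 3`, `bad k` = the set of the `j ∈ J` with `¬ Tch G (R k) (B j)`: `π`, and `E = {e 0, e 1, e 2}`.
`U k = R k ∪ B (π k)` (connected, as `R k` touches `B (π k)`), `X a = B (e a)`, and `P`.  The `U k` are disjoint and touch
pairwise (through the `B (π k)`), they touch the `X a`, and `P` touches `R k ⊆ U k`; `P` is disjoint from and does not
touch the sets `B j`, `j ∈ J`. -/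
def S_A4c : Prop := S_A1c → S_A3c → ∀ (V : Type) (G : SimpleGraph V) (s : ℕ) (I J : Finset ℕ) (B : ℕ → Set V)
  (P : Set V) (R : ℕ → Set V), Mdl G I B → J ⊆ I → s + 5 ≤ J.card → Conn G P →
    (∀ j ∈ J, Disjoint (B j) P ∧ ¬ Tch G P (B j)) →
    (∀ k < s, Conn G (R k) ∧ Disjoint P (R k) ∧ Tch G P (R k)) →
    (∀ k < s, ∀ l < s, k ≠ l → Disjoint (R k) (R l)) → (∀ k < s, ∀ j ∈ J, Disjoint (R k) (B j)) →
    (∀ k < s, ∃ F : Finset ℕ, F.card ≤ 2 ∧ ∀ j ∈ J, j ∉ F → Tch G (R k) (B j)) →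
    IMS (KC s) G Set.univ

/-! ### large and small vertices -/

/-- **B1.** A connected set touches fewer than `s` sets or misses at most two.  (Uses `S_A2c` in the form of its conclusion:
the hypothesis `h` below.)

Proof. Otherwise let `J = tch X`, `P = X`, and let `X 0, X 1, X 2` be the sets `B j` for three different elements of `mis X`;
A2. -/
def S_B1c : Prop := S_A1c → S_A2c → ∀ (V : Type) (G : SimpleGraph V) (s : ℕ) (I : Finset ℕ) (B : ℕ → Set V) (X : Set V),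
  ¬ IMS (KC s) G Set.univ → Mdl G I B → Conn G X → (tchI G I B X).card < s ∨ (misI G I B X).card ≤ 2

/-- The conclusion of B1. -/
def C_B1 : Prop := ∀ (V : Type) (G : SimpleGraph V) (s : ℕ) (I : Finset ℕ) (B : ℕ → Set V) (X : Set V),
  ¬ IMS (KC s) G Set.univ → Mdl G I B → Conn G X → (tchI G I B X).card < s ∨ (misI G I B X).card ≤ 2

/-- The conclusion of A4. -/
def C_A4 : Prop := ∀ (V : Type) (G : SimpleGraph V) (s : ℕ) (I J : Finset ℕ) (B : ℕ → Set V)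
  (P : Set V) (R : ℕ → Set V), Mdl G I B → J ⊆ I → s + 5 ≤ J.card → Conn G P →
    (∀ j ∈ J, Disjoint (B j) P ∧ ¬ Tch G P (B j)) →
    (∀ k < s, Conn G (R k) ∧ Disjoint P (R k) ∧ Tch G P (R k)) →
    (∀ k < s, ∀ l < s, k ≠ l → Disjoint (R k) (R l)) → (∀ k < s, ∀ j ∈ J, Disjoint (R k) (B j)) →
    (∀ k < s, ∃ F : Finset ℕ, F.card ≤ 2 ∧ ∀ j ∈ J, j ∉ F → Tch G (R k) (B j)) →
    IMS (KC s) G Set.univ

/-- The conclusion of A2. -/
def C_A2 : Prop := ∀ (V : Type) (G : SimpleGraph V) (s : ℕ) (I J : Finset ℕ) (B : ℕ → Set V) (P : Set V)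
  (X : ℕ → Set V), Mdl G I B → J ⊆ I → s ≤ J.card → Conn G P →
    (∀ a < 3, Conn G (X a) ∧ Disjoint P (X a) ∧ ¬ Tch G P (X a)) →
    (∀ a < 3, ∀ b < 3, a ≠ b → Disjoint (X a) (X b) ∧ Tch G (X a) (X b)) →
    (∀ j ∈ J, Disjoint (B j) P ∧ Tch G P (B j) ∧ ∀ a < 3, Disjoint (B j) (X a) ∧ Tch G (X a) (B j)) →
    IMS (KC s) G Set.univ

/-- **B2.** Every set of the model contains a large vertex.

Proof. Suppose that all vertices of `B j` are small.  Let `I' = I \ {j}` (a model again) and `f D = |tau G I' B D|`.  For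
`v ∈ B j`, as the `B i` are disjoint, `tau G I' B {v} = tch {v}`, which has fewer than `s` elements by B1 (so `1 ≤ s`);
`f (insert v D) ≤ f D + f {v} ≤ f D + s`, `f {v} < s`, `f (B j) = |I| - 1 ≥ s`.  `S_Grow` (b) with `M = d = s` gives a connected
`D ⊆ B j` with `s ≤ f D < 2 s`.  For the model `I'`: `tchI G I' B D = tau G I' B D` (`D ⊆ B j` is disjoint from the `B i`) has at
least `s` elements, and `misI G I' B D` has `|I| - 1 - f D ≥ 3` elements: contradiction to B1. -/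
def S_B2c : Prop := C_B1 → S_Grow → ∀ (V : Type) [Finite V] (G : SimpleGraph V) (s : ℕ) (I : Finset ℕ)
  (B : ℕ → Set V), ¬ IMS (KC s) G Set.univ → Mdl G I B → 2 * s + 5 ≤ I.card → ∀ j ∈ I, (B j ∩ Lg G I B).Nonempty

/-- The conclusion of B2. -/
def C_B2 : Prop := ∀ (V : Type) [Finite V] (G : SimpleGraph V) (s : ℕ) (I : Finset ℕ)
  (B : ℕ → Set V), ¬ IMS (KC s) G Set.univ → Mdl G I B → 2 * s + 5 ≤ I.card → ∀ j ∈ I, (B j ∩ Lg G I B).Nonempty

/-- **B3.** A connected set of small vertices meets or touches at most `2 s` sets of the model.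

Proof. CLAIM: there is no connected `X` without large vertices with `2 s + 1 ≤ |hit X| + |tch X| ≤ |I| - s - 5`.  Suppose there is.
Then `|mis X| ≥ s + 5`.  If `|tch X| ≥ s` this contradicts B1.  Otherwise `|hit X| ≥ s`; let `j_0, ..., j_(s-1)` be distinct
elements of `hit X`.  By B2 there is a large `v_k ∈ B (j_k)`; `v_k ∉ X`.  Let `R k` be the component of `v_k` in
`G[B (j_k) \ X]` (`exists_comp`).  `R k` touches `X`: `B (j_k)` is connected and meets `X`, so `R k ≠ B (j_k)` and (`Conn` with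
`B = R k`) there is an edge from `R k` to some `u ∈ B (j_k) \ R k`; if `u ∉ X` then `u ∈ nb G (R k)`, impossible for a component.
`R k` touches `B j` for `j ∈ J = mis X` unless `j ∈ mis {v_k}` (at most two; `v_k ∉ B j` as `j ≠ j_k`).  A4 with `P = X`.
PROOF of B3: let `f D = |hit D| + |tch D| = |I| - |mis D|`.  For a small vertex `v`: `f {v} ≤ 1 + (s - 1) = s` (`hitI_single_le`, B1) and
`f (insert v D) ≤ f D + s` (an element of `mis D` which is not in `mis (insert v D)` is in `hit {v}` or in `tch {v}`).  (If `s = 0` there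
is no small vertex by B1.)  If `f X ≥ 2 s + 1` then `S_Grow` (b) with `M = 2 s + 1`, `d = s` gives a connected `D ⊆ X` with
`2 s + 1 ≤ f D < 3 s + 1 ≤ |I| - s - 5`: contradiction to the claim. -/
def S_B3c : Prop := C_B1 → C_A4 → C_B2 → S_Grow → ∀ (V : Type) [Finite V] (G : SimpleGraph V) (s : ℕ)
  (I : Finset ℕ) (B : ℕ → Set V) (X : Set V), ¬ IMS (KC s) G Set.univ → Mdl G I B → 4 * s + 6 ≤ I.card →
    Conn G X → Disjoint X (Lg G I B) → (hitI I B X).card + (tchI G I B X).card ≤ 2 * s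

/-- The conclusion of B3. -/
def C_B3 : Prop := ∀ (V : Type) [Finite V] (G : SimpleGraph V) (s : ℕ)
  (I : Finset ℕ) (B : ℕ → Set V) (X : Set V), ¬ IMS (KC s) G Set.univ → Mdl G I B → 4 * s + 6 ≤ I.card →
    Conn G X → Disjoint X (Lg G I B) → (hitI I B X).card + (tchI G I B X).card ≤ 2 * s

/-- **B4.** A connected set of small vertices has fewer than `s` large neighbours.

Proof. Suppose that `nb G X ∩ L` has at least `s` elements; let `a_0, ..., a_(s-1)` be distinct ones.  `J` = the elements of `mis X`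
which are in no `hit {a_k}`: `|J| ≥ |I| - 2 s - s ≥ s + 5` (B3, `hitI_single_le`).  A4 with `P = X`, `R k = {a_k}` (not touching
`B j`, `j ∈ J`, only for `j ∈ mis {a_k}`: at most two). -/
def S_B4c : Prop := C_A4 → C_B3 → ∀ (V : Type) [Finite V] (G : SimpleGraph V) (s : ℕ)
  (I : Finset ℕ) (B : ℕ → Set V) (X : Set V), ¬ IMS (KC s) G Set.univ → Mdl G I B → 4 * s + 6 ≤ I.card →
    Conn G X → Disjoint X (Lg G I B) → (nb G X ∩ Lg G I B).ncard < s ∨ s = 0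

/-- The conclusion of B4. -/
def C_B4 : Prop := ∀ (V : Type) [Finite V] (G : SimpleGraph V) (s : ℕ)
  (I : Finset ℕ) (B : ℕ → Set V) (X : Set V), ¬ IMS (KC s) G Set.univ → Mdl G I B → 4 * s + 6 ≤ I.card →
    Conn G X → Disjoint X (Lg G I B) → (nb G X ∩ Lg G I B).ncard < s ∨ s = 0

/-- **B5.** A bounded set `T` of large vertices such that every component of small vertices has at most one neighbour
outside `T`.

Proof. Let `n = (2 s + 1) m`.  If `s = 0` take `T = ∅`: there are no small vertices by B1, so no components.  Let `1 ≤ s`.  For a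
component `Z` of `G[Lᶜ]`: `nb G Z ⊆ L`, `|nb G Z| < s` (B4), `Z` meets or touches at most `2 s` sets (B3).  Consider systems of `r` components
`Z_0, ..., Z_(r-1)` with elements `x_i ≠ y_i` of `nb G Z_i` such that all `2 r` vertices `x_i`, `y_i` are different and the `Z_i` are
different (so disjoint and not touching).
(a) There is no such system with `r = n`: by `S_Dig` (`α = ℕ`, `S = range n`, `E i j := x_j ∈ nb G Z_i ∨ y_j ∈ nb G Z_i`, `d = s`; for
given `i` the number of these `j` is at most `|nb G Z_i|`) there is a subset of `m` indices, w.l.o.g. (renumber) `0, ..., m-1`, with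
`x_j, y_j ∉ nb G Z_i` for `i ≠ j`.  `J` = the elements of `I` which are in `mis Z_i` for all `i < m` and in no `hit {x_i}`, `hit {y_i}`:
`|J| ≥ |I| - 2 s m - 2 m ≥ 2 m + 2 + (N + 2 m)`.  `S_A3c` for `2 m` choices (`k = 2 i` for `x_i`, `k = 2 i + 1` for `y_i`), `d = 2`, `bad` = the elements of
`J` whose set is not touched by the root (in `mis {x_i}`), `e = N + 2 m` (more than needed): `π`, `E`.  New model on the index set
`I' = {π k | k < 2 m} ∪ E`: `B' (π k) = {root k} ∪ B (π k)`, `B' j = B j` for `j ∈ E`.  `S_DDd` with `Y i = Z_i`, `u i = π (2 i)`,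
`w i = π (2 i + 1)`: `Z_i` touches `B' (π k)` iff the root `k` is in `nb G Z_i` iff `k ∈ {2 i, 2 i + 1}` (it does not touch `B (π k)`), and no
`B' j`, `j ∈ E`; it is disjoint from all of them.  So `IMS (DD N m) G univ`: contradiction.
(b) Take a system with maximal `r` (`r < n`) and `T = ⋃_{i < r} nb G Z_i`, `|T| ≤ s n`.  Let `Z` be a component with two elements
`x ≠ y` in `nb G Z \ T`; `Z ≠ Z_i` for all `i` (as `nb G Z_i ⊆ T`); so the system can be enlarged by `(Z, x, y)`: contradiction. -/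
def S_B5c : Prop := C_B1 → C_B3 → C_B4 → S_A3c → S_Dig → S_DDd → ∀ (V : Type) [Finite V] (G : SimpleGraph V)
  (s N m : ℕ) (I : Finset ℕ) (B : ℕ → Set V), ¬ IMS (KC s) G Set.univ → ¬ IMS (DD N m) G Set.univ → Mdl G I B →
    4 * s + 6 ≤ I.card → 2 * s * m + 6 * m + N + 2 ≤ I.card →
    ∃ T ⊆ Lg G I B, T.ncard ≤ s * ((2 * s + 1) * m) ∧ ∀ Z, IsComp G (Lg G I B)ᶜ Z → (nb G Z \ T).ncard ≤ 1

/-- **B6.** No short cycle which is not touched by a large vertex.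

Proof. `J` = the elements of `I` which are not in `hit (X 0 ∪ X 1 ∪ X 2)`, `hit {v}`, `mis {v}`, `mis {x a}` (`a < 3`):
`|J| ≥ |I| - h - 1 - 2 - 6 ≥ s`.  For `j ∈ J`: `B j` is disjoint from `{v}` and the `X a`, touches `{v}`, and touches `X a` through
`x a`.  A2 with `P = {v}`. -/
def S_B6c : Prop := C_A2 → ∀ (V : Type) (G : SimpleGraph V) (s h : ℕ) (I : Finset ℕ) (B : ℕ → Set V) (v : V)
  (X : ℕ → Set V) (x : ℕ → V), ¬ IMS (KC s) G Set.univ → Mdl G I B → v ∈ Lg G I B →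
    (∀ a < 3, Conn G (X a) ∧ v ∉ X a ∧ ¬ Tch G {v} (X a) ∧ x a ∈ X a ∧ x a ∈ Lg G I B) →
    (∀ a < 3, ∀ b < 3, a ≠ b → Disjoint (X a) (X b) ∧ Tch G (X a) (X b)) →
    (hitI I B (X 0 ∪ X 1 ∪ X 2)).card ≤ h → ¬ s + h + 9 ≤ I.card

/-- The conclusion of B6. -/
def C_B6 : Prop := ∀ (V : Type) (G : SimpleGraph V) (s h : ℕ) (I : Finset ℕ) (B : ℕ → Set V) (v : V)
  (X : ℕ → Set V) (x : ℕ → V), ¬ IMS (KC s) G Set.univ → Mdl G I B → v ∈ Lg G I B →
    (∀ a < 3, Conn G (X a) ∧ v ∉ X a ∧ ¬ Tch G {v} (X a) ∧ x a ∈ X a ∧ x a ∈ Lg G I B) →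
    (∀ a < 3, ∀ b < 3, a ≠ b → Disjoint (X a) (X b) ∧ Tch G (X a) (X b)) →
    (hitI I B (X 0 ∪ X 1 ∪ X 2)).card ≤ h → ¬ s + h + 9 ≤ I.card

/-- **B7.** Cycles which are not adjacent to a large vertex are long.

Proof. Otherwise B6 with `X 0 = {z 0}`, `X 1 = {z 1}`, `X 2 = {z i | 2 ≤ i < l}` (a path, so connected, induction with
`Conn.insert`), `x a = z a`, `h = l`: `hit` of the union has at most `l` elements (`z i` is in at most one of the sets;
`i ↦` its index). -/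
def S_B7c : Prop := C_B6 → ∀ (V : Type) (G : SimpleGraph V) (s : ℕ) (I : Finset ℕ) (B : ℕ → Set V) (v : V)
  (l : ℕ) (z : ℕ → V), ¬ IMS (KC s) G Set.univ → Mdl G I B → v ∈ Lg G I B → 3 ≤ l →
    (∀ i < l, z i ∈ Lg G I B ∧ z i ≠ v ∧ ¬ G.Adj v (z i)) → (∀ i < l, ∀ j < l, z i = z j → i = j) →
    (∀ i, i + 1 < l → G.Adj (z i) (z (i + 1))) → G.Adj (z (l - 1)) (z 0) → I.card < s + l + 9

/-- The conclusion of B7. -/
def C_B7 : Prop := ∀ (V : Type) (G : SimpleGraph V) (s : ℕ) (I : Finset ℕ) (B : ℕ → Set V) (v : V)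
  (l : ℕ) (z : ℕ → V), ¬ IMS (KC s) G Set.univ → Mdl G I B → v ∈ Lg G I B → 3 ≤ l →
    (∀ i < l, z i ∈ Lg G I B ∧ z i ≠ v ∧ ¬ G.Adj v (z i)) → (∀ i < l, ∀ j < l, z i = z j → i = j) →
    (∀ i, i + 1 < l → G.Adj (z i) (z (i + 1))) → G.Adj (z (l - 1)) (z 0) → I.card < s + l + 9

/-- **B8.** An independent set of large vertices and few more large vertices.  (Uses `S_K1` of `R/Spec2.lean`.)

Proof. If `CoF Gᶜ {w ∈ C ∪ E | Gᶜ.Adj v w}` fails for some `v ∈ C ∪ E` there is a nonempty subset `Y` of it all of whose elements `y`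
have at least two `w ∈ Y`, `w ≠ y`, with `¬ Gᶜ.Adj y w`, that is `G.Adj y w`.  `S_K1` gives a cycle `z 0, ..., z (l-1)` in `Y`.
Consecutive elements are not both in `C`, so the map which sends `i < l` with `z i ∈ C` to `i + 1` mod `l` maps injectively into the
indices `j` with `z j ∈ E \ C`, of which there are at most `|E| ≤ e`; so `l ≤ 2 e`.  Contradiction to B7. -/
def S_B8c : Prop := C_B7 → S_K1 → ∀ (V : Type) [Finite V] (G : SimpleGraph V) (s e : ℕ) (I : Finset ℕ) (B : ℕ → Set V)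
  (C E : Set V), ¬ IMS (KC s) G Set.univ → Mdl G I B → C ⊆ Lg G I B → E ⊆ Lg G I B → E.ncard ≤ e →
    (∀ a ∈ C, ∀ b ∈ C, ¬ G.Adj a b) → s + 2 * e + 9 ≤ I.card → LCF Gᶜ (C ∪ E)

/-- **B9.** Three pairwise non-adjacent large vertices have common neighbours.

Proof. `J` = the indices `j ∈ I` with `v i ∉ B j`, `j ∉ mis {v i}` (`i : Fin 3`) and `B j ∩ T = ∅`: `|J| ≥ |I| - 3 - 6 - |T|`.  Let `j ∈ J` and
`N i j = {w ∈ B j | G.Adj (v i) w}`: nonempty (`{v i}` touches `B j`).  (a) `N i j ⊆ L`: let `y ∈ N i j` be small, `Z` the component of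
`G[Lᶜ]` containing it (`exists_comp`).  `v i ∈ nb G Z` and `v i ∉ T`, so by hypothesis `nb G Z \ T = {v i}`.  `B j` contains a large vertex (B2), so
`B j ⊄ Z`, `B j` meets `Z`, it is connected: it contains an element `u` of `nb G Z`; `u ∉ T`, so `u = v i ∈ B j`: contradiction.
(b) CLAIM: there are at most three `j ∈ J` for which `N 0 j, N 1 j, N 2 j` are pairwise disjoint.  For such a `j` let `K_j ⊆ B j` be connected,
meeting at least two of the three sets, with the least number of elements (`B j` is such a set).  It meets exactly two: `K_j` has more than one element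
(disjointness), so by `S_Grow` (a) there is `x ∈ K_j` with `K_j \ {x}` connected; by minimality this meets at most one of the sets, and `x` is in at most
one of them.  Let `c(j)` be the index of the set which is not met.  If there were four such `j`, two of them, `j ≠ j'`, would have the same `c`; let
`a, b` be the other two indices.  B6 for `v c` with `X 0 = {v a}`, `X 1 = K_j`, `X 2 = K_j' ∪ {v b}`, `x 0 = v a`, `x 1` an element of `K_j ∩ N a j`,
`x 2 = v b`: `{v a}` touches `K_j` and `K_j'`, `v b` is adjacent to `K_j'` and `K_j`; `v c` is not adjacent to `v a, v b`, and to no element of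
`K_j`, `K_j'` (they do not meet `N c j`, `N c j'`); `v c ∉ B j, B j'`; `hit` of the union: at most `4` (`v a`, `v b` in one set each, `K_j ⊆ B j`,
`K_j' ⊆ B j'`).  `s + 4 + 9 ≤ |I|`: contradiction.
(c) For the other `j ∈ J` choose `w_j ∈ B j` in `N a j ∩ N b j` for some `a < b`; by (a) `w_j` is one of the common neighbours in `L`; `j ↦ w_j` is
injective.  So `|J| ≤ 3 +` the sum of the numbers of common neighbours. -/
def S_B9c : Prop := C_B6 → C_B2 → S_Grow → ∀ (V : Type) [Finite V] (G : SimpleGraph V) (s : ℕ) (I : Finset ℕ)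
  (B : ℕ → Set V) (T : Set V) (v : Fin 3 → V), ¬ IMS (KC s) G Set.univ → Mdl G I B → 2 * s + 13 ≤ I.card →
    (∀ Z, IsComp G (Lg G I B)ᶜ Z → (nb G Z \ T).ncard ≤ 1) → (∀ i, v i ∈ Lg G I B ∧ v i ∉ T) →
    Function.Injective v → (∀ i j, ¬ G.Adj (v i) (v j)) →
    I.card ≤ T.ncard + 12 + {w | w ∈ Lg G I B ∧ G.Adj (v 0) w ∧ G.Adj (v 1) w}.ncard +
      {w | w ∈ Lg G I B ∧ G.Adj (v 0) w ∧ G.Adj (v 2) w}.ncard +
      {w | w ∈ Lg G I B ∧ G.Adj (v 1) w ∧ G.Adj (v 2) w}.ncard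

/-! ### the structure of the set of the large vertices (no models any more) -/

/-- **C1.** Induced cycles.

Proof. Take an induced path `p 0, ..., p m` of `G` in `Y` (`IPath G Y m p`) with maximal `m` (`m < |V|` by injectivity; `m = 0` exists).  `p 0` has at
least two neighbours in `Y`; one of them, `y`, is not `p 1` (if `m ≥ 1`; for `m = 0` take any neighbour, then `y, p 0` is a longer induced
path: contradiction, so `m ≥ 1`).  `y` is not on the path (`p 0` is only adjacent to `p 1` on it).  If `y` were not adjacent to any `p j`, `j ≥ 1`, then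
`y, p 0, ..., p m` would be a longer induced path.  Let `j ≥ 1` be minimal with `y ~ p j`.  The induced cycle: `z 0 = y`, `z (i + 1) = p i` for `i ≤ j`,
`l = j + 2`. -/
def S_IC : Prop := ∀ (V : Type) [Finite V] (G : SimpleGraph V) (Y : Set V), Y.Nonempty →
  (∀ y ∈ Y, 2 ≤ {w | w ∈ Y ∧ G.Adj y w}.ncard) → ∃ l z, ICyc G Y l z

/-- **C2.** If the neighbourhoods in the complement are not complements of forests there is an induced cycle.  (Uses `S_IC`.)

Proof. As in B8: a `v ∈ X` and a nonempty `Y ⊆ {w ∈ X | Gᶜ.Adj v w}` all of whose elements have at least two `G`-neighbours in `Y`.  `S_IC`. -/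
def S_C2c : Prop := S_IC → ∀ (V : Type) [Finite V] (G : SimpleGraph V) (X : Set V), ¬ LCF Gᶜ X →
  ∃ v ∈ X, ∃ l z, ICyc G {w | w ∈ X ∧ w ≠ v ∧ ¬ G.Adj v w} l z

/-- The conclusion of C2. -/
def C_C2 : Prop := ∀ (V : Type) [Finite V] (G : SimpleGraph V) (X : Set V), ¬ LCF Gᶜ X →
  ∃ v ∈ X, ∃ l z, ICyc G {w | w ∈ X ∧ w ≠ v ∧ ¬ G.Adj v w} l z

/-- The statement C4 of `R/Spec1.lean`. -/
def C_RC4 : Prop := ∀ (V : Type) [Finite V] (D : SimpleGraph V) (X C : Set V), LCF D X →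
  MaxCl D X C → 7 ≤ C.ncard → (Wf D X C).ncard ≤ 15 ∨
    ∃ C', MaxCl D X C' ∧ C.ncard ≤ C'.ncard ∧ (∃ m, C \ {m} ⊆ C') ∧ 5 ≤ (Sp D X C').ncard ∧
      ((C ∪ Dn D X C) \ C').ncard ≤ 3

/-- **C3.** The join structure around a long induced cycle.  (Uses `S_C1`, `S_C2` of `R/Spec1.lean` and `C_RC4` for `D = Gᶜ`.)

Proof. `D = Gᶜ`, `h = l / 2`, `c = |C|`.  `S₀ = {v} ∪ {z (2 i) | i < h}` is independent in `G` (`2 i ≤ l - 2`).  Let `C ⊇ S₀` be a maximal independent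
subset of `X` (`X` is finite): `MaxCl D X C`; `c ≥ h + 1 ≥ 51`.  For every `X' ` with `C ⊆ X' ⊆ X` also `MaxCl D X' C`, and if `|X' \ C| ≤ 42` then
`LCF D X'` (hypothesis with `E = X' \ C`).  For `u ∉ C`: `|At D C u| + |Ms D C u| = c`.
(1) Let `u, u' ∈ X \ C`, `u ≠ u'`, and suppose that some `w ∈ C` is `D`-adjacent to both.  Then `|Ms D C u ∩ Ms D C u'| ≤ 1`: `S_C1` for
`X' = C ∪ {u, u'}`.
(2) `o_i = z (2 i + 1)`, `i < h`: `o_i ∉ C` (it is `G`-adjacent to `z (2 i) ∈ C`), `D`-adjacent to `v ∈ C`.  At most two of them are not in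
`Dn D X C`: otherwise three have `2 |Ms| ≥ c + 1`, and by (1) `c ≥ |Ms ∪ Ms' ∪ Ms''| ≥ 3 (c + 1) / 2 - 3`, so `c ≤ 3`.  So at least `h - 2 ≥ 48` of the `o_i` are
in `Dn D X C`.
(3) `|Sp D X C| ≤ 4`: otherwise take five elements of it and two dense `o_i`, `X' = C ∪` these seven; `Sp D X' C`, `Dn D X' C` contain them (membership
depends only on `C`); `S_C2`: contradiction.
(4) `|Wf D X C| ≤ 15`: otherwise choose `16` elements `w` of it, for each one a `u_w ∈ Dn D X C`, `D.Adj u_w w`, and `10` dense `o_i`; `X' = C ∪` these (at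
most `42`) elements.  `C_RC4` for `X'`: `Wf D X' C` has at least `16` elements; so there is `C'`, complete in `D`, with `|(C ∪ Dn D X' C) \ C'| ≤ 3`.  For each of the
`10` indices `i` the vertices `o_i ∈ Dn D X' C` and `z (2 i) ∈ C` are `G`-adjacent, so not both in `C'`: at least `10` elements of
`C ∪ Dn D X' C` are not in `C'`: contradiction.
(5) `T = Sp D X C ∪ Wf D X C`, `R = C ∪ Dn D X C`, `F = Fr D X C \ Wf D X C`.  They cover `X` (for `u ∈ X \ C`: `At` empty: far; otherwise sparse or dense),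
`R ∩ F = ∅`, `R, F ⊆ X`.  `a ∈ R`, `b ∈ F`: if `a ∈ C`: `At D C b = ∅`, so `¬ D.Adj b a`, `a ≠ b`, so `G.Adj a b`.  If `a ∈ Dn`: `¬ D.Adj a b` since `b ∉ Wf`, `a ≠ b`.
(6) Let `a ≠ b` in `C` and `w ≠ w'` in `R` adjacent (in `G`) to both.  `w, w' ∉ C`, so they are dense, and `a, b ∉ At w ∪ At w'`, so
`|At w ∪ At w'| ≤ c - 2 < c ≤ |At w| + |At w'|`: some element of `C` is in both; by (1) `|Ms w ∩ Ms w'| ≤ 1`, but `a, b` are in it. -/
def S_C3c : Prop := S_C1 → S_C2 → C_RC4 → ∀ (V : Type) [Finite V] (G : SimpleGraph V) (X : Set V) (v : V) (l : ℕ)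
  (z : ℕ → V), (∀ C E : Set V, C ⊆ X → E ⊆ X → (∀ a ∈ C, ∀ b ∈ C, ¬ G.Adj a b) → E.ncard ≤ 42 → LCF Gᶜ (C ∪ E)) →
    v ∈ X → ICyc G {w | w ∈ X ∧ w ≠ v ∧ ¬ G.Adj v w} l z → 100 ≤ l →
    ∃ C R F T : Set V, C ⊆ R ∧ R ⊆ X ∧ F ⊆ X ∧ X ⊆ R ∪ F ∪ T ∧ T ⊆ X ∧ Disjoint R F ∧ T.ncard ≤ 19 ∧
      (∀ a ∈ R, ∀ b ∈ F, G.Adj a b) ∧ (∀ a ∈ C, ∀ b ∈ C, ¬ G.Adj a b) ∧ l ≤ 2 * C.ncard ∧
      ∀ a ∈ C, ∀ b ∈ C, a ≠ b → {w | w ∈ R ∧ G.Adj a w ∧ G.Adj b w}.ncard ≤ 1

/-- The conclusion of C3. -/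
def C_C3 : Prop := ∀ (V : Type) [Finite V] (G : SimpleGraph V) (X : Set V) (v : V) (l : ℕ)
  (z : ℕ → V), (∀ C E : Set V, C ⊆ X → E ⊆ X → (∀ a ∈ C, ∀ b ∈ C, ¬ G.Adj a b) → E.ncard ≤ 42 → LCF Gᶜ (C ∪ E)) →
    v ∈ X → ICyc G {w | w ∈ X ∧ w ≠ v ∧ ¬ G.Adj v w} l z → 100 ≤ l →
    ∃ C R F T : Set V, C ⊆ R ∧ R ⊆ X ∧ F ⊆ X ∧ X ⊆ R ∪ F ∪ T ∧ T ⊆ X ∧ Disjoint R F ∧ T.ncard ≤ 19 ∧
      (∀ a ∈ R, ∀ b ∈ F, G.Adj a b) ∧ (∀ a ∈ C, ∀ b ∈ C, ¬ G.Adj a b) ∧ l ≤ 2 * C.ncard ∧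
      ∀ a ∈ C, ∀ b ∈ C, a ≠ b → {w | w ∈ R ∧ G.Adj a w ∧ G.Adj b w}.ncard ≤ 1

/-- **C4.** One side of a large join.

Proof. If `LCF Gᶜ X₁` is false C2 gives `v ∈ X₁` and `l`, `z`.  Suppose that `X₁ \ ({v} ∪ {z i | i < l})` has at least `s` elements; let
`r_0, ..., r_(s-1)` be distinct elements of it and `f_0, ..., f_(s-1)` distinct elements of `X₂`.  A1 with `P = {v}`, `U i = {r_i, f_i}`, `X 0 = {z 0}`,
`X 1 = {z 1}`, `X 2 = {z i | 2 ≤ i < l}` (connected: a path); `f_i` is adjacent to all elements of `X₁`. -/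
def S_C4c : Prop := S_A1c → C_C2 → ∀ (V : Type) [Finite V] (G : SimpleGraph V) (s : ℕ) (X₁ X₂ : Set V),
  ¬ IMS (KC s) G Set.univ → Disjoint X₁ X₂ → (∀ a ∈ X₁, ∀ b ∈ X₂, G.Adj a b) → s ≤ X₂.ncard →
    LCF Gᶜ X₁ ∨ ∃ v ∈ X₁, ∃ l z, ICyc G X₁ l z ∧ (X₁ \ ({v} ∪ {w | ∃ i < l, z i = w})).ncard < s + 1

/-- The conclusion of C4. -/
def C_C4 : Prop := ∀ (V : Type) [Finite V] (G : SimpleGraph V) (s : ℕ) (X₁ X₂ : Set V),
  ¬ IMS (KC s) G Set.univ → Disjoint X₁ X₂ → (∀ a ∈ X₁, ∀ b ∈ X₂, G.Adj a b) → s ≤ X₂.ncard →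
    LCF Gᶜ X₁ ∨ ∃ v ∈ X₁, ∃ l z, ICyc G X₁ l z ∧ (X₁ \ ({v} ∪ {w | ∃ i < l, z i = w})).ncard < s + 1

/-- **C5.** Layout of a cycle with few more vertices.  (Uses `S_Y3` of `R/Spec1.lean`.)

Proof. `Y = {z i | 1 ≤ i < l}`.  `LCF Gᶜ Y`: let `Y' ⊆ Y` be nonempty and `z i ∈ Y'` with minimal `i`; its `G`-neighbours in `Y'` are among
`z (i + 1)` (`z 0 ∉ Y`, and `z j` with `j < i` is not in `Y'`): at most one.  (In `CoF` the set of the `w ≠ y` with `¬ Gᶜ.Adj y w` is the set of the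
`G`-neighbours.)  Every element of `Y` has a neighbour (on the cycle).  So `Lay (restr G Y) k₀ Y`.  `X₁ \ Y` has at most `n := s + 2` elements: `z 0`, `v` and
at most `s` others.  Adding them one after the other with `S_Y3` gives `Lay (restr G X₁) (3 ^ n * k₀) X₁` (induction: if `|X \ Y| ≤ n` then
`Lay (restr G X) (3 ^ n * k₀) X`, `2 k + 1 ≤ 3 k`; `Lay.mono`). -/
def S_C5c : Prop := S_Y3 → ∀ (V : Type) [Finite V] (G : SimpleGraph V) (s k₀ l : ℕ) (X₁ : Set V) (v : V) (z : ℕ → V),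
  1 ≤ k₀ → HK G k₀ → ICyc G X₁ l z → (X₁ \ ({v} ∪ {w | ∃ i < l, z i = w})).ncard < s + 1 →
    Lay (restr G X₁) (3 ^ (s + 2) * k₀) X₁

/-- The conclusion of C5. -/
def C_C5 : Prop := ∀ (V : Type) [Finite V] (G : SimpleGraph V) (s k₀ l : ℕ) (X₁ : Set V) (v : V) (z : ℕ → V),
  1 ≤ k₀ → HK G k₀ → ICyc G X₁ l z → (X₁ \ ({v} ∪ {w | ∃ i < l, z i = w})).ncard < s + 1 →
    Lay (restr G X₁) (3 ^ (s + 2) * k₀) X₁

/-- **C6.** Layout of a join.

Proof. CLAIM: `Lay (restr G R) k A` and `A ⊆ R` imply `Lay (restr G (R ∪ F)) (k + 1) A`.  Induction on `Lay`; the trace outside `A` of `a ∈ A` in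
`restr G (R ∪ F)` is `T ∪ F`, where `T` is the trace in `restr G R`, which is empty or one of at most `k` types: at most `k + 1` types.  The same
for `F`.  `Lay.union` for `R`, `F`; `R ∪ F` has no types (all neighbours in `restr G (R ∪ F)` are in `R ∪ F`). -/
def S_C6c : Prop := ∀ (V : Type) (G : SimpleGraph V) (k : ℕ) (R F : Set V), Disjoint R F →
  (∀ a ∈ R, ∀ b ∈ F, G.Adj a b) → Lay (restr G R) k R → Lay (restr G F) k F → Lay (restr G (R ∪ F)) (k + 1) (R ∪ F)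

/-! ### assembly -/

/-- The structure theorem for a large model: `A` and `T` are sets of large vertices. -/
def S_Str : Prop := ∀ s N m k₀ : ℕ, 1 ≤ k₀ → ∃ t τ k : ℕ, ∀ t' : ℕ, t ≤ t' → ∀ (V : Type) [Finite V] (G : SimpleGraph V)
  (B : ℕ → Set V), ¬ IMS (KC s) G Set.univ → ¬ IMS (DD N m) G Set.univ → HK G k₀ → Mdl G (Finset.range t') B →
    ∃ A T : Set V, T.ncard ≤ τ ∧ Disjoint A T ∧ Lay (restr G A) k A ∧ (∀ i < t', (B i ∩ (A ∪ T)).Nonempty) ∧
      ∀ D, IsComp G (A ∪ T)ᶜ D → (nb G D ∩ A).ncard ≤ 1 ∧ (nb G D).ncard ≤ s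

/-- The conclusion of B5. -/
def C_B5 : Prop := ∀ (V : Type) [Finite V] (G : SimpleGraph V)
  (s N m : ℕ) (I : Finset ℕ) (B : ℕ → Set V), ¬ IMS (KC s) G Set.univ → ¬ IMS (DD N m) G Set.univ → Mdl G I B →
    4 * s + 6 ≤ I.card → 2 * s * m + 6 * m + N + 2 ≤ I.card →
    ∃ T ⊆ Lg G I B, T.ncard ≤ s * ((2 * s + 1) * m) ∧ ∀ Z, IsComp G (Lg G I B)ᶜ Z → (nb G Z \ T).ncard ≤ 1

/-- The conclusion of B8. -/
def C_B8 : Prop := ∀ (V : Type) [Finite V] (G : SimpleGraph V) (s e : ℕ) (I : Finset ℕ) (B : ℕ → Set V)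
  (C E : Set V), ¬ IMS (KC s) G Set.univ → Mdl G I B → C ⊆ Lg G I B → E ⊆ Lg G I B → E.ncard ≤ e →
    (∀ a ∈ C, ∀ b ∈ C, ¬ G.Adj a b) → s + 2 * e + 9 ≤ I.card → LCF Gᶜ (C ∪ E)

/-- The conclusion of B9. -/
def C_B9 : Prop := ∀ (V : Type) [Finite V] (G : SimpleGraph V) (s : ℕ) (I : Finset ℕ)
  (B : ℕ → Set V) (T : Set V) (v : Fin 3 → V), ¬ IMS (KC s) G Set.univ → Mdl G I B → 2 * s + 13 ≤ I.card →
    (∀ Z, IsComp G (Lg G I B)ᶜ Z → (nb G Z \ T).ncard ≤ 1) → (∀ i, v i ∈ Lg G I B ∧ v i ∉ T) →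
    Function.Injective v → (∀ i j, ¬ G.Adj (v i) (v j)) →
    I.card ≤ T.ncard + 12 + {w | w ∈ Lg G I B ∧ G.Adj (v 0) w ∧ G.Adj (v 1) w}.ncard +
      {w | w ∈ Lg G I B ∧ G.Adj (v 0) w ∧ G.Adj (v 2) w}.ncard +
      {w | w ∈ Lg G I B ∧ G.Adj (v 1) w ∧ G.Adj (v 2) w}.ncard

/-- **M1.** The structure theorem for a large model.  (Uses also `S_Y2` of `R/Spec1.lean`.)

Proof. `τ₁ = s (2 s + 1) m`, `τ = τ₁ + 19`, `k = 3 ^ (s + 2) * k₀ + 1`, `t = 4 s + 2 s m + 6 m + N + 3 τ₁ + 400`.  Let `I = range t'`, `L = Lg G I B`.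
B5 gives `T₁`.  Every `v ∈ L` has a neighbour (`|hit {v}| ≤ 1`, `|mis {v}| ≤ 2`, so it touches a set of the model).  `B i ∩ L ≠ ∅` by B2.  For a component
`D` of `G[Lᶜ]`: `nb G D ⊆ L`, and `|nb G D| < s` or `s = 0` by B4; if `s = 0` there are no small vertices (B1), so no `D`.
CASE I: `LCF Gᶜ L`.  `A = L \ T₁`, `T = T₁`: `LCF Gᶜ A` (subset), `HK` gives `Lay (restr G A) k₀ A`.
CASE II: otherwise C2 gives `v ∈ L`, `l`, `z`; B7: `l > t' - s - 9`, so `l ≥ 100`, `l ≥ 2 τ₁ + 2 s + 20`.  By B8 (`e = 42`) the hypothesis of C3 is satisfied for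
`X = L`: `C, R, F, T₂`.  `2 |C| ≥ l`, so `|C| ≥ τ₁ + 3` and `|C| ≥ s`: choose different `v 0, v 1, v 2 ∈ C \ T₁`.  B9 (with `T = T₁`): the common
neighbours in `L` of `v i, v j` (`i ≠ j`) are in `R` (at most one), in `T₂` (at most `19`) or in `F`; so `t' ≤ τ₁ + 12 + 3 (20 + |F|)`, hence `|F| ≥ s`.  C4 for
`(R, F)` (`|F| ≥ s`) and for `(F, R)` (`|R| ≥ |C| ≥ s`) and `HK` resp. C5: `Lay (restr G R) (3 ^ (s+2) * k₀) R` and the same for `F` (`k₀ ≤ 3 ^ (s+2) * k₀`; all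
elements have neighbours).  C6: `Lay (restr G (R ∪ F)) k (R ∪ F)`.  `T = T₁ ∪ T₂`, `A = L \ T ⊆ R ∪ F`; `S_Y2`: `Lay (restr G A) k A`.
In both cases `A ∪ T = L`, and `nb G D ∩ A ⊆ nb G D \ T₁` has at most one element. -/
def S_M1 : Prop := C_B1 → C_B2 → C_B4 → C_B5 → C_B7 → C_B8 → C_B9 → C_C2 → C_C3 → C_C4 → C_C5 → S_C6c → S_Y2 → S_Str

/-- The structure of a graph seen from a large well linked set. -/
def S_DGc : Prop := ∀ s N m r k₀ : ℕ, 1 ≤ k₀ → ∃ θ τ k : ℕ, ∀ (V : Type) [Finite V] (G : SimpleGraph V) (S : Set V),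
  WL G S θ → 5 * θ ≤ S.ncard → ¬ IMS (KC s) G Set.univ → ¬ IMS (DD N m) G Set.univ → ¬ IMS (grid r) G Set.univ → HK G k₀ →
    ∃ A T : Set V, T.ncard ≤ τ ∧ Disjoint A T ∧ Lay (restr G A) k A ∧
      ∀ D, IsComp G (A ∪ T)ᶜ D → (nb G D ∩ A).ncard ≤ 1 ∧ 2 * (S ∩ D).ncard ≤ S.ncard

/-- **M2.** (Uses `S_GK`, `S_Str`.)

Proof. `t, τ, k` from `S_Str`; `S_GK` for `max t (s + 1)`, `r`, `s + 1` gives `θ`.  No grid, so there is a deep model `B : Fin t' → Set V`, `t' = max t (s + 1)`;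
`B' i = if h : i < t' then B ⟨i, h⟩ else ∅` is a `Mdl` on `range t'`.  `S_Str` gives `A`, `T`.  Let `D` be a component of `(A ∪ T)ᶜ` and `X = nb G D`,
`|X| ≤ s < s + 1`.  `Deep` gives `i`, `C` with `C ∩ X = ∅`, `Conn G C`, `B i ⊆ C`, `|S| < 2 |S ∩ C|`.  `C ∩ D = ∅`: otherwise `C ∩ D` is closed in `C` (a neighbour of `D` outside
`D` is in `X`), so `C ⊆ D ⊆ (A ∪ T)ᶜ`, but `B i ⊆ C` meets `A ∪ T`.  So `|S ∩ D| + |S ∩ C| ≤ |S|` and `2 |S ∩ D| ≤ |S|`. -/
def S_M2 : Prop := S_GK → S_Str → S_DGc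

/-- **M3.** Layout of a set with a layout and hanging pieces.  (Uses `S_LayU` of `B/SpecR.lean`.  See the proof of `S_LayD` in `B/LayD.lean`, which can be
adapted: `P4Free G A` is replaced by a layout of `A`.)

Proof. `E = S ∪ T`.  The components `D` of `G[(U ∪ S) \ (A ∪ T)]` partition this set; two different ones do not touch.  For `a ∈ A` let `W a` be the union of the
sets `U ∩ D` over all components `D` with `nb G D ∩ A = {a}`, and let `W'` be the union of the `U ∩ D` over the components with `nb G D ∩ A = ∅`.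
(1) `nb G (U ∩ D) ⊆ E ∪ (nb G D ∩ A)` (as in `S_LayD`).  (2) By `S_LayU` with `E ∪ {a}` resp. `E`: `Lay G k (W a)`, `Lay G k W'`
(`2 ^ (|E| + 1) ≤ 2 ^ (|S| + |T|) * (k₁ + 2) ≤ k`).
(3) For `A' ⊆ A` put `Y(A') = ⋃_{a ∈ A'} (({a} ∩ U) ∪ W a)`.  CLAIM: `Lay (restr G A) k₁ A'` implies `Lay G k (Y(A'))`.  Types of `Y(A')`: the trace of a vertex
`u ∈ W a` outside `Y(A')` is a subset of `E`.  The trace of `a ∈ A' ∩ U` is (a subset of `E`) ∪ (`(M ∩ U) \ E`), where `M` is the trace of `a` in `restr G A` outside `A'`, which is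
empty or one of at most `k₁` sets.  So there are at most `2 ^ |E| + 2 ^ |E| * (k₁ + 1) ≤ k` types.  Induction on the layout of `A'`: `∅`; `{a}`: `W a`, and if `a ∈ U` then
`Lay.insert`; `A₁ ∪ A₂`: `Lay.union` (`Y(A₁)`, `Y(A₂)` are disjoint).
(4) `U = Y(A) ∪ W' ∪ (U ∩ T)`: as in `S_LayD`: `Lay.union`, then `Lay.insert` for the elements of `U ∩ T`. -/
def S_M3 : Prop := S_LayU → ∀ (V : Type) [Finite V] (G : SimpleGraph V) (k k₁ : ℕ) (U S A T : Set V),
  Disjoint U S → nb G U ⊆ S → A ⊆ U ∪ S → Disjoint A T → Lay (restr G A) k₁ A →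
    2 ^ (S.ncard + T.ncard) * (k₁ + 2) ≤ k →
    (∀ D, IsComp G ((U ∪ S) \ (A ∪ T)) D → (nb G D ∩ A).ncard ≤ 1 ∧ Lay G k (U ∩ D)) →
    Lay G k U

/-- The conclusion of M3. -/
def C_M3 : Prop := ∀ (V : Type) [Finite V] (G : SimpleGraph V) (k k₁ : ℕ) (U S A T : Set V),
  Disjoint U S → nb G U ⊆ S → A ⊆ U ∪ S → Disjoint A T → Lay (restr G A) k₁ A →
    2 ^ (S.ncard + T.ncard) * (k₁ + 2) ≤ k →
    (∀ D, IsComp G ((U ∪ S) \ (A ∪ T)) D → (nb G D ∩ A).ncard ≤ 1 ∧ Lay G k (U ∩ D)) →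
    Lay G k U

/-- Graphs without the three induced minors have layouts of bounded width. -/
def S_Layc : Prop := ∀ s N m r k₀ : ℕ, 1 ≤ s → 2 ≤ N → 2 * m ≤ N → 2 ≤ r → 1 ≤ k₀ → ∃ k : ℕ,
  ∀ (V : Type) [Finite V] (G : SimpleGraph V), ¬ IMS (KC s) G Set.univ → ¬ IMS (DD N m) G Set.univ →
    ¬ IMS (grid r) G Set.univ → (∀ Y : Set V, LCF Gᶜ Y → Lay (restr G Y) k₀ Y) → Lay G k Set.univ

/-- **M4.** The recursion.  (Uses `C_M3`, `S_Restr`, `S_DGc`, `S_Y2`.  See the proof of `S_Rec` in `B/Rec.lean`, which can be adapted.)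

Proof. `θ, τ, k₁` from `S_DGc`, `q = 5 θ + 2 τ + 3`, `k = 2 ^ (q + θ + τ + 2) * (k₁ + 2)`.  CLAIM: for all `n` and all `U`, `S` with `|U| = n`, `Disjoint U S`,
`nb G U ⊆ S`, `|S| ≤ q`: `Lay G k U`; exactly as in `S_Rec` (R5 in `B/SpecR.lean`), with the following change in CASE 2: `G' = restr G X`, `X = U ∪ S`.  `¬ IMS (KC s) G' univ` by
`S_Restr` (`1 ≤ s`: all vertices of `KC s` have a neighbour).  `HK G' k₀`: let all elements of `Y` have a `G'`-neighbour and `LCF G'ᶜ Y`; then `Y ⊆ X`, so `G` and `G'` agree on `Y`,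
`LCF Gᶜ Y`, and `restr G' Y = restr G Y`.  `S_DGc` gives `A, T` with `Lay (restr G' A) k₁ A`; put `A' = A ∩ X`, `T' = T ∩ X`: `Lay (restr G' A') k₁ A'` by `S_Y2`, and
`restr G' A' = restr G A'`.  Then `C_M3` (`|S| + |T'| ≤ q + τ`). -/
def S_M4 : Prop := C_M3 → S_Restr → S_DGc → S_Y2 → S_Layc

/-- **M5.** The pairs `(H, K_s ∨ (K_3 + P_1))`.  (Uses `S_Layc`, `S_S2DD`, `S_P10`, `S_K3`, `S_Y1`, `S_LayCW`; see `B/A5.lean`.)

Proof. We may assume `1 ≤ s` (`KC s` is an induced minor of `KC (s + 1)`: singletons, `inl i ↦ inl i.castSucc`, `inr a ↦ inr a`).  As in `S_A5`: `H` is an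
induced minor of `DD N m` with `2 ≤ N`, `2 m ≤ N`, and of `grid r`, `2 ≤ r`.  `S_K3` gives `r', k'` for `H`, `S_P10 r' k'` gives `K`; `k₀ = K + 1`.  Let `G` contain
neither `H` nor `KC s`.  For `Y` with `LCF Gᶜ Y`: `¬ HasN Gᶜ univ r' k'` by `S_K3`, so `¬ HasN Gᶜ Y r' k'`; `S_P10`: `Lay (restr Gᶜ Y) K Y`; `S_Y1`:
`Lay (restr Gᶜᶜ Y) (K + 1) Y`, `Gᶜᶜ = G`.  `S_Layc`, `S_LayCW`. -/
def S_M5 : Prop := S_Layc → S_P10 → S_K3 → S_Y1 → ∀ (s : ℕ) (W : Type) [Finite W] (H : SimpleGraph W), InS2 H →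
  InGrid H → InCoT H → BoundedCW H (KC s)

end Pool.Agent.MPd439b2
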